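import Mathlib

/-!
Bi-infinite two-parse structures attached to a shortest solution of a two-pair
instance of the Post correspondence problem.
-/

namespace PCPHard

/-- Single parse: block boundaries `K i`, levels `t i`, heights `ht` with `ht (K i) = s * t i`,
`0 < s`. -/
structure SP where
  w : ℤ → Bool
  K : ℤ → ℤ
  t : ℤ → ℤ
  ht : ℤ → ℤ
  p : ℤ
  q : ℤ
  s : ℤ
  hp : 0 < p
  hq : 0 < q
  hs : 0 < s
  hK : ∀ i, K i < K (i + 1)
  hlen : ∀ i j, w i = w j → K (i + 1) - K i = K (j + 1) - K j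
  ta : ∀ i, w i = true → t (i + 1) = t i + p
  tb : ∀ i, w i = false → t (i + 1) = t i - q
  htK : ∀ i, ht (K i) = s * t i
  cons : ∀ i j, w i = w j → ∀ o, 0 ≤ o → o ≤ K (i + 1) - K i →
    ht (K j + o) = ht (K i + o) + s * (t j - t i)
  exTop : ∃ i, ∀ j, t j ≤ t i
  exBot : ∃ i, ∀ j, t i ≤ t j
  exMax : ∃ P, ∀ Q, ht Q ≤ ht P
  exMin : ∃ P, ∀ Q, ht P ≤ ht Q
  loc : ∀ P, ∃ l, K l ≤ P ∧ P < K (l + 1)

namespace SP

variable (S : SP)

def flip : SP where
  w := fun i => !S.w i
  K := S.K
  t := fun i => - S.t i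
  ht := fun P => - S.ht P
  p := S.q
  q := S.p
  s := S.s
  hp := S.hq
  hq := S.hp
  hs := S.hs
  hK := S.hK
  hlen := by
    intro i j h
    exact S.hlen i j (by simpa using h)
  ta := by
    intro i h
    have := S.tb i (by simpa using h)
    simp only [this]; ring
  tb := by
    intro i h
    have := S.ta i (by simpa using h)
    simp only [this]; ring
  htK := by
    intro i
    simp only [S.htK]; ring
  cons := by
    intro i j h o h0 h1
    have := S.cons i j (by simpa using h) o h0 h1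
    simp only [this]; ring
  exTop := by
    obtain ⟨i, hi⟩ := S.exBot
    exact ⟨i, fun j => by simpa using hi j⟩
  exBot := by
    obtain ⟨i, hi⟩ := S.exTop
    exact ⟨i, fun j => by simpa using hi j⟩
  exMax := by
    obtain ⟨i, hi⟩ := S.exMin
    exact ⟨i, fun j => by simpa using hi j⟩
  exMin := by
    obtain ⟨i, hi⟩ := S.exMax
    exact ⟨i, fun j => by simpa using hi j⟩
  loc := S.loc

theorem top_prev {i : ℤ} (hi : ∀ j, S.t j ≤ S.t i) : S.w (i - 1) = true := by
  by_contra h
  have h' : S.w (i - 1) = false := by simpa using h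
  have h1 := S.tb (i - 1) h'
  rw [sub_add_cancel] at h1
  have h2 := hi (i - 1)
  have := S.hq
  omega

theorem top_next {i : ℤ} (hi : ∀ j, S.t j ≤ S.t i) : S.w i = false := by
  by_contra h
  have h' : S.w i = true := by simpa using h
  have h1 := S.ta i h'
  have h2 := hi (i + 1)
  have := S.hp
  omega

/-- a maximal-height time is near a top vertex -/
theorem near_top {P : ℤ} (hP : ∀ Q, S.ht Q ≤ S.ht P) :
    ∃ i, (∀ j, S.t j ≤ S.t i) ∧ S.K (i - 1) < P ∧ P < S.K (i + 1) := by
  obtain ⟨l, hl1, hl2⟩ := S.loc P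
  obtain ⟨i, hi⟩ := S.exTop
  have hs := S.hs
  have hp := S.hp
  have hq := S.hq
  cases hw : S.w l with
  | true =>
    have h1 := S.top_prev hi
    have hc := S.cons l (i - 1) (by rw [hw, h1]) (P - S.K l) (by omega) (by omega)
    have e1 : S.K l + (P - S.K l) = P := by ring
    rw [e1] at hc
    have hm := hP (S.K (i - 1) + (P - S.K l))
    have hle : S.t (i - 1) ≤ S.t l := by
      by_contra hcon
      push Not at hcon
      have : 0 < S.s * (S.t (i - 1) - S.t l) := mul_pos hs (by omega)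
      omega
    have ht1 := S.ta (i - 1) h1
    rw [sub_add_cancel] at ht1
    have ht2 := S.ta l hw
    have htop : ∀ j, S.t j ≤ S.t (l + 1) := fun j => by have := hi j; omega
    have hne : P ≠ S.K l := by
      intro h
      have a1 := S.htK l
      have a2 := S.htK (l + 1)
      have a3 := hP (S.K (l + 1))
      rw [h, a1, a2, ht2] at a3
      have : 0 < S.s * S.p := mul_pos hs hp
      nlinarith
    refine ⟨l + 1, htop, ?_, ?_⟩
    · rw [add_sub_cancel_right]; omega
    · have := S.hK (l + 1); omega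
  | false =>
    have h1 := S.top_next hi
    have hc := S.cons l i (by rw [hw, h1]) (P - S.K l) (by omega) (by omega)
    have e1 : S.K l + (P - S.K l) = P := by ring
    rw [e1] at hc
    have hm := hP (S.K i + (P - S.K l))
    have hle : S.t i ≤ S.t l := by
      by_contra hcon
      push Not at hcon
      have : 0 < S.s * (S.t i - S.t l) := mul_pos hs (by omega)
      omega
    refine ⟨l, fun j => by have := hi j; omega, ?_, hl2⟩
    have := S.hK (l - 1)
    rw [sub_add_cancel] at this
    omega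

/-- shifting a near-top time from one top vertex to another vertex with the same surroundings -/
theorem shift_ht {i j : ℤ} (h1 : S.w (i - 1) = S.w (j - 1)) (h2 : S.w i = S.w j) {P : ℤ}
    (hP1 : S.K (i - 1) ≤ P) (hP2 : P ≤ S.K (i + 1)) :
    S.ht (P - S.K i + S.K j) = S.ht P + S.s * (S.t j - S.t i) ∧
      S.K (i - 1) - P = S.K (j - 1) - (P - S.K i + S.K j) ∧
      S.K (i + 1) - P = S.K (j + 1) - (P - S.K i + S.K j) := by
  have l1 := S.hlen (i - 1) (j - 1) h1
  have l2 := S.hlen i j h2
  rw [sub_add_cancel, sub_add_cancel] at l1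
  refine ⟨?_, by omega, by omega⟩
  rcases le_or_gt (S.K i) P with h | h
  · have hc := S.cons i j h2 (P - S.K i) (by omega) (by omega)
    have e1 : S.K j + (P - S.K i) = P - S.K i + S.K j := by ring
    have e2 : S.K i + (P - S.K i) = P := by ring
    rw [e1, e2] at hc
    exact hc
  · have hc := S.cons (i - 1) (j - 1) h1 (P - S.K (i - 1)) (by omega)
      (by rw [sub_add_cancel]; omega)
    have e1 : S.K (j - 1) + (P - S.K (i - 1)) = P - S.K i + S.K j := by omega
    have e2 : S.K (i - 1) + (P - S.K (i - 1)) = P := by ring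
    rw [e1, e2] at hc
    have t1 : S.t i - S.t (i - 1) = S.t j - S.t (j - 1) := by
      cases hw : S.w (i - 1) with
      | true =>
        have a := S.ta (i - 1) hw
        have b := S.ta (j - 1) (by rw [← h1, hw])
        rw [sub_add_cancel] at a b
        omega
      | false =>
        have a := S.tb (i - 1) hw
        have b := S.tb (j - 1) (by rw [← h1, hw])
        rw [sub_add_cancel] at a b
        omega
    have t2 : S.t (j - 1) - S.t (i - 1) = S.t j - S.t i := by omega
    rw [t2] at hc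
    exact hc

theorem top_has {i : ℤ} (hi : ∀ j, S.t j ≤ S.t i) :
    ∃ P, (∀ Q, S.ht Q ≤ S.ht P) ∧ S.K (i - 1) < P ∧ P < S.K (i + 1) := by
  obtain ⟨P0, hP0⟩ := S.exMax
  obtain ⟨i0, hi0, h1, h2⟩ := S.near_top hP0
  have hs := S.shift_ht (i := i0) (j := i) (by rw [S.top_prev hi, S.top_prev hi0])
    (by rw [S.top_next hi, S.top_next hi0]) (P := P0) (by omega) (by omega)
  obtain ⟨e1, e2, e3⟩ := hs
  have : S.t i = S.t i0 := le_antisymm (hi0 i) (hi i0)
  rw [this, sub_self, mul_zero, add_zero] at e1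
  exact ⟨P0 - S.K i0 + S.K i, fun Q => by rw [e1]; exact hP0 Q, by omega, by omega⟩

theorem bot_prev {i : ℤ} (hi : ∀ j, S.t i ≤ S.t j) : S.w (i - 1) = false := by
  have := S.flip.top_prev (i := i) (fun j => neg_le_neg (hi j))
  simpa [flip] using this

theorem bot_next {i : ℤ} (hi : ∀ j, S.t i ≤ S.t j) : S.w i = true := by
  have := S.flip.top_next (i := i) (fun j => neg_le_neg (hi j))
  simpa [flip] using this

theorem near_bot {P : ℤ} (hP : ∀ Q, S.ht P ≤ S.ht Q) :
    ∃ i, (∀ j, S.t i ≤ S.t j) ∧ S.K (i - 1) < P ∧ P < S.K (i + 1) := by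
  obtain ⟨i, h1, h2, h3⟩ := S.flip.near_top (P := P) (fun Q => neg_le_neg (hP Q))
  exact ⟨i, fun j => neg_le_neg_iff.mp (h1 j), h2, h3⟩

theorem bot_has {i : ℤ} (hi : ∀ j, S.t i ≤ S.t j) :
    ∃ P, (∀ Q, S.ht P ≤ S.ht Q) ∧ S.K (i - 1) < P ∧ P < S.K (i + 1) := by
  obtain ⟨P, h1, h2, h3⟩ := S.flip.top_has (i := i) (fun j => neg_le_neg (hi j))
  exact ⟨P, fun j => neg_le_neg_iff.mp (h1 j), h2, h3⟩

end SP

end PCPHard
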