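import Pool.Agent.PCPHard.Words

/-!
Building a `TP` structure from a shortest solution.
-/

namespace PCPHard

/-- a shortest solution in the main case, with heights -/
structure Dat (α : Type) where
  x : List α
  y : List α
  u : List α
  v : List α
  w : List Bool
  p : ℕ
  q : ℕ
  d : ℕ
  k : ℕ
  F : α → ℤ
  sg : ℤ
  sh : ℤ
  hy : y ≠ []
  hu : u ≠ []
  hp : 0 < p
  hq : 0 < q
  hd : 0 < d
  hk : 0 < k
  cop : Nat.Coprime p q
  hxu : x.length = u.length + d * p
  hvy : v.length = y.length + d * q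
  hA : w.count true = k * q
  hB : w.count false = k * p
  sol : mor x y w = mor u v w
  min : ∀ w', w' ≠ [] → mor x y w' = mor u v w' → w.length ≤ w'.length
  Fx : psi F x = p * sg
  Fy : psi F y = - (q * sg)
  Fu : psi F u = p * sh
  Fv : psi F v = - (q * sh)

namespace Dat

variable {α : Type} (D : Dat α)

theorem len : D.w.length = D.k * (D.p + D.q) := by
  have h := List.count_true_add_count_false D.w
  rw [D.hA, D.hB] at h
  rw [← h]; ring

theorem len_pos : 0 < D.w.length := by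
  rw [D.len]; exact Nat.mul_pos D.hk (Nat.add_pos_left D.hp _)

/-- linear level -/
def t0 (r : ℕ) : ℤ := D.p * ((D.w.take r).count true : ℤ) - D.q * ((D.w.take r).count false : ℤ)

def G0 (r : ℕ) : ℤ := ((mor D.x D.y (D.w.take r)).length : ℤ)

def H0 (r : ℕ) : ℤ := ((mor D.u D.v (D.w.take r)).length : ℤ)

def N : ℕ := (mor D.x D.y D.w).length

theorem GH0 (r : ℕ) : D.G0 r - D.H0 r = D.d * D.t0 r := by
  unfold G0 H0 t0
  rw [length_mor, length_mor, D.hxu, D.hvy]
  push_cast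
  ring

theorem G0_zero : D.G0 0 = 0 := by simp [G0, mor]

theorem H0_zero : D.H0 0 = 0 := by simp [H0, mor]

theorem t0_zero : D.t0 0 = 0 := by simp [t0]

theorem G0_n : D.G0 D.w.length = D.N := by simp [G0, N]

theorem H0_n : D.H0 D.w.length = D.N := by simp [H0, N, D.sol]

theorem t0_n : D.t0 D.w.length = 0 := by
  simp only [t0, List.take_length, D.hA, D.hB]; push_cast; ring

theorem N_pos : 0 < D.N := by
  rw [N, length_mor, D.hA]
  have h1 := List.length_pos_of_ne_nil D.hu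
  have h2 : 0 < D.x.length := by rw [D.hxu]; omega
  have : 0 < D.k * D.q * D.x.length := Nat.mul_pos (Nat.mul_pos D.hk D.hq) h2
  omega

theorem G0_succ {r : ℕ} (hr : r < D.w.length) :
    D.G0 (r + 1) = D.G0 r + ((blk D.x D.y D.w[r]).length : ℤ) := by
  unfold G0
  rw [mor_take_succ D.x D.y D.w hr, List.length_append]; push_cast; rfl

theorem H0_succ {r : ℕ} (hr : r < D.w.length) :
    D.H0 (r + 1) = D.H0 r + ((blk D.u D.v D.w[r]).length : ℤ) := by
  unfold H0
  rw [mor_take_succ D.u D.v D.w hr, List.length_append]; push_cast; rfl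

theorem t0_succ {r : ℕ} (hr : r < D.w.length) :
    D.t0 (r + 1) = D.t0 r + (if D.w[r] = true then (D.p : ℤ) else - D.q) := by
  unfold t0
  rw [List.take_succ_eq_append_getElem hr, List.count_append, List.count_append]
  cases h : D.w[r]
  · simp; ring
  · simp; ring

/-- linear heights -/
def ht0 (z : ℕ) : ℤ := psi D.F ((mor D.x D.y D.w).take z)

theorem ht0_zero : D.ht0 0 = 0 := by simp [ht0, psi]

theorem ht0_n : D.ht0 D.N = 0 := by
  rw [ht0, N, List.take_length, psi_mor, D.hA, D.hB, D.Fx, D.Fy]; push_cast; ring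

theorem psi_g (r : ℕ) : psi D.F (mor D.x D.y (D.w.take r)) = D.sg * D.t0 r := by
  rw [psi_mor, D.Fx, D.Fy, t0]; ring

theorem psi_h (r : ℕ) : psi D.F (mor D.u D.v (D.w.take r)) = D.sh * D.t0 r := by
  rw [psi_mor, D.Fu, D.Fv, t0]; ring

theorem ht_g {r : ℕ} (hr : r < D.w.length) {e : ℕ} (he : e ≤ (blk D.x D.y D.w[r]).length) :
    D.ht0 ((mor D.x D.y (D.w.take r)).length + e)
      = D.sg * D.t0 r + psi D.F ((blk D.x D.y D.w[r]).take e) := by
  unfold ht0
  rw [mor_split D.x D.y D.w hr, List.take_append, List.take_of_length_le (by omega),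
    Nat.add_sub_cancel_left, List.take_append_of_le_length he, psi_append, D.psi_g]

theorem ht_h {r : ℕ} (hr : r < D.w.length) {e : ℕ} (he : e ≤ (blk D.u D.v D.w[r]).length) :
    D.ht0 ((mor D.u D.v (D.w.take r)).length + e)
      = D.sh * D.t0 r + psi D.F ((blk D.u D.v D.w[r]).take e) := by
  unfold ht0
  rw [D.sol, mor_split D.u D.v D.w hr, List.take_append, List.take_of_length_le (by omega),
    Nat.add_sub_cancel_left, List.take_append_of_le_length he, psi_append, D.psi_h]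

theorem t0_ne {r : ℕ} (h1 : 0 < r) (h2 : r < D.w.length) : D.t0 r ≠ 0 := by
  intro h
  have h3 := D.GH0 r
  rw [h, mul_zero] at h3
  unfold G0 H0 at h3
  refine uniq_core D.x D.y D.u D.v D.w D.sol D.min (r := 0) (r' := r) h1 h2 (ℓ := 0)
    (by simp [mor]) (by omega) (by intro e he; omega)

/-! bi-infinite functions -/

def Gz : ℤ → ℤ := ext D.w.length D.N D.G0

def Hz : ℤ → ℤ := ext D.w.length D.N D.H0

def tz : ℤ → ℤ := ext D.w.length 0 D.t0

def htz : ℤ → ℤ := ext D.N 0 D.ht0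

def wz (i : ℤ) : Bool := D.w.getD (i % (D.w.length : ℤ)).toNat false

theorem Gz_spec (m : ℤ) {r : ℕ} (hr : r ≤ D.w.length) :
    D.Gz (m * D.w.length + r) = m * D.N + D.G0 r :=
  ext_spec D.len_pos D.G0_zero D.G0_n m hr

theorem Hz_spec (m : ℤ) {r : ℕ} (hr : r ≤ D.w.length) :
    D.Hz (m * D.w.length + r) = m * D.N + D.H0 r :=
  ext_spec D.len_pos D.H0_zero D.H0_n m hr

theorem tz_spec (m : ℤ) {r : ℕ} (hr : r ≤ D.w.length) :
    D.tz (m * D.w.length + r) = D.t0 r := by
  have := ext_spec (K0 := D.t0) (N := 0) D.len_pos D.t0_zero D.t0_n m hr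
  rw [mul_zero, zero_add] at this; exact this

theorem htz_spec (m : ℤ) {z : ℕ} (hz : z ≤ D.N) :
    D.htz (m * D.N + z) = D.ht0 z := by
  have := ext_spec (K0 := D.ht0) (N := 0) D.N_pos D.ht0_zero D.ht0_n m hz
  rw [mul_zero, zero_add] at this; exact this

theorem wz_spec (m : ℤ) {r : ℕ} (hr : r < D.w.length) :
    D.wz (m * D.w.length + r) = D.w[r] := by
  rw [wz, (divmod (m := m) hr).2, List.getD_eq_getElem _ _ hr]

theorem htz_g (m : ℤ) {r : ℕ} (hr : r < D.w.length) {e : ℕ}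
    (he : e ≤ (blk D.x D.y D.w[r]).length) :
    D.htz (D.Gz (m * D.w.length + r) + e)
      = D.sg * D.tz (m * D.w.length + r) + psi D.F ((blk D.x D.y D.w[r]).take e) := by
  have h1 : (mor D.x D.y (D.w.take r)).length + e ≤ D.N := by
    have := congrArg List.length (mor_split D.x D.y D.w hr)
    rw [List.length_append, List.length_append] at this
    show _ ≤ (mor D.x D.y D.w).length
    omega
  rw [D.Gz_spec m hr.le, D.tz_spec m hr.le]
  have h2 := D.htz_spec m h1
  rw [show m * (D.N : ℤ) + D.G0 r + e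
    = m * D.N + (((mor D.x D.y (D.w.take r)).length + e : ℕ) : ℤ) by
      unfold G0; push_cast; ring, h2, D.ht_g hr he]

theorem htz_h (m : ℤ) {r : ℕ} (hr : r < D.w.length) {e : ℕ}
    (he : e ≤ (blk D.u D.v D.w[r]).length) :
    D.htz (D.Hz (m * D.w.length + r) + e)
      = D.sh * D.tz (m * D.w.length + r) + psi D.F ((blk D.u D.v D.w[r]).take e) := by
  have h1 : (mor D.u D.v (D.w.take r)).length + e ≤ D.N := by
    have := congrArg List.length (mor_split D.u D.v D.w hr)
    rw [List.length_append, List.length_append] at this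
    show _ ≤ (mor D.x D.y D.w).length
    rw [D.sol]
    omega
  rw [D.Hz_spec m hr.le, D.tz_spec m hr.le]
  have h2 := D.htz_spec m h1
  rw [show m * (D.N : ℤ) + D.H0 r + e
    = m * D.N + (((mor D.u D.v (D.w.take r)).length + e : ℕ) : ℤ) by
      unfold H0; push_cast; ring, h2, D.ht_h hr he]

/-- general uniqueness for positive levels -/
theorem uni_pos {i j : ℤ} (hij : D.tz i = D.tz j) (hpos : 0 < D.tz i)
    (hc : ∀ e : ℤ, 0 ≤ e → e < D.d * D.tz i →
      (D.wz i = D.wz j ∧ e < ((blk D.u D.v (D.wz i)).length : ℤ)) ∨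
      (D.wz (i - 1) = D.wz (j - 1) ∧
        D.d * D.tz i ≤ e + ((blk D.x D.y (D.wz (i - 1))).length : ℤ))) :
    (D.w.length : ℤ) ∣ i - j := by
  obtain ⟨m, r, hr, rfl⟩ := decomp D.len_pos i
  obtain ⟨m', r', hr', rfl⟩ := decomp D.len_pos j
  rw [D.tz_spec m hr.le] at hij hpos hc
  rw [D.tz_spec m' hr'.le] at hij
  rcases Nat.exists_eq_succ_of_ne_zero (n := r)
    (fun h => by rw [h, D.t0_zero] at hpos; omega) with ⟨s, rfl⟩
  rcases Nat.exists_eq_succ_of_ne_zero (n := r')
    (fun h => by rw [hij, h, D.t0_zero] at hpos; omega) with ⟨s', rfl⟩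
  rw [Nat.succ_eq_add_one] at *
  rw [show m * (D.w.length : ℤ) + ((s + 1 : ℕ) : ℤ) - 1 = m * D.w.length + (s : ℕ) by
    push_cast; ring, show m' * (D.w.length : ℤ) + ((s' + 1 : ℕ) : ℤ) - 1
      = m' * D.w.length + (s' : ℕ) by push_cast; ring, D.wz_spec m hr, D.wz_spec m' hr',
      D.wz_spec m (by omega), D.wz_spec m' (by omega)] at hc
  have g1 := D.GH0 (s + 1)
  have g2 := D.GH0 (s' + 1)
  have hdt : 0 < D.d * D.t0 (s + 1) := mul_pos (by exact_mod_cast D.hd) hpos
  have hL : (((D.d * D.t0 (s + 1)).toNat : ℕ) : ℤ) = D.d * D.t0 (s + 1) :=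
    Int.toNat_of_nonneg hdt.le
  unfold G0 H0 at g1 g2
  rw [← hij] at g2
  have hss : s = s' := by
    refine uniq_ne D.x D.y D.u D.v D.w D.sol D.min hr hr'
      (ℓ := (D.d * D.t0 (s + 1)).toNat) (by omega) (by omega) ?_
    intro e he
    rcases hc e (by omega) (by omega) with ⟨h1, h2⟩ | ⟨h1, h2⟩
    · exact Or.inl ⟨h1, by exact_mod_cast h2⟩
    · exact Or.inr ⟨h1, by omega⟩
  subst hss
  exact ⟨m - m', by ring⟩

/-- general uniqueness for negative levels -/
theorem uni_neg {i j : ℤ} (hij : D.tz i = D.tz j) (hneg : D.tz i < 0)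
    (hc : ∀ e : ℤ, 0 ≤ e → e < D.d * (- D.tz i) →
      (D.wz i = D.wz j ∧ e < ((blk D.x D.y (D.wz i)).length : ℤ)) ∨
      (D.wz (i - 1) = D.wz (j - 1) ∧
        D.d * (- D.tz i) ≤ e + ((blk D.u D.v (D.wz (i - 1))).length : ℤ))) :
    (D.w.length : ℤ) ∣ i - j := by
  obtain ⟨m, r, hr, rfl⟩ := decomp D.len_pos i
  obtain ⟨m', r', hr', rfl⟩ := decomp D.len_pos j
  rw [D.tz_spec m hr.le] at hij hneg hc
  rw [D.tz_spec m' hr'.le] at hij
  rcases Nat.exists_eq_succ_of_ne_zero (n := r)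
    (fun h => by rw [h, D.t0_zero] at hneg; omega) with ⟨s, rfl⟩
  rcases Nat.exists_eq_succ_of_ne_zero (n := r')
    (fun h => by rw [hij, h, D.t0_zero] at hneg; omega) with ⟨s', rfl⟩
  rw [Nat.succ_eq_add_one] at *
  rw [show m * (D.w.length : ℤ) + ((s + 1 : ℕ) : ℤ) - 1 = m * D.w.length + (s : ℕ) by
    push_cast; ring, show m' * (D.w.length : ℤ) + ((s' + 1 : ℕ) : ℤ) - 1
      = m' * D.w.length + (s' : ℕ) by push_cast; ring, D.wz_spec m hr, D.wz_spec m' hr',
      D.wz_spec m (by omega), D.wz_spec m' (by omega)] at hc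
  have g1 := D.GH0 (s + 1)
  have g2 := D.GH0 (s' + 1)
  have hdt : 0 < D.d * (- D.t0 (s + 1)) := mul_pos (by exact_mod_cast D.hd) (by omega)
  have hL : (((D.d * (- D.t0 (s + 1))).toNat : ℕ) : ℤ) = D.d * (- D.t0 (s + 1)) :=
    Int.toNat_of_nonneg hdt.le
  unfold G0 H0 at g1 g2
  rw [← hij] at g2
  have hneg' : D.d * (- D.t0 (s + 1)) = - (D.d * D.t0 (s + 1)) := by ring
  have hss : s = s' := by
    refine uniq_ne D.u D.v D.x D.y D.w D.sol.symm (fun w' h1 h2 => D.min w' h1 h2.symm) hr hr'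
      (ℓ := (D.d * (- D.t0 (s + 1))).toNat) (by omega) (by omega) ?_
    intro e he
    rcases hc e (by omega) (by omega) with ⟨h1, h2⟩ | ⟨h1, h2⟩
    · exact Or.inl ⟨h1, by exact_mod_cast h2⟩
    · exact Or.inr ⟨h1, by omega⟩
  subst hss
  exact ⟨m - m', by ring⟩

end Dat

end PCPHard
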