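import Pool.Agent.PCPHard.Two

namespace PCPHard

namespace TP

variable (T : TP)

/-- a time near a top of `G` and near a bottom of `H` -/
theorem A1 (hk : 2 ≤ T.k) {i j P : ℤ} (hi : ∀ l, T.t l ≤ T.t i) (hj : ∀ l, T.t j ≤ T.t l)
    (h1 : T.G (i - 1) < P) (h2 : P < T.G (i + 1)) (h3 : T.H (j - 1) < P) (h4 : P < T.H (j + 1)) :
    (i < j ∧ T.q < T.t i ∧ - T.q < T.t j) ∨ (j < i ∧ T.t i < T.p ∧ T.t j < - T.p) := by
  have hsp := T.span_ge hk hi hj
  have hp := T.hp
  have hq := T.hq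
  have a1 := T.ta (i - 1) (T.top_prev hi)
  have a2 := T.tb i (T.top_next hi)
  have a3 := T.tb (j - 1) (T.bot_prev hj)
  have a4 := T.ta j (T.bot_next hj)
  rw [sub_add_cancel] at a1 a3
  rcases lt_trichotomy i j with h | h | h
  · left
    have hne : i + 1 ≠ j := by
      intro e; rw [← e] at hsp; omega
    have b1 : T.H (i + 1) < T.G (i + 1) := by
      have := T.H_mono (i := i + 1) (j := j - 1) (by omega)
      omega
    have b2 : T.H (j - 1) < T.G (j - 1) := by
      have := T.G_mono (i := i + 1) (j := j - 1) (by omega)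
      omega
    have c1 := T.t_gt_of b1
    have c2 := T.t_gt_of b2
    refine ⟨h, by omega, by omega⟩
  · rw [h] at hsp; omega
  · right
    have hne : j + 1 ≠ i := by
      intro e; rw [← e] at hsp; omega
    have b1 : T.G (j + 1) < T.H (j + 1) := by
      have := T.G_mono (i := j + 1) (j := i - 1) (by omega)
      omega
    have b2 : T.G (i - 1) < T.H (i - 1) := by
      have := T.H_mono (i := j + 1) (j := i - 1) (by omega)
      omega
    have c1 := T.t_lt_of b1
    have c2 := T.t_lt_of b2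
    refine ⟨h, by omega, by omega⟩

/-- a time near a bottom of `G` and near a top of `H` -/
theorem A2 (hk : 2 ≤ T.k) {i j P : ℤ} (hi : ∀ l, T.t l ≤ T.t i) (hj : ∀ l, T.t j ≤ T.t l)
    (h1 : T.G (j - 1) < P) (h2 : P < T.G (j + 1)) (h3 : T.H (i - 1) < P) (h4 : P < T.H (i + 1)) :
    (i < j ∧ T.t i < T.q ∧ T.t j < - T.q) ∨ (j < i ∧ T.p < T.t i ∧ - T.p < T.t j) := by
  have hsp := T.span_ge hk hi hj
  have hp := T.hp
  have hq := T.hq
  have a1 := T.ta (i - 1) (T.top_prev hi)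
  have a2 := T.tb i (T.top_next hi)
  have a3 := T.tb (j - 1) (T.bot_prev hj)
  have a4 := T.ta j (T.bot_next hj)
  rw [sub_add_cancel] at a1 a3
  rcases lt_trichotomy i j with h | h | h
  · left
    have hne : i + 1 ≠ j := by
      intro e; rw [← e] at hsp; omega
    have b1 : T.G (i + 1) < T.H (i + 1) := by
      have := T.G_mono (i := i + 1) (j := j - 1) (by omega)
      omega
    have b2 : T.G (j - 1) < T.H (j - 1) := by
      have := T.H_mono (i := i + 1) (j := j - 1) (by omega)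
      omega
    have c1 := T.t_lt_of b1
    have c2 := T.t_lt_of b2
    refine ⟨h, by omega, by omega⟩
  · rw [h] at hsp; omega
  · right
    have hne : j + 1 ≠ i := by
      intro e; rw [← e] at hsp; omega
    have b1 : T.H (j + 1) < T.G (j + 1) := by
      have := T.H_mono (i := j + 1) (j := i - 1) (by omega)
      omega
    have b2 : T.H (i - 1) < T.G (i - 1) := by
      have := T.G_mono (i := j + 1) (j := i - 1) (by omega)
      omega
    have c1 := T.t_gt_of b1
    have c2 := T.t_gt_of b2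
    refine ⟨h, by omega, by omega⟩

/-- Case A, first configuration -/
theorem caseA_one {i j j' P P' : ℤ} (hi : ∀ l, T.t l ≤ T.t i)
    (hj : ∀ l, T.t j ≤ T.t l) (hj' : ∀ l, T.t j' ≤ T.t l) (hj'i : j' < i) (hij : i < j)
    (hp : - T.p < T.t j)
    (h2 : P < T.G (i + 1)) (h3 : T.H (j - 1) < P)
    (h3' : T.H (i - 1) < P') (h2' : P' < T.G (j' + 1)) :
    T.n ≤ T.x + T.v - 2 := by
  have hd := T.hd
  have e : T.t j = T.t j' := le_antisymm (hj j') (hj' j)
  have hdvd : T.n ∣ j - j' := by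
    rcases (T.bot_nonpos hj).lt_or_eq with h | h
    · refine T.U3 j j' (T.bot_next hj) (T.bot_next hj') e h ?_
      have := T.hxu; have := T.hu
      have : T.d * (- T.t j) ≤ T.d * T.p := mul_le_mul_of_nonneg_left (by omega) hd.le
      omega
    · exact dvd_sub ((T.t0 j).1 h) ((T.t0 j').1 (e ▸ h))
  have hle := Int.le_of_dvd (by omega) hdvd
  have g1 := T.Ga j' (T.bot_next hj')
  have g2 := T.Hb (j - 1) (T.bot_prev hj)
  rw [sub_add_cancel] at g2
  have g3 := T.GH j
  have g4 := T.GH j'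
  have g5 : T.d * T.t j ≤ 0 := mul_nonpos_of_nonneg_of_nonpos hd.le (T.bot_nonpos hj)
  have g6 : T.d * T.t j' ≤ 0 := mul_nonpos_of_nonneg_of_nonpos hd.le (T.bot_nonpos hj')
  have m1 := T.H_mono (i := j') (j := i - 1) (by omega)
  have m2 := T.G_mono (i := i + 1) (j := j) (by omega)
  omega

/-- Case A, second configuration -/
theorem caseA_two {j i i' P P' : ℤ} (hj : ∀ l, T.t j ≤ T.t l)
    (hi : ∀ l, T.t l ≤ T.t i) (hi' : ∀ l, T.t l ≤ T.t i') (h1 : i' < j) (h2 : j < i)
    (hq : T.t i < T.q)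
    (h3 : T.G (i - 1) < P) (h4 : P < T.H (j + 1))
    (h5 : T.G (j - 1) < P') (h6 : P' < T.H (i' + 1)) :
    T.n ≤ T.x + T.v - 2 := by
  have hd := T.hd
  have e : T.t i = T.t i' := le_antisymm (hi' i) (hi i')
  have hdvd : T.n ∣ i - i' := by
    rcases (T.top_nonneg hi).lt_or_eq with h | h
    · refine T.V3 i i' (T.top_next hi) (T.top_next hi') e h ?_
      have := T.hvy; have := T.hy
      have : T.d * (T.t i) ≤ T.d * T.q := mul_le_mul_of_nonneg_left (by omega) hd.le
      omega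
    · exact dvd_sub ((T.t0 i).1 h.symm) ((T.t0 i').1 (e ▸ h.symm))
  have hle := Int.le_of_dvd (by omega) hdvd
  have g1 := T.Hb i' (T.top_next hi')
  have g2 := T.Ga (i - 1) (T.top_prev hi)
  rw [sub_add_cancel] at g2
  have g3 := T.GH i
  have g4 := T.GH i'
  have g5 : 0 ≤ T.d * T.t i := mul_nonneg hd.le (T.top_nonneg hi)
  have g6 : 0 ≤ T.d * T.t i' := mul_nonneg hd.le (T.top_nonneg hi')
  have m1 := T.G_mono (i := i') (j := j - 1) (by omega)
  have m2 := T.H_mono (i := j + 1) (j := i) (by omega)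
  omega

theorem caseA (hk : 2 ≤ T.k) (hg : 0 < T.sg) (hh : T.sh < 0) : T.n ≤ T.x + T.v - 2 := by
  obtain ⟨i, hi⟩ := T.exTop
  obtain ⟨j, hj⟩ := T.exBot
  have hh' : 0 < T.neg.sh := by simp only [neg]; omega
  -- top `i`: max-time near `G i`, min-time near `H i`
  obtain ⟨P, hP, hP1, hP2⟩ := (T.SG hg).top_has (i := i) hi
  obtain ⟨j1, hj1, hP3, hP4⟩ := (T.neg.SH hh').near_bot (P := P) (fun Q => neg_le_neg (hP Q))
  obtain ⟨P', hP', hP1', hP2'⟩ := (T.neg.SH hh').top_has (i := i) hi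
  obtain ⟨j2, hj2, hP3', hP4'⟩ := (T.SG hg).near_bot (P := P')
    (fun Q => neg_le_neg_iff.mp (hP' Q))
  have r1 := T.A1 hk hi hj1 hP1 hP2 hP3 hP4
  have r2 := T.A2 hk hi hj2 hP3' hP4' hP1' hP2'
  have e12 : T.t j1 = T.t j2 := le_antisymm (hj1 j2) (hj2 j1)
  rcases r1 with ⟨a1, a2, a3⟩ | ⟨a1, a2, a3⟩
  · rcases r2 with ⟨b1, b2, b3⟩ | ⟨b1, b2, b3⟩
    · omega
    · exact T.caseA_one hi hj1 hj2 b1 a1 (by omega) hP2 hP3 hP1' hP4'
  · rcases r2 with ⟨b1, b2, b3⟩ | ⟨b1, b2, b3⟩
    · -- second configuration: use the bottom `j`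
      obtain ⟨R, hR, hR1, hR2⟩ := (T.neg.SH hh').bot_has (i := j) hj
      obtain ⟨i1, hi1, hR3, hR4⟩ := (T.SG hg).near_top (P := R)
        (fun Q => neg_le_neg_iff.mp (hR Q))
      obtain ⟨R', hR', hR1', hR2'⟩ := (T.SG hg).bot_has (i := j) hj
      obtain ⟨i2, hi2, hR3', hR4'⟩ := (T.neg.SH hh').near_top (P := R')
        (fun Q => neg_le_neg (hR' Q))
      have s1 := T.A1 hk hi1 hj hR3 hR4 hR1 hR2
      have s2 := T.A2 hk hi2 hj hR1' hR2' hR3' hR4'
      have e1 : T.t i = T.t i1 := le_antisymm (hi1 i) (hi i1)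
      have e2 : T.t i = T.t i2 := le_antisymm (hi2 i) (hi i2)
      have e3 : T.t j = T.t j1 := le_antisymm (hj j1) (hj1 j)
      have c1 : j < i1 := by
        rcases s1 with h | h
        · omega
        · exact h.1
      have c2 : i2 < j := by
        rcases s2 with h | h
        · exact h.1
        · omega
      exact T.caseA_two hj hi1 hi2 c2 c1 (by omega) hR3 hR2 hR1' hR4'
    · omega

end TP

end PCPHard
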