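import Pool.Agent.PCPHard.CaseC

namespace PCPHard

namespace TP

variable (T : TP)

/-- last maximal-height time in `[0, N]` -/
theorem last_max (hg : 0 < T.sg) (hh : 0 < T.sh) {i0 : ℤ} (hi0 : ∀ l, T.t l ≤ T.t i0)
    (hpos : 0 < T.t i0) :
    ∃ i P, (∀ l, T.t l ≤ T.t i) ∧ 0 < i ∧ i < T.n ∧ T.G (i - 1) < P ∧ P < T.G (i + 1) ∧
      T.H (i - 1) < P ∧ P < T.H (i + 1) ∧ (∀ Q, T.ht Q ≤ T.ht P) ∧
      ∀ Q, P < Q → Q ≤ T.N → ¬ ∀ R, T.ht R ≤ T.ht Q := by
  have hN := T.N_pos
  have hn := T.n_pos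
  obtain ⟨P0, hP0⟩ := T.exMax
  have hmod := per_mul T.htper (P0 % T.N) (P0 / T.N)
  rw [show P0 % T.N + P0 / T.N * T.N = P0 by
    rw [mul_comm]; exact Int.emod_add_mul_ediv P0 T.N] at hmod
  have hb1 := Int.emod_nonneg P0 hN.ne'
  have hb2 := Int.emod_lt_of_pos P0 hN
  obtain ⟨P, ⟨h1, h2⟩, h3⟩ := Int.exists_greatest_of_bdd
    (P := fun z => z ≤ T.N ∧ ∀ Q, T.ht Q ≤ T.ht z) ⟨T.N, fun z hz => hz.1⟩
    ⟨P0 % T.N, hb2.le, fun Q => by rw [← hmod]; exact hP0 Q⟩
  have h4 := h3 (P0 % T.N) ⟨hb2.le, fun Q => by rw [← hmod]; exact hP0 Q⟩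
  have h5 := h2 (T.G i0)
  rw [T.htG] at h5
  have h6 : 0 < T.sg * T.t i0 := mul_pos hg hpos
  have hht0 : T.ht 0 = 0 := by
    have := T.htG 0
    rw [T.G0, T.t_zero, mul_zero] at this; exact this
  have hhtN : T.ht T.N = 0 := by
    have := T.htper 0
    rw [zero_add, hht0] at this; exact this
  have hP0' : 0 < P := by
    rcases (show 0 ≤ P by omega).lt_or_eq with h | h
    · exact h
    · rw [← h, hht0] at h5; omega
  have hPN : P < T.N := by
    rcases h1.lt_or_eq with h | h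
    · exact h
    · rw [h, hhtN] at h5; omega
  have htn : T.t T.n = 0 := by
    have := T.t_per 0; rwa [zero_add, T.t_zero] at this
  -- near `G`
  obtain ⟨i, hi, a1, a2⟩ := (T.SG hg).near_top h2
  replace hi : ∀ j, T.t j ≤ T.t i := hi
  replace a1 : T.G (i - 1) < P := a1
  replace a2 : P < T.G (i + 1) := a2
  have hti : 0 < T.t i := lt_of_lt_of_le hpos (hi i0)
  have a3 : T.G 0 < T.G (i + 1) := by rw [T.G0]; omega
  have a4 : T.G (i - 1) < T.G T.n := by rw [T.N_eq]; omega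
  rw [T.G_lt_iff] at a3 a4
  have a5 : i ≠ 0 := fun h => by rw [h, T.t_zero] at hti; omega
  have a6 : i ≠ T.n := fun h => by rw [h, htn] at hti; omega
  -- near `H`
  obtain ⟨i', hi', b1, b2⟩ := (T.SH hh).near_top h2
  replace hi' : ∀ j, T.t j ≤ T.t i' := hi'
  replace b1 : T.H (i' - 1) < P := b1
  replace b2 : P < T.H (i' + 1) := b2
  have hti' : 0 < T.t i' := lt_of_lt_of_le hpos (hi' i0)
  have b3 : T.H 0 < T.H (i' + 1) := by rw [T.H0]; omega
  have b4 : T.H (i' - 1) < T.H T.n := by rw [T.N_eqH]; omega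
  rw [T.H_lt_iff] at b3 b4
  have b5 : i' ≠ 0 := fun h => by rw [h, T.t_zero] at hti'; omega
  have b6 : i' ≠ T.n := fun h => by rw [h, htn] at hti'; omega
  have htt : T.t i = T.t i' := le_antisymm (hi' i) (hi i')
  have hii : i = i' := by
    rcases lt_trichotomy i i' with h | h | h
    · exfalso
      obtain ⟨c1, c2, c3⟩ := (T.SG hg).shift_ht (i := i) (j := i')
        (show T.w (i - 1) = T.w (i' - 1) by rw [T.top_prev hi, T.top_prev hi'])
        (show T.w i = T.w i' by rw [T.top_next hi, T.top_next hi']) (P := P) a1.le a2.le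
      replace c1 : T.ht (P - T.G i + T.G i') = T.ht P + T.sg * (T.t i' - T.t i) := c1
      replace c3 : T.G (i + 1) - P = T.G (i' + 1) - (P - T.G i + T.G i') := c3
      rw [htt, sub_self, mul_zero, add_zero] at c1
      have c4 := T.G_mono (i := i' + 1) (j := T.n) (by omega)
      rw [T.N_eq] at c4
      have c5 := T.G_mono h.le
      have := h3 (P - T.G i + T.G i') ⟨by omega, fun Q => by rw [c1]; exact h2 Q⟩
      omega
    · exact h
    · exfalso
      obtain ⟨c1, c2, c3⟩ := (T.SH hh).shift_ht (i := i') (j := i)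
        (show T.w (i' - 1) = T.w (i - 1) by rw [T.top_prev hi, T.top_prev hi'])
        (show T.w i' = T.w i by rw [T.top_next hi, T.top_next hi']) (P := P) b1.le b2.le
      replace c1 : T.ht (P - T.H i' + T.H i) = T.ht P + T.sh * (T.t i - T.t i') := c1
      replace c3 : T.H (i' + 1) - P = T.H (i + 1) - (P - T.H i' + T.H i) := c3
      rw [htt, sub_self, mul_zero, add_zero] at c1
      have c4 := T.H_mono (i := i + 1) (j := T.n) (by omega)
      rw [T.N_eqH] at c4
      have c5 := T.H_mono h.le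
      have := h3 (P - T.H i' + T.H i) ⟨by omega, fun Q => by rw [c1]; exact h2 Q⟩
      omega
  subst hii
  refine ⟨i, P, hi, by omega, by omega, a1, a2, b1, b2, h2, fun Q hQ hQN hcon => ?_⟩
  have := h3 Q ⟨hQN, hcon⟩
  omega

theorem top_le (hg : 0 < T.sg) (hh : 0 < T.sh) {i0 : ℤ} (hi0 : ∀ l, T.t l ≤ T.t i0)
    (hpos : 0 < T.t i0) : T.d * T.t i0 ≤ T.x + T.v - 2 := by
  obtain ⟨i, P, hi, h1, h2, a1, a2, b1, b2, -, -⟩ := T.last_max hg hh hi0 hpos
  have htt : T.t i = T.t i0 := le_antisymm (hi0 i) (hi i0)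
  rw [← htt, ← T.GH i]
  have e1 := T.Ga (i - 1) (T.top_prev hi)
  have e2 := T.Hb i (T.top_next hi)
  rw [sub_add_cancel] at e1
  omega

/-- the key lemma about lower peaks, when `sh ≤ sg`, for `0 < i < n` -/
theorem low_peak (hg : 0 < T.sg) (hh : 0 < T.sh) (hs : T.sh ≤ T.sg) {i0 : ℤ}
    (hi0 : ∀ l, T.t l ≤ T.t i0) {i : ℤ} (hi1 : 0 < i) (hi2 : i < T.n) (hw1 : T.w (i - 1) = true)
    (hw2 : T.w i = false) (hpos : 0 < T.t i) (hlt : T.t i < T.t i0) :
    T.t (i + 1) < 0 ∧ T.t i < T.p := by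
  obtain ⟨m, P, hm, h1, h2, a1, a2, b1, b2, hP, hlast⟩ := T.last_max hg hh hi0 (hpos.trans hlt)
  have hd := T.hd
  have htt : T.t m = T.t i0 := le_antisymm (hi0 m) (hm i0)
  rw [← htt] at hlt
  obtain ⟨c1, c2, c3⟩ := (T.SH hh).shift_ht (i := m) (j := i)
    (show T.w (m - 1) = T.w (i - 1) by rw [T.top_prev hm, hw1])
    (show T.w m = T.w i by rw [T.top_next hm, hw2]) (P := P) b1.le b2.le
  replace c1 : T.ht (P - T.H m + T.H i) = T.ht P + T.sh * (T.t i - T.t m) := c1
  replace c2 : T.H (m - 1) - P = T.H (i - 1) - (P - T.H m + T.H i) := c2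
  replace c3 : T.H (m + 1) - P = T.H (i + 1) - (P - T.H m + T.H i) := c3
  set R := P - T.H m + T.H i with hR
  have g1 := T.GH i
  have g2 := T.GH m
  have g3 : 0 < T.d * (T.t m - T.t i) := mul_pos hd (by omega)
  have g4 : R - T.G i = P - T.G m + T.d * (T.t m - T.t i) := by
    rw [mul_sub]; omega
  have e1 := T.Ga (i - 1) hw1
  have e2 := T.Ga (m - 1) (T.top_prev hm)
  have e3 := T.Gb i hw2
  have e4 := T.Gb m (T.top_next hm)
  rw [sub_add_cancel] at e1 e2
  have hdiff : 0 ≤ (T.sg - T.sh) * (T.t m - T.t i) := mul_nonneg (by omega) (by omega)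
  have hRG : T.G (i + 1) < R := by
    by_contra hc
    obtain ⟨f1, f2, f3⟩ := (T.SG hg).shift_ht (i := i) (j := m)
      (show T.w (i - 1) = T.w (m - 1) by rw [T.top_prev hm, hw1])
      (show T.w i = T.w m by rw [T.top_next hm, hw2]) (P := R)
      (show T.G (i - 1) ≤ R by omega) (not_lt.mp hc)
    replace f1 : T.ht (R - T.G i + T.G m) = T.ht R + T.sg * (T.t m - T.t i) := f1
    replace f3 : T.G (i + 1) - R = T.G (m + 1) - (R - T.G i + T.G m) := f3
    have f4 := T.G_mono (i := m + 1) (j := T.n) (by omega)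
    rw [T.N_eq] at f4
    refine hlast (R - T.G i + T.G m) (by omega) (by omega) (fun Q => ?_)
    have := hP Q
    rw [f1, c1]
    linarith
  have hRH : R < T.H (i + 1) := by omega
  have hneg : T.t (i + 1) < 0 := T.t_lt_of (hRG.trans hRH)
  refine ⟨hneg, ?_⟩
  obtain ⟨l, k1, k2⟩ := T.locG R
  have k3 : T.G (i + 1) < T.G (l + 1) := by omega
  rw [T.G_lt_iff] at k3
  have k4 := T.H_mono (i := i + 1) (j := l) (by omega)
  have k5 : T.t l < 0 := T.t_lt_of (by omega)
  cases hw : T.w l with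
  | true =>
    have hc := T.cG l (m - 1) (by rw [hw, T.top_prev hm]) (R - T.G l) (by omega) (by omega)
    rw [show T.G l + (R - T.G l) = R by ring, c1] at hc
    have hmx := hP (T.G (m - 1) + (R - T.G l))
    rw [hc] at hmx
    have e5 := T.ta (m - 1) (T.top_prev hm)
    rw [sub_add_cancel] at e5
    by_contra hcon
    have : 0 < T.sg * ((T.t (m - 1) - T.t l) - (T.t m - T.t i)) := mul_pos hg (by omega)
    linarith
  | false =>
    have hc := T.cG l m (by rw [hw, T.top_next hm]) (R - T.G l) (by omega) (by omega)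
    rw [show T.G l + (R - T.G l) = R by ring, c1] at hc
    have hmx := hP (T.G m + (R - T.G l))
    rw [hc] at hmx
    by_contra hcon
    have hp := T.hp
    have : 0 < T.sg * ((T.t m - T.t l) - (T.t m - T.t i)) := mul_pos hg (by omega)
    linarith

theorem w_per' (i m : ℤ) : T.w (i + m * T.n) = T.w i := by
  have hnat : ∀ (m : ℕ) (i : ℤ), T.w (i + m * T.n) = T.w i := by
    intro m
    induction m with
    | zero => intro i; simp
    | succ m ih =>
      intro i
      push_cast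
      rw [show i + (m + 1) * T.n = (i + m * T.n) + T.n by ring]
      rw [show T.w (i + m * T.n + T.n) = T.w (i + m * T.n) from T.wper _, ih]
  rcases Int.eq_nat_or_neg m with ⟨m', rfl | rfl⟩
  · exact hnat m' i
  · have := hnat m' (i + (-(m' : ℤ)) * T.n)
    rw [show i + (-(m' : ℤ)) * T.n + m' * T.n = i by ring] at this
    exact this.symm

/-- lower peaks, `sh ≤ sg`, any index -/
theorem low_peak' (hg : 0 < T.sg) (hh : 0 < T.sh) (hs : T.sh ≤ T.sg) {i j : ℤ}
    (hw1 : T.w (i - 1) = true) (hw2 : T.w i = false) (hpos : 0 < T.t i) (hlt : T.t i < T.t j) :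
    T.t i < T.p ∧ T.t i < T.q ∧ (T.t (i + 1) < 0 ∨ T.t (i - 1) < 0) := by
  obtain ⟨i0, hi0⟩ := T.exTop
  have hn := T.n_pos
  have e : i = i % T.n + i / T.n * T.n := by
    rw [mul_comm]; exact (Int.emod_add_mul_ediv i T.n).symm
  have h1 := Int.emod_nonneg i hn.ne'
  have h2 := Int.emod_lt_of_pos i hn
  have t1 := T.t_per' (i % T.n) (i / T.n)
  have t2 := T.t_per' (i % T.n + 1) (i / T.n)
  have w1 := T.w_per' (i % T.n) (i / T.n)
  have w2 := T.w_per' (i % T.n - 1) (i / T.n)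
  rw [← e] at t1 w1
  rw [show i % T.n + 1 + i / T.n * T.n = i + 1 by omega] at t2
  rw [show i % T.n - 1 + i / T.n * T.n = i - 1 by omega] at w2
  have h3 : 0 < i % T.n := by
    rcases h1.lt_or_eq with h | h
    · exact h
    · rw [← h, T.t_zero] at t1; omega
  have h4 := T.low_peak hg hh hs hi0 h3 h2 (by rw [← w2, hw1]) (by rw [← w1, hw2])
    (by rw [← t1]; exact hpos) (by rw [← t1]; exact lt_of_lt_of_le hlt (hi0 j))
  rw [← t1, ← t2] at h4
  have h5 := T.tb i hw2
  exact ⟨h4.2, by omega, Or.inl h4.1⟩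

theorem peakK (hg : 0 < T.sg) (hh : 0 < T.sh) {i j : ℤ}
    (hw1 : T.w (i - 1) = true) (hw2 : T.w i = false) (hpos : 0 < T.t i) (hlt : T.t i < T.t j) :
    T.t i < T.p ∧ T.t i < T.q ∧ (T.t (i + 1) < 0 ∨ T.t (i - 1) < 0) := by
  rcases le_total T.sh T.sg with hs | hs
  · exact T.low_peak' hg hh hs hw1 hw2 hpos hlt
  · have key := T.swap.rev.neg.low_peak' (i := - i) (j := - j)
      (show 0 < - - T.sh by omega) (show 0 < - - T.sg by omega)
      (show - - T.sg ≤ - - T.sh by omega)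
      (show (!T.w (- (- i - 1) - 1)) = true by
        rw [show - (- i - 1) - 1 = i by ring, hw2]; rfl)
      (show (!T.w (- - i - 1)) = false by
        rw [show - - i - 1 = i - 1 by ring, hw1]; rfl)
      (show 0 < - - T.t (- - i) by rw [neg_neg, neg_neg]; exact hpos)
      (show - - T.t (- - i) < - - T.t (- - j) by
        rw [neg_neg, neg_neg, neg_neg, neg_neg]; exact hlt)
    obtain ⟨k1, k2, k3⟩ := key
    replace k1 : - - T.t (- - i) < T.q := k1
    replace k2 : - - T.t (- - i) < T.p := k2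
    replace k3 : - - T.t (- (- i + 1)) < 0 ∨ - - T.t (- (- i - 1)) < 0 := k3
    rw [neg_neg, neg_neg] at k1 k2
    rw [neg_neg, neg_neg, show - (- i + 1) = i - 1 by ring,
      show - (- i - 1) = i + 1 by ring] at k3
    exact ⟨k2, k1, k3.symm⟩

theorem valleyK (hg : 0 < T.sg) (hh : 0 < T.sh) {i j : ℤ}
    (hw1 : T.w (i - 1) = false) (hw2 : T.w i = true) (hneg : T.t i < 0) (hlt : T.t j < T.t i) :
    - T.t i < T.p ∧ - T.t i < T.q ∧ (0 < T.t (i + 1) ∨ 0 < T.t (i - 1)) := by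
  have key := T.rev.peakK hg hh (i := - i) (j := - j)
    (show T.w (- (- i - 1) - 1) = true by
        rw [show - (- i - 1) - 1 = i by ring, hw2])
    (show T.w (- - i - 1) = false by
        rw [show - - i - 1 = i - 1 by ring, hw1])
    (show 0 < - T.t (- - i) by rw [neg_neg]; omega)
    (show - T.t (- - i) < - T.t (- - j) by rw [neg_neg, neg_neg]; omega)
  obtain ⟨k1, k2, k3⟩ := key
  replace k1 : - T.t (- - i) < T.p := k1
  replace k2 : - T.t (- - i) < T.q := k2
  replace k3 : - T.t (- (- i + 1)) < 0 ∨ - T.t (- (- i - 1)) < 0 := k3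
  rw [neg_neg] at k1 k2
  rw [show - (- i + 1) = i - 1 by ring, show - (- i - 1) = i + 1 by ring] at k3
  exact ⟨k1, k2, by omega⟩

end TP

end PCPHard
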