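import Pool.Agent.PCPHard.CaseB

namespace PCPHard

theorem sum_le_aux (m : ℕ) : ∀ S : Finset ℤ, (∀ s ∈ S, 1 ≤ s ∧ s ≤ m) →
    2 * ∑ s ∈ S, s ≤ (m : ℤ) * (m + 1) := by
  induction m with
  | zero =>
    intro S h
    have : S = ∅ := by
      rw [Finset.eq_empty_iff_forall_notMem]
      intro s hs
      have := h s hs
      push_cast at this
      omega
    rw [this]; simp
  | succ m ih =>
    intro S h
    have h1 := ih (S.erase ((m : ℤ) + 1)) (by
      intro s hs
      rw [Finset.mem_erase] at hs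
      have := h s hs.2
      push_cast at this
      omega)
    have h2 : ∑ s ∈ S, s ≤ ((m : ℤ) + 1) + ∑ s ∈ S.erase ((m : ℤ) + 1), s := by
      by_cases hm : ((m : ℤ) + 1) ∈ S
      · exact (Finset.add_sum_erase S (fun s => s) hm).symm.le
      · rw [Finset.erase_eq_of_notMem hm]; omega
    push_cast
    nlinarith

theorem sum_bound (S : Finset ℕ) (f : ℕ → ℤ) (M : ℤ) (m : ℕ) (hM : 0 ≤ M)
    (inj : Set.InjOn f S) (h : ∀ i ∈ S, 1 ≤ f i ∧ (f i = M ∨ f i ≤ m)) :
    2 * ∑ i ∈ S, f i ≤ 2 * M + m * (m + 1) := by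
  classical
  have h1 : ∑ i ∈ S, f i = ∑ s ∈ S.image f, s :=
    (Finset.sum_image (f := fun s : ℤ => s) inj).symm
  rw [h1]
  have h2 := sum_le_aux m ((S.image f).erase M) (by
    intro s hs
    rw [Finset.mem_erase, Finset.mem_image] at hs
    obtain ⟨hs1, i, hi, rfl⟩ := hs
    have := h i hi
    refine ⟨this.1, ?_⟩
    rcases this.2 with h | h
    · exact absurd h hs1
    · exact h)
  have h3 : ∑ s ∈ S.image f, s ≤ M + ∑ s ∈ (S.image f).erase M, s := by
    by_cases hm : M ∈ S.image f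
    · exact (Finset.add_sum_erase (S.image f) (fun s => s) hm).symm.le
    · rw [Finset.erase_eq_of_notMem hm]; omega
  linarith

namespace TP

variable (T : TP)

/-- indicator of the letter `a` -/
def ind (i : ℤ) : ℤ := if T.w i = true then 1 else 0

theorem sum_identity :
    ∑ i ∈ Finset.range T.n.toNat, T.t i * (T.ind ((i : ℤ) - 1) - T.ind i) = T.k * T.p * T.q := by
  obtain ⟨B, hB, hB0, hBn, hBa, hBb, -, -⟩ := T.exB
  have hn := T.n_pos
  have hcast : ((T.n.toNat : ℕ) : ℤ) = T.n := Int.toNat_of_nonneg hn.le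
  have h1 := Finset.sum_range_sub (fun i : ℕ => T.t i * T.ind ((i : ℤ) - 1)) T.n.toNat
  have h2 := Finset.sum_range_sub (fun i : ℕ => (i : ℤ) - B i) T.n.toNat
  have htn : T.t T.n = 0 := by
    have := T.t_per 0; rwa [zero_add, T.t_zero] at this
  simp only [hcast, htn, Nat.cast_zero, T.t_zero, zero_mul, sub_zero] at h1
  simp only [hcast, hBn, Nat.cast_zero, hB0, sub_zero] at h2
  have h3 : ∀ i : ℕ, T.t i * (T.ind ((i : ℤ) - 1) - T.ind i)
      = T.p * ((((i + 1 : ℕ) : ℤ) - B ((i + 1 : ℕ) : ℤ)) - ((i : ℤ) - B i))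
        - (T.t ((i + 1 : ℕ) : ℤ) * T.ind (((i + 1 : ℕ) : ℤ) - 1) - T.t i * T.ind ((i : ℤ) - 1)) := by
    intro i
    push_cast
    rw [add_sub_cancel_right]
    cases hw : T.w i with
    | true =>
      rw [hBa i hw, T.ta i hw]
      simp only [ind, hw, if_true]
      ring
    | false =>
      rw [hBb i hw]
      simp only [ind, hw, Bool.false_eq_true, if_false]
      ring
  rw [Finset.sum_congr rfl (fun i _ => h3 i), Finset.sum_sub_distrib, ← Finset.mul_sum, h1, h2]
  show T.p * (T.k * (T.p + T.q) - T.k * T.p) - 0 = _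
  ring

theorem count (hg : 0 < T.sg) (hh : 0 < T.sh) {i0 j0 : ℤ} (hi0 : ∀ l, T.t l ≤ T.t i0)
    (hj0 : ∀ l, T.t j0 ≤ T.t l) (hpos : 0 < T.t i0) (m m' : ℕ)
    (hm : ∀ i, T.w (i - 1) = true → T.w i = false → 0 < T.t i → T.t i < T.t i0 → T.t i ≤ m)
    (hm' : ∀ i, T.w (i - 1) = false → T.w i = true → T.t i < 0 → T.t j0 < T.t i → - T.t i ≤ m') :
    2 * (T.k * T.p * T.q) ≤ 2 * T.t i0 + m * (m + 1) + (2 * (- T.t j0) + m' * (m' + 1)) := by
  classical
  have hn := T.n_pos
  have hd := T.hd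
  have hcast : ((T.n.toNat : ℕ) : ℤ) = T.n := Int.toNat_of_nonneg hn.le
  set PK := (Finset.range T.n.toNat).filter
    (fun i : ℕ => T.w ((i : ℤ) - 1) = true ∧ T.w i = false ∧ 0 < T.t i) with hPK
  set VK := (Finset.range T.n.toNat).filter
    (fun i : ℕ => T.w ((i : ℤ) - 1) = false ∧ T.w i = true ∧ T.t i < 0) with hVK
  have huniq : ∀ i j : ℕ, i < T.n.toNat → j < T.n.toNat → T.n ∣ (i : ℤ) - j → i = j := by
    intro i j h1 h2 h3
    have := Int.eq_zero_of_abs_lt_dvd h3 (by rw [abs_lt]; omega)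
    omega
  have h1 : 2 * ∑ i ∈ PK, T.t i ≤ 2 * T.t i0 + m * (m + 1) := by
    refine sum_bound PK (fun i => T.t i) (T.t i0) m hpos.le ?_ ?_
    · intro i hi j hj hij
      rw [Finset.mem_coe, hPK, Finset.mem_filter, Finset.mem_range] at hi hj
      refine huniq i j hi.1 hj.1 (T.U1 i j hi.2.1 hi.2.2.1 hj.2.1 hj.2.2.1 hij hi.2.2.2 ?_)
      have := T.top_le hg hh hi0 hpos
      have : T.d * T.t i ≤ T.d * T.t i0 := mul_le_mul_of_nonneg_left (hi0 i) hd.le
      omega
    · intro i hi
      rw [hPK, Finset.mem_filter, Finset.mem_range] at hi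
      refine ⟨by have := hi.2.2.2; omega, ?_⟩
      rcases (hi0 i).lt_or_eq with h | h
      · exact Or.inr (hm i hi.2.1 hi.2.2.1 hi.2.2.2 h)
      · exact Or.inl h
  have h2 : 2 * ∑ i ∈ VK, (- T.t i) ≤ 2 * (- T.t j0) + m' * (m' + 1) := by
    refine sum_bound VK (fun i => - T.t i) (- T.t j0) m' (by have := T.bot_nonpos hj0; omega) ?_ ?_
    · intro i hi j hj hij
      rw [Finset.mem_coe, hVK, Finset.mem_filter, Finset.mem_range] at hi hj
      have hij' : T.t i = T.t j := neg_injective hij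
      refine huniq i j hi.1 hj.1 (T.U2 i j hi.2.1 hi.2.2.1 hj.2.1 hj.2.2.1 hij' hi.2.2.2 ?_)
      have hneg : T.t j0 < 0 := lt_of_le_of_lt (hj0 i) hi.2.2.2
      have key := T.rev.top_le (i0 := - j0) hg hh
        (fun l => show - T.t (- l) ≤ - T.t (- - j0) by
          rw [neg_neg]; exact neg_le_neg (hj0 _))
        (show 0 < - T.t (- - j0) by rw [neg_neg]; omega)
      replace key : T.d * - T.t (- - j0) ≤ T.x + T.v - 2 := key
      rw [neg_neg] at key
      have : T.d * (- T.t i) ≤ T.d * (- T.t j0) :=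
        mul_le_mul_of_nonneg_left (neg_le_neg (hj0 i)) hd.le
      omega
    · intro i hi
      rw [hVK, Finset.mem_filter, Finset.mem_range] at hi
      refine ⟨by have := hi.2.2.2; omega, ?_⟩
      rcases (hj0 i).lt_or_eq with h | h
      · exact Or.inr (hm' i hi.2.1 hi.2.2.1 hi.2.2.2 h)
      · exact Or.inl (by rw [h])
  have h3 : ∑ i ∈ Finset.range T.n.toNat, T.t i * (T.ind ((i : ℤ) - 1) - T.ind i)
      ≤ ∑ i ∈ PK, T.t i + ∑ i ∈ VK, (- T.t i) := by
    rw [hPK, hVK, Finset.sum_filter, Finset.sum_filter, ← Finset.sum_add_distrib]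
    apply Finset.sum_le_sum
    intro i _
    cases hw1 : T.w ((i : ℤ) - 1) with
    | true =>
      cases hw2 : T.w i with
      | true => simp [ind, hw1, hw2]
      | false =>
        simp only [ind, hw1, hw2, Bool.false_eq_true, if_true, if_false, true_and, false_and,
          sub_zero, mul_one, add_zero, reduceCtorEq]
        split_ifs with h <;> omega
    | false =>
      cases hw2 : T.w i with
      | true =>
        simp only [ind, hw1, hw2, Bool.false_eq_true, if_true, if_false, true_and, false_and,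
          zero_sub, mul_neg, mul_one, zero_add, reduceCtorEq]
        split_ifs with h <;> omega
      | false => simp [ind, hw1, hw2]
  rw [T.sum_identity] at h3
  linarith

theorem nz {l : ℤ} (h1 : 0 < l) (h2 : l < T.n) : T.t l ≠ 0 := by
  intro h3
  have := Int.le_of_dvd h1 ((T.t0 l).1 h3)
  exact absurd this (not_le.mpr h2)

/-- representative in `(0, n)` of a vertex with nonzero level -/
theorem repr {i : ℤ} (h : T.t i ≠ 0) : ∃ j, 0 < j ∧ j < T.n ∧ T.t j = T.t i ∧ T.w j = T.w i ∧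
    T.w (j - 1) = T.w (i - 1) := by
  have hn := T.n_pos
  have e : i = i % T.n + i / T.n * T.n := by
    rw [mul_comm]; exact (Int.emod_add_mul_ediv i T.n).symm
  have t1 := T.t_per' (i % T.n) (i / T.n)
  have w1 := T.w_per' (i % T.n) (i / T.n)
  have w2 := T.w_per' (i % T.n - 1) (i / T.n)
  rw [← e] at t1 w1
  rw [show i % T.n - 1 + i / T.n * T.n = i - 1 by omega] at w2
  refine ⟨i % T.n, ?_, Int.emod_lt_of_pos i hn, t1.symm, w1.symm, w2.symm⟩
  rcases (Int.emod_nonneg i hn.ne').lt_or_eq with h1 | h1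
  · exact h1
  · rw [← h1, T.t_zero] at t1; exact absurd t1 h

theorem w_zero (hp : T.p = 1) {i j : ℤ} (hi : 0 < T.t i) (hj : T.t j < 0) :
    T.w 0 = true ∧ T.w (-1) = true := by
  have hq := T.hq
  have hn := T.n_pos
  have hz := T.t_zero
  constructor
  · by_contra hc
    have h1 := T.tb 0 (by simpa using hc)
    rw [zero_add] at h1
    obtain ⟨i', a1, a2, a3, -, -⟩ := T.repr (i := i) (by omega)
    have a4 : i' ≠ 1 := by
      intro e; rw [e] at a3; omega
    obtain ⟨l, c1, c2, c3, c4, c5⟩ := T.upcross (a := 1) (b := i') (by omega) (by omega) (by omega)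
    have := T.ta l c3
    exact T.nz (l := l) (by omega) (by omega) (by omega)
  · by_contra hc
    have h1 := T.tb (-1) (by simpa using hc)
    rw [show (-1 : ℤ) + 1 = 0 by norm_num] at h1
    have h2 := T.t_per (-1)
    obtain ⟨j', a1, a2, a3, -, -⟩ := T.repr (i := j) (by omega)
    have a4 : j' ≠ -1 + T.n := by
      intro e; rw [← e] at h2; omega
    obtain ⟨l, c1, c2, c3, c4, c5⟩ := T.upcross (a := j') (b := -1 + T.n) (by omega)
      (by omega) (by omega)
    have := T.ta l c3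
    exact T.nz (l := l) (by omega) (by omega) (by omega)

theorem run_a {a b : ℤ} (hab : a ≤ b) (h : ∀ l, a ≤ l → l < b → T.w l = true) :
    T.t b = T.t a + (b - a) * T.p ∧ T.G b = T.G a + (b - a) * T.x ∧
      T.H b = T.H a + (b - a) * T.u := by
  obtain ⟨m, rfl⟩ := Int.le.dest hab
  induction m with
  | zero => simp
  | succ m ih =>
    have h1 := ih (by omega) (fun l h1 h2 => h l h1 (by push_cast; omega))
    have h2 := h (a + m) (by omega) (by push_cast; omega)
    have e1 := T.ta _ h2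
    have e2 := T.Ga _ h2
    have e3 := T.Ha _ h2
    push_cast
    rw [← add_assoc, e1, e2, e3, h1.1, h1.2.1, h1.2.2]
    refine ⟨by ring, by ring, by ring⟩

end TP

/-- heights in a run of `a` blocks -/
theorem SP.run_shift (S : SP) {i1 i2 len : ℤ} (hrun : ∀ l, i1 ≤ l → l < i2 → S.w l = true)
    (hmono : ∀ i j, S.K i < S.K j → i < j)
    (hl : ∀ l, S.w l = true → S.K (l + 1) = S.K l + len) {R : ℤ} (h1 : S.K i1 ≤ R)
    (h2 : R ≤ S.K (i2 - 1)) : S.ht (R + len) = S.ht R + S.s * S.p := by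
  obtain ⟨l, k1, k2⟩ := S.loc R
  have h3 := hmono i1 (l + 1) (by omega)
  have h4 := S.hK (i2 - 1)
  rw [sub_add_cancel] at h4
  have h5 := hmono l i2 (by omega)
  have hwl := hrun l (by omega) h5
  have hlen := hl l hwl
  have hta := S.ta l hwl
  rcases (show l + 1 = i2 ∨ l + 1 < i2 by omega) with h | h
  · have h6 : R = S.K l := by rw [← h, add_sub_cancel_right] at h2; omega
    rw [h6, ← hlen, S.htK, S.htK, hta]; ring
  · have hwl' := hrun (l + 1) (by omega) h
    have hc := S.cons l (l + 1) (by rw [hwl, hwl']) (R - S.K l) (by omega) (by omega)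
    rw [hlen, show S.K l + len + (R - S.K l) = R + len by ring,
      show S.K l + (R - S.K l) = R by ring, hta] at hc
    rw [hc]; ring

namespace TP

variable (T : TP)

/-- the exceptional configuration `p = 1`, `d = 2` -/
theorem exceptional (hg : 0 < T.sg) (hh : 0 < T.sh) (hp : T.p = 1) (hd : T.d = 2)
    (hbig : 6 ≤ T.k * T.q) {i0 j0 : ℤ} (hi0 : ∀ l, T.t l ≤ T.t i0)
    (hj0 : ∀ l, T.t j0 ≤ T.t l) (hpos : 0 < T.t i0) (hneg : T.t j0 < 0) :
    T.d * T.t i0 ≤ T.v ∧ T.k * T.q ≤ T.t i0 - T.t j0 := by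
  have hcount := T.count hg hh hi0 hj0 hpos 0 0
    (fun i h1 h2 h3 h4 => by
      have := (T.peakK hg hh h1 h2 h3 h4).1
      omega)
    (fun i h1 h2 h3 h4 => by
      have := (T.valleyK hg hh h1 h2 h3 h4).1
      omega)
  rw [hp, mul_one] at hcount
  have hlong : T.k * T.q ≤ T.t i0 - T.t j0 := by push_cast at hcount; linarith
  refine ⟨?_, hlong⟩
  have hz := T.t_zero
  obtain ⟨hw0, hwm⟩ := T.w_zero hp hpos hneg
  -- the run of `a` through `0`
  obtain ⟨i', a1, a2, a3, a4, -⟩ := T.repr (i := i0) (by omega)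
  rw [T.top_next hi0] at a4
  obtain ⟨i2, ⟨b1, b2⟩, b3⟩ := Int.exists_least_of_bdd
    (P := fun z => 0 ≤ z ∧ T.w z = false) ⟨0, fun z hz => hz.1⟩ ⟨i', a1.le, a4⟩
  have hi2pos : 0 < i2 := by
    rcases b1.lt_or_eq with h | h
    · exact h
    · rw [← h, hw0] at b2; exact absurd b2 (by simp)
  have hw4 : T.w (i' - T.n) = false := by
    have := T.w_per' i' (-1)
    rw [show i' + -1 * T.n = i' - T.n by ring] at this
    rw [this]; exact a4
  obtain ⟨i1', ⟨c1, c2⟩, c3⟩ := Int.exists_greatest_of_bdd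
    (P := fun z => z < 0 ∧ T.w z = false) ⟨0, fun z hz => hz.1.le⟩
    ⟨i' - T.n, by omega, hw4⟩
  have hi1' : i1' ≠ -1 := by
    intro e; rw [e, hwm] at c2; exact absurd c2 (by simp)
  set i1 := i1' + 1 with hi1def
  have hrun : ∀ l, i1 ≤ l → l < i2 → T.w l = true := by
    intro l h1 h2
    by_contra hc
    have hc' : T.w l = false := by simpa using hc
    rcases lt_or_ge l 0 with h | h
    · have := c3 l ⟨h, hc'⟩
      omega
    · have := b3 l ⟨h, hc'⟩
      omega
  have r1 := T.run_a (a := 0) (b := i2) hi2pos.le (fun l h1 h2 => hrun l (by omega) h2)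
  have r2 := T.run_a (a := i1) (b := 0) (by omega) (fun l h1 h2 => hrun l h1 (by omega))
  have r3 := T.run_a (a := i1) (b := i2) (by omega) hrun
  rw [hz, hp, T.G0, T.H0] at r1
  rw [hz, hp, T.G0, T.H0] at r2
  rw [hp] at r3
  -- top and bottom
  have htop : ∀ l, T.t l ≤ T.t i2 := by
    intro l
    by_contra hc
    have := (T.peakK hg hh (i := i2) (j := l) (hrun (i2 - 1) (by omega) (by omega)) b2
      (by omega) (by omega)).1
    omega
  have hbot : ∀ l, T.t i1 ≤ T.t l := by
    intro l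
    by_contra hc
    have := (T.valleyK hg hh (i := i1) (j := l)
      (by rw [hi1def, add_sub_cancel_right]; exact c2) (hrun i1 (by omega) (by omega))
      (by omega) (by omega)).1
    omega
  have e1 : T.t i2 = T.t i0 := le_antisymm (hi0 i2) (htop i0)
  have e2 : T.t i1 = T.t j0 := le_antisymm (hbot j0) (hj0 i1)
  have hlen : 6 ≤ i2 - i1 := by omega
  have hxu := T.hxu
  rw [hp, hd] at hxu
  have hu := T.hu
  have hx := T.hx
  -- shifts
  have sG : ∀ R, T.G i1 ≤ R → R ≤ T.G (i2 - 1) → T.ht (R + T.x) = T.ht R + T.sg := by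
    intro R h1 h2
    have := (T.SG hg).run_shift (i1 := i1) (i2 := i2) (len := T.x) hrun
      (fun i j h => (T.G_lt_iff).1 h) T.Ga (R := R) h1 h2
    replace this : T.ht (R + T.x) = T.ht R + T.sg * T.p := this
    rw [hp, mul_one] at this; exact this
  have sH : ∀ R, T.H i1 ≤ R → R ≤ T.H (i2 - 1) → T.ht (R + T.u) = T.ht R + T.sh := by
    intro R h1 h2
    have := (T.SH hh).run_shift (i1 := i1) (i2 := i2) (len := T.u) hrun
      (fun i j h => (T.H_lt_iff).1 h) T.Ha (R := R) h1 h2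
    replace this : T.ht (R + T.u) = T.ht R + T.sh * T.p := this
    rw [hp, mul_one] at this; exact this
  have g1 := T.GH i1
  have g2 := T.GH i2
  have g3 := T.GH (i2 - 1)
  have g4 := T.Ga (i2 - 1) (hrun _ (by omega) (by omega))
  have g5 := T.Ha (i2 - 1) (hrun _ (by omega) (by omega))
  have g6 := T.ta (i2 - 1) (hrun _ (by omega) (by omega))
  have g7 := T.Ha i1 (hrun _ (by omega) (by omega))
  rw [sub_add_cancel] at g4 g5 g6
  rw [hd] at g1 g2 g3
  -- two-step relation
  have s2 : ∀ Q, T.H (i1 + 1) ≤ Q → Q ≤ T.H i2 → T.ht (Q + 2) = T.ht Q + (T.sg - T.sh) := by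
    intro Q h1 h2
    have k1 := sH (Q - T.u) (by omega) (by omega)
    have k2 := sG (Q - T.u) (by omega) (by omega)
    rw [sub_add_cancel] at k1
    rw [show Q - T.u + T.x = Q + 2 by omega] at k2
    omega
  have hu6 : 6 * T.u ≤ (i2 - i1) * T.u := mul_le_mul_of_nonneg_right hlen hu.le
  -- the two-step increment is positive
  have hcpos : 0 < T.sg - T.sh := by
    have it : ∀ m : ℕ, (m : ℤ) ≤ T.u → T.ht (T.H (i1 + 1) + 2 * m)
        = T.ht (T.H (i1 + 1)) + m * (T.sg - T.sh) := by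
      intro m
      induction m with
      | zero => intro _; simp
      | succ m ih =>
        intro hm
        push_cast at hm
        have h1 := ih (by omega)
        have h2 := s2 (T.H (i1 + 1) + 2 * m) (by omega) (by omega)
        push_cast
        rw [show T.H (i1 + 1) + 2 * ((m : ℤ) + 1) = T.H (i1 + 1) + 2 * m + 2 by ring, h2, h1]
        ring
    have h1 := it T.u.toNat (by omega)
    have hc : ((T.u.toNat : ℕ) : ℤ) = T.u := Int.toNat_of_nonneg hu.le
    rw [hc] at h1
    have h2 := T.run_a (a := i1 + 1) (b := i1 + 3) (by omega)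
      (fun l h1 h2 => hrun l (by omega) (by omega))
    rw [show T.H (i1 + 1) + 2 * T.u = T.H (i1 + 3) by rw [h2.2.2]; ring, T.htH, T.htH, h2.1,
      hp] at h1
    have h3 : T.u * (T.sg - T.sh) = 2 * T.sh := by linarith
    by_contra hcon
    have := mul_nonpos_of_nonneg_of_nonpos hu.le (not_lt.mp hcon)
    omega
  -- a maximal time near `i2`
  obtain ⟨i, P, hi, d1, d2, f1, f2, f3, f4, hP, -⟩ := T.last_max hg hh htop (by omega)
  have htt : T.t i = T.t i2 := le_antisymm (htop i) (hi i2)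
  obtain ⟨k1, k2, k3⟩ := (T.SG hg).shift_ht (i := i) (j := i2)
    (show T.w (i - 1) = T.w (i2 - 1) by rw [T.top_prev hi, T.top_prev htop])
    (show T.w i = T.w i2 by rw [T.top_next hi, T.top_next htop]) (P := P) f1.le f2.le
  replace k1 : T.ht (P - T.G i + T.G i2) = T.ht P + T.sg * (T.t i2 - T.t i) := k1
  replace k2 : T.G (i - 1) - P = T.G (i2 - 1) - (P - T.G i + T.G i2) := k2
  replace k3 : T.G (i + 1) - P = T.G (i2 + 1) - (P - T.G i + T.G i2) := k3
  rw [htt, sub_self, mul_zero, add_zero] at k1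
  set P' := P - T.G i + T.G i2 with hP'
  have m1 := T.GH i
  rw [hd, htt] at m1
  have m2 := T.Hb i (T.top_next hi)
  by_contra hcon
  rw [hd, ← e1] at hcon
  -- then `P' ≤ G i2 - 2`
  have hP2 : P' ≤ T.G i2 - 2 := by omega
  have hP3 : T.G (i2 - 1) < P' := by omega
  set r := (T.H i2 - P') % T.x with hr
  have hr1 := Int.emod_nonneg (T.H i2 - P') hx.ne'
  have hr2 := Int.emod_lt_of_pos (T.H i2 - P') hx
  have hr3 := Int.emod_add_mul_ediv (T.H i2 - P') T.x
  set e := (T.H i2 - P') / T.x with he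
  have he0 : e ≤ 0 := by
    by_contra hc
    have : T.x * 1 ≤ T.x * e := mul_le_mul_of_nonneg_left (by omega) hx.le
    omega
  have hit : ∀ (m : ℕ) (Q : ℤ), T.G i1 ≤ Q → Q + m * T.x ≤ T.G i2 →
      T.ht (Q + m * T.x) = T.ht Q + m * T.sg := by
    intro m
    induction m with
    | zero => intro Q _ _; simp
    | succ m ih =>
      intro Q h1 h2
      push_cast at h2
      have h3 : Q + m * T.x ≤ T.G (i2 - 1) := by linarith
      have h5 : 0 ≤ (m : ℤ) * T.x := mul_nonneg (by positivity) hx.le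
      have h4 := ih Q h1 (by omega)
      have h6 := sG (Q + m * T.x) (by omega) h3
      push_cast
      rw [show Q + ((m : ℤ) + 1) * T.x = Q + m * T.x + T.x by ring, h6, h4]
      ring
  set Q := T.H i2 - r with hQ
  have hm : (((-e).toNat : ℕ) : ℤ) = - e := Int.toNat_of_nonneg (by omega)
  have hQP : Q + (((-e).toNat : ℕ) : ℤ) * T.x = P' := by
    rw [hm]
    linarith
  have hQlow : T.H (i1 + 1) ≤ Q := by
    rw [hQ, g7]
    have : T.H i2 = T.H i1 + (i2 - i1) * T.u := r3.2.2
    omega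
  have z1 := hit (-e).toNat Q (by omega) (by rw [hQP]; omega)
  have z2 := hit (-e).toNat (Q + 2) (by omega) (by
    rw [show Q + 2 + (((-e).toNat : ℕ) : ℤ) * T.x = Q + (((-e).toNat : ℕ) : ℤ) * T.x + 2 by ring,
      hQP]; omega)
  rw [hQP] at z1
  rw [show Q + 2 + (((-e).toNat : ℕ) : ℤ) * T.x = Q + (((-e).toNat : ℕ) : ℤ) * T.x + 2 by ring,
    hQP] at z2
  have z3 := s2 Q hQlow (by omega)
  have z4 := hP (P' + 2)
  omega

end TP

end PCPHard
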