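import Pool.Agent.PCPHard.Two

namespace PCPHard

namespace TP

variable (T : TP)

/-- the blocks of `H` carrying letter `c` contain a maximal-height time -/
def HMax (c : Bool) : Prop :=
  ∃ i P, T.w i = c ∧ T.H i ≤ P ∧ P < T.H (i + 1) ∧ ∀ Q, T.ht Q ≤ T.ht P

/-- the blocks of `H` carrying letter `c` contain a minimal-height time -/
def HMin (c : Bool) : Prop :=
  ∃ i P, T.w i = c ∧ T.H i ≤ P ∧ P < T.H (i + 1) ∧ ∀ Q, T.ht P ≤ T.ht Q

theorem Hlen {i j : ℤ} (h : T.w i = T.w j) : T.H (i + 1) - T.H i = T.H (j + 1) - T.H j := by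
  cases hw : T.w i with
  | true => rw [T.Ha i hw, T.Ha j (by rw [← h, hw])]; ring
  | false => rw [T.Hb i hw, T.Hb j (by rw [← h, hw])]; ring

theorem HMax_at {c : Bool} (hh : T.sh = 0) (h : T.HMax c) : ∃ o, 0 ≤ o ∧
    ∀ j, T.w j = c → T.H j + o < T.H (j + 1) ∧ ∀ Q, T.ht Q ≤ T.ht (T.H j + o) := by
  obtain ⟨i, P, hi, h1, h2, h3⟩ := h
  refine ⟨P - T.H i, by omega, fun j hj => ?_⟩
  have hl := T.Hlen (i := i) (j := j) (by rw [hi, hj])
  have hc := T.cH i j (by rw [hi, hj]) (P - T.H i) (by omega) (by omega)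
  rw [show T.H i + (P - T.H i) = P by ring, hh, zero_mul, add_zero] at hc
  exact ⟨by omega, fun Q => by rw [hc]; exact h3 Q⟩

theorem HMin_at {c : Bool} (hh : T.sh = 0) (h : T.HMin c) : ∃ o, 0 ≤ o ∧
    ∀ j, T.w j = c → T.H j + o < T.H (j + 1) ∧ ∀ Q, T.ht (T.H j + o) ≤ T.ht Q := by
  obtain ⟨i, P, hi, h1, h2, h3⟩ := h
  refine ⟨P - T.H i, by omega, fun j hj => ?_⟩
  have hl := T.Hlen (i := i) (j := j) (by rw [hi, hj])
  have hc := T.cH i j (by rw [hi, hj]) (P - T.H i) (by omega) (by omega)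
  rw [show T.H i + (P - T.H i) = P by ring, hh, zero_mul, add_zero] at hc
  exact ⟨by omega, fun Q => by rw [hc]; exact h3 Q⟩

theorem HMax_or : T.HMax true ∨ T.HMax false := by
  obtain ⟨P, hP⟩ := T.exMax
  obtain ⟨l, h1, h2⟩ := T.locH P
  cases hw : T.w l with
  | true => exact Or.inl ⟨l, P, hw, h1, h2, hP⟩
  | false => exact Or.inr ⟨l, P, hw, h1, h2, hP⟩

theorem HMin_or : T.HMin true ∨ T.HMin false := by
  obtain ⟨P, hP⟩ := T.exMin
  obtain ⟨l, h1, h2⟩ := T.locH P
  cases hw : T.w l with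
  | true => exact Or.inl ⟨l, P, hw, h1, h2, hP⟩
  | false => exact Or.inr ⟨l, P, hw, h1, h2, hP⟩

theorem upcross {a b : ℤ} (hab : a < b) (ha : T.t a ≤ 0) (hb : 0 < T.t b) :
    ∃ l, a ≤ l ∧ l < b ∧ T.w l = true ∧ T.t l ≤ 0 ∧ 0 < T.t (l + 1) := by
  obtain ⟨l, ⟨h1, h2⟩, h3⟩ := Int.exists_greatest_of_bdd
    (P := fun z => z < b ∧ T.t z ≤ 0) ⟨b, fun z hz => hz.1.le⟩ ⟨a, hab, ha⟩
  have h4 : 0 < T.t (l + 1) := by
    by_contra hc
    rcases lt_or_eq_of_le (show l + 1 ≤ b by omega) with h | h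
    · have := h3 (l + 1) ⟨h, by omega⟩
      omega
    · rw [h] at hc; omega
  refine ⟨l, h3 a ⟨hab, ha⟩, h1, ?_, h2, h4⟩
  by_contra hc
  have := T.tb l (by simpa using hc)
  have := T.hq
  omega

theorem t_per' (i m : ℤ) : T.t (i + m * T.n) = T.t i := per_mul T.t_per i m

theorem ex_cross : ∃ l, T.w l = true ∧ T.t l ≤ 0 ∧ 0 ≤ T.t (l + 1) := by
  cases h0 : T.w 0 with
  | true =>
    refine ⟨0, h0, T.t_zero.le, ?_⟩
    rw [T.ta 0 h0, T.t_zero]; have := T.hp; omega
  | false =>
    cases h1 : T.w (-1) with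
    | true =>
      have h2 := T.ta (-1) h1
      rw [show (-1 : ℤ) + 1 = 0 by norm_num, T.t_zero] at h2
      have := T.hp
      refine ⟨-1, h1, by omega, ?_⟩
      rw [show (-1 : ℤ) + 1 = 0 by norm_num, T.t_zero]
    | false =>
      have h2 := T.tb (-1) h1
      rw [show (-1 : ℤ) + 1 = 0 by norm_num, T.t_zero] at h2
      have h3 := T.tb 0 h0
      rw [zero_add, T.t_zero] at h3
      have h4 := T.t_per (-1)
      have hq := T.hq
      have hn : 1 < -1 + T.n := by
        by_contra hc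
        have hn := T.n_pos
        have hk := T.hk
        have hp := T.hp
        have h5 : 2 ≤ T.n := by
          show 2 ≤ T.k * (T.p + T.q)
          nlinarith
        have h6 : -1 + T.n = 1 := by omega
        rw [h6] at h4
        omega
      obtain ⟨l, _, _, h5, h6, h7⟩ := T.upcross (a := 1) (b := -1 + T.n) hn (by omega) (by omega)
      exact ⟨l, h5, h6, h7.le⟩

theorem cross_top (hg : 0 < T.sg) (hh : T.sh = 0) (hM : T.HMax true) {l : ℤ}
    (hl : T.w l = true) (h1 : T.t l ≤ 0) (h2 : 0 ≤ T.t (l + 1)) : ∀ j, T.t j ≤ T.t (l + 1) := by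
  obtain ⟨o, ho, hM'⟩ := T.HMax_at hh hM
  obtain ⟨h3, h4⟩ := hM' l hl
  obtain ⟨i, hi, h5, h6⟩ := (T.SG hg).near_top h4
  replace hi : ∀ j, T.t j ≤ T.t i := hi
  replace h5 : T.G (i - 1) < T.H l + o := h5
  replace h6 : T.H l + o < T.G (i + 1) := h6
  have g1 := T.GH l
  have g2 := T.GH (l + 1)
  have g3 : T.d * T.t l ≤ 0 := mul_nonpos_of_nonneg_of_nonpos T.hd.le h1
  have g4 : 0 ≤ T.d * T.t (l + 1) := mul_nonneg T.hd.le h2
  have g5 : T.G (i - 1) < T.G (l + 1) := by omega
  have g6 : T.G l < T.G (i + 1) := by omega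
  rw [T.G_lt_iff] at g5 g6
  rcases (show i = l ∨ i = l + 1 by omega) with h | h
  · have := T.top_next hi
    rw [h, hl] at this
    exact absurd this (by simp)
  · rw [← h]; exact hi

theorem cross_bot (hg : 0 < T.sg) (hh : T.sh = 0) (hM : T.HMin true) {l : ℤ}
    (hl : T.w l = true) (h1 : T.t l ≤ 0) (h2 : 0 ≤ T.t (l + 1)) : ∀ j, T.t l ≤ T.t j := by
  obtain ⟨o, ho, hM'⟩ := T.HMin_at hh hM
  obtain ⟨h3, h4⟩ := hM' l hl
  obtain ⟨i, hi, h5, h6⟩ := (T.SG hg).near_bot h4
  replace hi : ∀ j, T.t i ≤ T.t j := hi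
  replace h5 : T.G (i - 1) < T.H l + o := h5
  replace h6 : T.H l + o < T.G (i + 1) := h6
  have g1 := T.GH l
  have g2 := T.GH (l + 1)
  have g3 : T.d * T.t l ≤ 0 := mul_nonpos_of_nonneg_of_nonpos T.hd.le h1
  have g4 : 0 ≤ T.d * T.t (l + 1) := mul_nonneg T.hd.le h2
  have g5 : T.G (i - 1) < T.G (l + 1) := by omega
  have g6 : T.G l < T.G (i + 1) := by omega
  rw [T.G_lt_iff] at g5 g6
  rcases (show i = l ∨ i = l + 1 by omega) with h | h
  · rw [← h]; exact hi
  · have := T.bot_prev hi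
    rw [h, add_sub_cancel_right, hl] at this
    exact absurd this (by simp)

/-! ### both extremes in the `v` blocks -/

theorem exB : ∃ B : ℤ → ℤ, (∀ i, i * T.p - T.t i = (T.p + T.q) * B i) ∧ B 0 = 0 ∧
    B T.n = T.k * T.p ∧ (∀ i, T.w i = true → B (i + 1) = B i) ∧
    (∀ i, T.w i = false → B (i + 1) = B i + 1) ∧ (∀ i j, i ≤ j → B i ≤ B j) ∧
    (∀ i j, i ≤ j → B j - B i ≤ j - i) := by
  choose B hB using T.t_cong
  have hL : 0 < T.p + T.q := add_pos T.hp T.hq
  have ha : ∀ i, T.w i = true → B (i + 1) = B i := by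
    intro i h
    have h1 := hB (i + 1)
    have h2 := hB i
    rw [T.ta i h] at h1
    exact mul_left_cancel₀ hL.ne' (by linarith)
  have hb : ∀ i, T.w i = false → B (i + 1) = B i + 1 := by
    intro i h
    have h1 := hB (i + 1)
    have h2 := hB i
    rw [T.tb i h] at h1
    exact mul_left_cancel₀ hL.ne' (by linarith)
  have hs : ∀ i, B i ≤ B (i + 1) ∧ B (i + 1) ≤ B i + 1 := by
    intro i
    cases h : T.w i with
    | true => rw [ha i h]; omega
    | false => rw [hb i h]; omega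
  refine ⟨B, hB, ?_, ?_, ha, hb, ?_, ?_⟩
  · have h1 := hB 0
    rw [T.t_zero] at h1
    exact mul_left_cancel₀ hL.ne' (by linarith)
  · have h1 := hB T.n
    have h2 := T.t_per 0
    rw [zero_add, T.t_zero] at h2
    rw [h2] at h1
    apply mul_left_cancel₀ hL.ne'
    rw [← h1]
    show T.k * (T.p + T.q) * T.p - 0 = _
    ring
  · intro i j h
    obtain ⟨m, rfl⟩ := Int.le.dest h
    induction m with
    | zero => simp
    | succ m ih =>
      have h1 := ih (by omega)
      have h2 := (hs (i + m)).1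
      push_cast
      rw [← add_assoc]
      omega
  · intro i j h
    obtain ⟨m, rfl⟩ := Int.le.dest h
    induction m with
    | zero => simp
    | succ m ih =>
      have h1 := ih (by omega)
      have h2 := (hs (i + m)).2
      push_cast
      rw [← add_assoc]
      omega

theorem bot_lt_top (hk : 2 ≤ T.k) {i j P Q : ℤ} (hi : ∀ l, T.t l ≤ T.t i)
    (hj : ∀ l, T.t j ≤ T.t l) (h1 : T.G (j - 1) < P) (h2 : Q < T.G (i + 1)) (h : P < Q) :
    j < i := by
  have hsp := T.span_ge hk hi hj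
  have hp := T.hp
  have hq := T.hq
  by_contra hc
  have hne : i ≠ j := by
    intro e; rw [e] at hsp; omega
  have h3 : T.G (j - 1) < T.G (i + 1) := by omega
  rw [T.G_lt_iff] at h3
  have h4 : j = i + 1 := by omega
  have a2 := T.tb i (T.top_next hi)
  rw [h4] at hsp
  omega

theorem top_lt_bot (hk : 2 ≤ T.k) {i j P Q : ℤ} (hi : ∀ l, T.t l ≤ T.t i)
    (hj : ∀ l, T.t j ≤ T.t l) (h1 : T.G (i - 1) < P) (h2 : Q < T.G (j + 1)) (h : P < Q) :
    i < j := by
  have hsp := T.span_ge hk hi hj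
  have hp := T.hp
  have hq := T.hq
  by_contra hc
  have hne : i ≠ j := by
    intro e; rw [e] at hsp; omega
  have h3 : T.G (i - 1) < T.G (j + 1) := by omega
  rw [T.G_lt_iff] at h3
  have h4 : i = j + 1 := by omega
  have a2 := T.ta j (T.bot_next hj)
  rw [h4] at hsp
  omega

theorem caseC_vv (hk : 2 ≤ T.k) (hg : 0 < T.sg) (hh : T.sh = 0) (hM : T.HMax false)
    (hm : T.HMin false) : T.k ≤ 2 := by
  obtain ⟨o, ho, hM'⟩ := T.HMax_at hh hM
  obtain ⟨o', ho', hm'⟩ := T.HMin_at hh hm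
  obtain ⟨B, hB, hB0, hBn, hBa, hBb, hBm, hBd⟩ := T.exB
  have hp := T.hp
  have hq := T.hq
  have hL : 0 < T.p + T.q := add_pos hp hq
  -- two `b` steps between a top and a later bottom
  have two : ∀ i j, (∀ l, T.t l ≤ T.t i) → (∀ l, T.t j ≤ T.t l) → i < j → B i + 2 ≤ B j := by
    intro i j hi hj hij
    have hsp := T.span_ge hk hi hj
    have h1 := hB i
    have h2 := hB j
    have h3 := hBd i j hij.le
    by_contra hc
    have h4 : B j - B i ≤ 1 := by omega
    have h5 : 0 ≤ (j - i - (B j - B i)) * T.p := mul_nonneg (by omega) hp.le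
    have h6 : (B j - B i) * T.q ≤ 1 * T.q := mul_le_mul_of_nonneg_right h4 hq.le
    nlinarith
  have hoo : ∀ l, T.w l = false → o ≠ o' := by
    intro l hl e
    obtain ⟨i, hi⟩ := T.exTop
    obtain ⟨j, hj⟩ := T.exBot
    have hsp := T.span_ge hk hi hj
    have h1 := (hM' l hl).2 (T.G i)
    have h2 := (hm' l hl).2 (T.G j)
    rw [e] at h1
    rw [T.htG] at h1 h2
    have : 0 < T.sg * (T.t i - T.t j) := mul_pos hg (by omega)
    nlinarith
  -- main induction
  have key : ∀ m : ℕ, ∀ l, 0 ≤ l → T.w l = false → B l = m → ∀ j, (∀ i, T.t j ≤ T.t i) →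
      T.G (j - 1) < T.H l + o' → T.H l + o' < T.G (j + 1) → 2 * (m : ℤ) ≤ B j := by
    intro m
    induction m with
    | zero =>
      intro l hl0 hl hBl j hj h1 h2
      have h3 := T.H_mono hl0
      rw [T.H0] at h3
      have h4 : T.G 0 < T.G (j + 1) := by rw [T.G0]; omega
      rw [T.G_lt_iff] at h4
      have := hBm 0 j (by omega)
      push_cast
      omega
    | succ m ih =>
      intro l hl0 hl hBl j hj h1 h2
      obtain ⟨l', ⟨c1, c2⟩, c3⟩ := Int.exists_greatest_of_bdd
        (P := fun z => z < l ∧ B z ≤ m) ⟨l, fun z hz => hz.1.le⟩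
        ⟨0, by
          refine ⟨?_, by rw [hB0]; positivity⟩
          rcases hl0.lt_or_eq with h | h
          · exact h
          · rw [← h, hB0] at hBl; push_cast at hBl; omega⟩
      have hl'0 : 0 ≤ l' := c3 0 (by
          refine ⟨?_, by rw [hB0]; positivity⟩
          rcases hl0.lt_or_eq with h | h
          · exact h
          · rw [← h, hB0] at hBl; push_cast at hBl; omega)
      have c4 : (m : ℤ) < B (l' + 1) := by
        by_contra hc
        rcases lt_or_eq_of_le (show l' + 1 ≤ l by omega) with h | h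
        · have := c3 (l' + 1) ⟨h, by omega⟩
          omega
        · rw [h, hBl] at hc; push_cast at hc; omega
      have c5 : T.w l' = false := by
        by_contra hc
        have := hBa l' (by simpa using hc)
        omega
      have c6 := hBb l' c5
      have c7 : B l' = m := by omega
      obtain ⟨j', hj', d1, d2⟩ := (T.SG hg).near_bot (hm' l' c5).2
      replace hj' : ∀ i, T.t j' ≤ T.t i := hj'
      replace d1 : T.G (j' - 1) < T.H l' + o' := d1
      replace d2 : T.H l' + o' < T.G (j' + 1) := d2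
      have d3 := ih l' hl'0 c5 c7 j' hj' d1 d2
      have d4 := T.H_mono (i := l' + 1) (j := l) (by omega)
      have d5 := (hM' l' c5).1
      have d6 := (hm' l' c5).1
      have hex : ∃ P, (∀ Q, T.ht Q ≤ T.ht P) ∧ T.H l' + o' < P ∧ P < T.H l + o' := by
        rcases lt_trichotomy o o' with h | h | h
        · exact ⟨T.H l + o, (hM' l hl).2, by omega, by omega⟩
        · exact absurd h (hoo l hl)
        · exact ⟨T.H l' + o, (hM' l' c5).2, by omega, by omega⟩
      obtain ⟨P, hP, e1, e2⟩ := hex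
      obtain ⟨i, hi, f1, f2⟩ := (T.SG hg).near_top hP
      replace hi : ∀ j, T.t j ≤ T.t i := hi
      replace f1 : T.G (i - 1) < P := f1
      replace f2 : P < T.G (i + 1) := f2
      have g1 := T.bot_lt_top hk hi hj' d1 f2 e1
      have g2 := T.top_lt_bot hk hi hj f1 h2 e2
      have g3 := two i j hi hj g2
      have g4 := hBm j' i g1.le
      push_cast
      omega
  -- last `b` step
  have hn := T.n_pos
  have hkp : 0 < T.k * T.p := mul_pos T.hk hp
  obtain ⟨l, ⟨c1, c2⟩, c3⟩ := Int.exists_greatest_of_bdd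
    (P := fun z => z < T.n ∧ B z ≤ T.k * T.p - 1) ⟨T.n, fun z hz => hz.1.le⟩
    ⟨0, hn, by rw [hB0]; omega⟩
  have hl0 : 0 ≤ l := c3 0 ⟨hn, by rw [hB0]; omega⟩
  have c4 : T.k * T.p - 1 < B (l + 1) := by
    by_contra hc
    rcases lt_or_eq_of_le (show l + 1 ≤ T.n by omega) with h | h
    · have := c3 (l + 1) ⟨h, by omega⟩
      omega
    · rw [h, hBn] at hc; omega
  have c5 : T.w l = false := by
    by_contra hc
    have := hBa l (by simpa using hc)
    omega
  have c6 := hBb l c5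
  obtain ⟨j, hj, d1, d2⟩ := (T.SG hg).near_bot (hm' l c5).2
  replace hj : ∀ i, T.t j ≤ T.t i := hj
  replace d1 : T.G (j - 1) < T.H l + o' := d1
  replace d2 : T.H l + o' < T.G (j + 1) := d2
  have h0l := hBm 0 l hl0
  rw [hB0] at h0l
  have d3 := key (B l).toNat l hl0 c5 (by omega) j hj d1 d2
  have d4 := (hm' l c5).1
  have d5 := T.H_mono (i := l + 1) (j := T.n) (by omega)
  have d6 : T.G (j - 1) < T.G T.n := by rw [T.N_eq, ← T.N_eqH]; omega
  rw [T.G_lt_iff] at d6
  have d7 := hBm j T.n (by omega)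
  rw [hBn] at d7
  have d8 : T.k * T.p ≤ 2 := by omega
  have : T.k * 1 ≤ T.k * T.p := mul_le_mul_of_nonneg_left (by omega) T.hk.le
  omega

/-! ### maxima in the `u` blocks, minima in the `v` blocks -/

theorem run_b {a b : ℤ} (hab : a ≤ b) (h : ∀ l, a ≤ l → l < b → T.w l = false) :
    T.t b = T.t a - (b - a) * T.q ∧ T.G b = T.G a + (b - a) * T.y ∧
      T.H b = T.H a + (b - a) * T.v := by
  obtain ⟨m, rfl⟩ := Int.le.dest hab
  induction m with
  | zero => simp
  | succ m ih =>
    have h1 := ih (by omega) (fun l h1 h2 => h l h1 (by push_cast; omega))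
    have h2 := h (a + m) (by omega) (by push_cast; omega)
    have e1 := T.tb _ h2
    have e2 := T.Gb _ h2
    have e3 := T.Hb _ h2
    push_cast
    rw [← add_assoc, e1, e2, e3, h1.1, h1.2.1, h1.2.2]
    refine ⟨by ring, by ring, by ring⟩

theorem caseC_uv (hk : 2 ≤ T.k) (hg : 0 < T.sg) (hh : T.sh = 0) (hM : T.HMax true)
    (hm : T.HMin false) : T.n ≤ T.x + T.v - 2 := by
  have hp := T.hp
  have hq := T.hq
  have hd := T.hd
  have hn := T.n_pos
  obtain ⟨j, hj⟩ := T.exBot
  have hcross := fun l => T.cross_top hg hh hM (l := l)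
  have hz := T.t_zero
  -- (2)
  have hjneg : T.t j < 0 := by
    rcases (T.bot_nonpos hj).lt_or_eq with h | h
    · exact h
    · exfalso
      have h1 := hj (0 + 1)
      have h0 : T.w 0 = true := by
        by_contra hc
        have := T.tb 0 (by simpa using hc)
        rw [T.t_zero] at this
        omega
      have h2 := T.ta 0 h0
      have h3 := hcross 0 h0 T.t_zero.le (by rw [h2, T.t_zero]; omega)
      have := T.span_ge hk h3 hj
      rw [h2, T.t_zero] at this
      omega
  -- representative of the bottom in `(0, n)`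
  obtain ⟨j0, hj0, hj0p, hj0n⟩ : ∃ j0, (∀ l, T.t j0 ≤ T.t l) ∧ 0 < j0 ∧ j0 < T.n := by
    have h2 := T.t_per' (j % T.n) (j / T.n)
    rw [show j % T.n + j / T.n * T.n = j by rw [mul_comm]; exact Int.emod_add_mul_ediv j T.n] at h2
    refine ⟨j % T.n, fun l => by rw [← h2]; exact hj l, ?_, Int.emod_lt_of_pos _ hn⟩
    rcases (Int.emod_nonneg j hn.ne').lt_or_eq with h | h
    · exact h
    · rw [← h, T.t_zero] at h2; omega
  have hj0neg : T.t j0 < 0 := by
    have := hj0 j; omega
  have nz : ∀ l, 0 < l → l < T.n → T.t l ≠ 0 := by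
    intro l h1 h2 h3
    have := Int.le_of_dvd h1 ((T.t0 l).1 h3)
    exact absurd this (not_le.mpr h2)
  -- (3)
  have hw0 : T.w 0 = false := by
    by_contra hc
    have h0 : T.w 0 = true := by simpa using hc
    have h2 := T.ta 0 h0
    have h3 := hcross 0 h0 T.t_zero.le (by rw [h2, T.t_zero]; omega)
    rw [h2, T.t_zero] at h3
    have hwm : T.w (-1) = false := by
      by_contra hc
      have h1 : T.w (-1) = true := by simpa using hc
      have h4 := T.ta (-1) h1
      rw [show (-1 : ℤ) + 1 = 0 by norm_num, T.t_zero] at h4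
      have h5 := hcross (-1) h1 (by omega)
        (by rw [show (-1 : ℤ) + 1 = 0 by norm_num, T.t_zero])
      have h6 := h5 (0 + 1)
      rw [show (-1 : ℤ) + 1 = 0 by norm_num, T.t_zero] at h6
      omega
    have h4 := T.tb (-1) hwm
    rw [show (-1 : ℤ) + 1 = 0 by norm_num, T.t_zero] at h4
    have h5 := T.t_per (-1)
    have h6 : j0 ≠ -1 + T.n := by
      intro e; rw [← e] at h5; omega
    obtain ⟨l, c1, c2, c3, c4, c5⟩ := T.upcross (a := j0) (b := -1 + T.n) (by omega)
      (by omega) (by omega)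
    have c6 := hcross l c3 c4 c5.le (0 + 1)
    have c7 := T.ta l c3
    have c8 := nz l (by omega) (by omega)
    omega
  -- (4) last `a` step before `n`
  have hwj0 : T.w j0 = true := T.bot_next hj0
  obtain ⟨l1, ⟨a1, a2⟩, a3⟩ := Int.exists_greatest_of_bdd
    (P := fun z => z < T.n ∧ T.w z = true) ⟨T.n, fun z hz => hz.1.le⟩ ⟨j0, hj0n, hwj0⟩
  have a4 := a3 j0 ⟨hj0n, hwj0⟩
  have hrun := T.run_b (a := l1 + 1) (b := T.n) (by omega) (by
    intro l h1 h2
    by_contra hc
    have := a3 l ⟨h2, by simpa using hc⟩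
    omega)
  have htn : T.t T.n = 0 := by
    have := T.t_per 0; rwa [zero_add, T.t_zero] at this
  have hti : T.t (l1 + 1) = (T.n - (l1 + 1)) * T.q := by
    have := hrun.1; rw [htn] at this; linarith
  have ht1 := T.tb 0 hw0
  rw [zero_add, T.t_zero] at ht1
  have htop : (∀ j, T.t j ≤ T.t (l1 + 1)) ∧ T.t (l1 + 1) < T.p := by
    rcases (show l1 + 1 = T.n ∨ l1 + 1 < T.n by omega) with h | h
    · have h1 := T.ta l1 a2
      have h2 : T.t (l1 + 1) = 0 := by rw [h, htn]
      exact ⟨hcross l1 a2 (by omega) (by omega), by omega⟩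
    · have h1 : 0 < T.t (l1 + 1) := by
        rw [hti]; exact mul_pos (by omega) hq
      obtain ⟨l, c1, c2, c3, c4, c5⟩ := T.upcross (a := 1) (b := l1 + 1) (by omega)
        (by omega) h1
      have c6 := hcross l c3 c4 c5.le (l1 + 1)
      have c7 := T.ta l c3
      have c8 := nz l (by omega) (by omega)
      have h2 := T.ta l1 a2
      exact ⟨hcross l1 a2 (by omega) (by omega), by omega⟩
  obtain ⟨hti1, hti2⟩ := htop
  -- (5) first `a` step
  obtain ⟨m, ⟨b1, b2⟩, b3⟩ := Int.exists_least_of_bdd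
    (P := fun z => 0 ≤ z ∧ T.w z = true) ⟨0, fun z hz => hz.1⟩ ⟨j0, hj0p.le, hwj0⟩
  have b4 : 0 < m := by
    rcases b1.lt_or_eq with h | h
    · exact h
    · rw [← h, hw0] at b2; exact absurd b2 (by simp)
  have b5 := b3 l1 ⟨by omega, a2⟩
  have hfirst : ∀ l, 0 ≤ l → l < m → T.w l = false := by
    intro l h1 h2
    by_contra hc
    have := b3 l ⟨h1, by simpa using hc⟩
    omega
  have hrun2 := T.run_b (a := 0) (b := m) b1 hfirst
  rw [T.H0, T.G0] at hrun2
  obtain ⟨o, ho, hM'⟩ := T.HMax_at hh hM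
  obtain ⟨e1, e2⟩ := hM' m b2
  obtain ⟨i', hi', f1, f2⟩ := (T.SG hg).near_top e2
  replace hi' : ∀ j, T.t j ≤ T.t i' := hi'
  replace f1 : T.G (i' - 1) < T.H m + o := f1
  replace f2 : T.H m + o < T.G (i' + 1) := f2
  have htt : T.t i' = T.t (l1 + 1) := le_antisymm (hti1 i') (hi' (l1 + 1))
  have hdvd : T.n ∣ i' - (l1 + 1) := by
    rcases (T.top_nonneg hti1).lt_or_eq with h | h
    · refine T.U4 i' (l1 + 1) (T.top_prev hi') (by rw [add_sub_cancel_right]; exact a2) htt
        (by omega) ?_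
      have := T.hxu; have := T.hu
      have : T.d * (T.t i') ≤ T.d * T.p := mul_le_mul_of_nonneg_left (by omega) hd.le
      omega
    · exact dvd_sub ((T.t0 i').1 (by omega)) ((T.t0 (l1 + 1)).1 h.symm)
  have hy := T.hy
  have hvy := T.hvy
  have hv := T.hv
  have hdq : 0 < T.d * T.q := mul_pos hd hq
  have hHm : T.v ≤ T.H m := by
    rw [hrun2.2.2, sub_zero, zero_add]; exact le_mul_of_one_le_left hv.le (by omega)
  have hi'ge : l1 + 1 ≤ i' := by
    by_contra hc
    have hc' : 0 < (l1 + 1) - i' := by omega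
    have h1 : T.n ∣ (l1 + 1) - i' := by
      rw [show (l1 + 1) - i' = - (i' - (l1 + 1)) by ring]; exact (dvd_neg).2 hdvd
    have h2 := Int.le_of_dvd hc' h1
    have h3 := T.G_mono (i := i' + 1) (j := 1) (by omega)
    have h4 := T.Gb 0 hw0
    rw [zero_add, T.G0] at h4
    omega
  have g1 := T.G_mono (i := l1 + 1 - 1) (j := i' - 1) (by omega)
  have g2 := T.Ga l1 a2
  rw [add_sub_cancel_right] at g1
  have g3 := T.GH (l1 + 1)
  have g4 := T.H_mono (i := m + 1) (j := l1 + 1) (by omega)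
  -- (7)
  obtain ⟨o', ho', hm'⟩ := T.HMin_at hh hm
  obtain ⟨e3, e4⟩ := hm' 0 hw0
  rw [T.H0] at e3 e4
  have hHb := T.Hb 0 hw0
  rw [T.H0] at hHb
  obtain ⟨j', hj', f3, f4⟩ := (T.SG hg).near_bot e4
  replace hj' : ∀ i, T.t j' ≤ T.t i := hj'
  replace f3 : T.G (j' - 1) < 0 + o' := f3
  replace f4 : 0 + o' < T.G (j' + 1) := f4
  have h5 : T.G 0 < T.G (j' + 1) := by rw [T.G0]; omega
  rw [T.G_lt_iff] at h5
  have h6 : m ≤ j' := by
    by_contra hc
    have h7 := hfirst j' (by omega) (by omega)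
    have h8 := T.bot_next hj'
    rw [h7] at h8; exact absurd h8 (by simp)
  have h7 := T.G_mono (i := m - 1) (j := j' - 1) (by omega)
  have h8 := T.G_mono (i := 0) (j := m - 1) (by omega)
  rw [T.G0] at h8
  -- (8)
  have h9 : (T.n - (l1 + 1)) ≤ T.t (l1 + 1) := by
    rw [hti]; exact le_mul_of_one_le_right (by omega) (by omega)
  have h10 : T.t (l1 + 1) ≤ T.d * T.t (l1 + 1) :=
    le_mul_of_one_le_left (T.top_nonneg hti1) (by omega)
  clear hcross hM hm hj hj' hi' hti1 hM' hm' hfirst nz a3 b3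
  omega

theorem caseC (hk : 2 ≤ T.k) (hg : 0 < T.sg) (hh : T.sh = 0) :
    T.n ≤ T.x + T.v - 2 ∨ T.k ≤ 2 := by
  have hp := T.hp
  have hq := T.hq
  rcases T.HMax_or with hM | hM
  · rcases T.HMin_or with hm | hm
    · exfalso
      obtain ⟨l, h1, h2, h3⟩ := T.ex_cross
      have h4 := T.cross_top hg hh hM h1 h2 h3
      have h5 := T.cross_bot hg hh hm h1 h2 h3
      have h6 := T.span_ge hk h4 h5
      have h7 := T.ta l h1
      omega
    · exact Or.inl (T.caseC_uv hk hg hh hM hm)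
  · rcases T.HMin_or with hm | hm
    · left
      have key := T.rev.caseC_uv hk hg hh ?_ ?_
      · exact key
      · obtain ⟨i, P, h1, h2, h3, h4⟩ := hm
        have hb : ∃ P', T.H i < P' ∧ P' ≤ T.H (i + 1) ∧ ∀ Q, T.ht P' ≤ T.ht Q := by
          rcases h2.lt_or_eq with h | h
          · exact ⟨P, h, h3.le, h4⟩
          · refine ⟨T.H (i + 1), T.H_lt i, le_refl _, fun Q => ?_⟩
            have := h4 Q
            rw [← h, T.htH, hh, zero_mul] at this
            rw [T.htH, hh, zero_mul]; exact this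
        obtain ⟨P', h5, h6, h7⟩ := hb
        refine ⟨- (i + 1), - P', ?_, ?_, ?_, ?_⟩
        · show T.w (- (- (i + 1)) - 1) = true
          rw [show - (- (i + 1)) - 1 = i by ring]; exact h1
        · show - T.H (- (- (i + 1))) ≤ - P'
          rw [neg_neg]; omega
        · show - P' < - T.H (- (- (i + 1) + 1))
          rw [show - (- (i + 1) + 1) = i by ring]; omega
        · intro Q
          show - T.ht (- Q) ≤ - T.ht (- (- P'))
          rw [neg_neg]
          have := h7 (- Q)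
          omega
      · obtain ⟨i, P, h1, h2, h3, h4⟩ := hM
        have hb : ∃ P', T.H i < P' ∧ P' ≤ T.H (i + 1) ∧ ∀ Q, T.ht Q ≤ T.ht P' := by
          rcases h2.lt_or_eq with h | h
          · exact ⟨P, h, h3.le, h4⟩
          · refine ⟨T.H (i + 1), T.H_lt i, le_refl _, fun Q => ?_⟩
            have := h4 Q
            rw [← h, T.htH, hh, zero_mul] at this
            rw [T.htH, hh, zero_mul]; exact this
        obtain ⟨P', h5, h6, h7⟩ := hb
        refine ⟨- (i + 1), - P', ?_, ?_, ?_, ?_⟩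
        · show T.w (- (- (i + 1)) - 1) = false
          rw [show - (- (i + 1)) - 1 = i by ring]; exact h1
        · show - T.H (- (- (i + 1))) ≤ - P'
          rw [neg_neg]; omega
        · show - P' < - T.H (- (- (i + 1) + 1))
          rw [show - (- (i + 1) + 1) = i by ring]; omega
        · intro Q
          show - T.ht (- (- P')) ≤ - T.ht (- Q)
          rw [neg_neg]
          have := h7 (- Q)
          omega
    · exact Or.inr (T.caseC_vv hk hg hh hM hm)

end TP

end PCPHard
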