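import Pool.Agent.PCPHard.Split

/-!
The bound for two morphisms over an arbitrary alphabet.
-/

namespace PCPHard

theorem exists_minimal {α : Type} (x y u v : List α)
    (h : ∃ w : List Bool, w ≠ [] ∧ mor x y w = mor u v w) :
    ∃ w : List Bool, w ≠ [] ∧ mor x y w = mor u v w ∧
      ∀ w', w' ≠ [] → mor x y w' = mor u v w' → w.length ≤ w'.length := by
  classical
  have h' : ∃ n : ℕ, ∃ w : List Bool, w ≠ [] ∧ mor x y w = mor u v w ∧ w.length = n := by
    obtain ⟨w, h1, h2⟩ := h
    exact ⟨w.length, w, h1, h2, rfl⟩
  obtain ⟨w, h1, h2, h3⟩ := Nat.find_spec h'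
  refine ⟨w, h1, h2, fun w' h4 h5 => ?_⟩
  rw [h3]
  exact Nat.find_min' h' ⟨w', h4, h5, rfl⟩

/-- the statement to be proved, for total length at most `n` -/
def Claim (n : ℕ) : Prop :=
  ∀ (α : Type) (x y u v : List α), x.length + y.length + u.length + v.length ≤ n →
    x ≠ [] → y ≠ [] → u ≠ [] → v ≠ [] →
    (∃ w : List Bool, w ≠ [] ∧ mor x y w = mor u v w) →
    ∀ M : ℕ, x.length ≤ M → y.length ≤ M → u.length ≤ M → v.length ≤ M →
    ∃ w : List Bool, w ≠ [] ∧ mor x y w = mor u v w ∧ w.length ≤ max 1 (2 * M - 2)

theorem main_case (n : ℕ) (IH : Claim n) {α : Type} (x y u v : List α)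
    (hlen : x.length + y.length + u.length + v.length ≤ n + 1)
    (hx : x ≠ []) (hy : y ≠ []) (hu : u ≠ []) (hv : v ≠ [])
    (hxu : u.length < x.length) (hyv : y.length < v.length)
    (hex : ∃ w : List Bool, w ≠ [] ∧ mor x y w = mor u v w)
    (M : ℕ) (hxM : x.length ≤ M) (hvM : v.length ≤ M) :
    ∃ w : List Bool, w ≠ [] ∧ mor x y w = mor u v w ∧ w.length ≤ max 1 (2 * M - 2) := by
  classical
  obtain ⟨w, hw, hsol, hmin⟩ := exists_minimal x y u v hex
  refine ⟨w, hw, hsol, ?_⟩
  have hu1 := List.length_pos_of_ne_nil hu
  have hy1 := List.length_pos_of_ne_nil hy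
  set P := x.length - u.length with hP
  set Q := v.length - y.length with hQ
  have hPpos : 0 < P := by omega
  have hQpos : 0 < Q := by omega
  set d := Nat.gcd P Q with hd
  have hdpos : 0 < d := Nat.gcd_pos_of_pos_left _ hPpos
  obtain ⟨p, hp⟩ := Nat.gcd_dvd_left P Q
  obtain ⟨q, hq⟩ := Nat.gcd_dvd_right P Q
  rw [← hd] at hp hq
  have hppos : 0 < p := by
    rcases Nat.eq_zero_or_pos p with h | h
    · rw [h, mul_zero] at hp; omega
    · exact h
  have hqpos : 0 < q := by
    rcases Nat.eq_zero_or_pos q with h | h
    · rw [h, mul_zero] at hq; omega
    · exact h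
  have hcop : Nat.Coprime p q := by
    have h1 : Nat.gcd (d * p) (d * q) = d := by rw [← hp, ← hq]
    rw [Nat.gcd_mul_left] at h1
    exact Nat.eq_of_mul_eq_mul_left hdpos (by rw [mul_one]; exact h1)
  have hxu' : x.length = u.length + d * p := by omega
  have hvy' : v.length = y.length + d * q := by omega
  -- letter counts
  have hlenE := congrArg List.length hsol
  rw [length_mor, length_mor, hxu', hvy'] at hlenE
  have hAB : w.count true * p = w.count false * q := by
    apply Nat.eq_of_mul_eq_mul_left hdpos
    nlinarith
  obtain ⟨k, hk⟩ : q ∣ w.count true := hcop.symm.dvd_of_dvd_mul_right (hAB ▸ dvd_mul_left _ _)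
  have hB : w.count false = k * p := by
    apply Nat.eq_of_mul_eq_mul_right hqpos
    rw [← hAB, hk]; ring
  have hA : w.count true = k * q := by rw [hk]; ring
  have hwlen : w.length = k * (p + q) := by
    rw [← List.count_true_add_count_false w, hA, hB]; ring
  have hkpos : 0 < k := by
    rcases Nat.eq_zero_or_pos k with h | h
    · rw [h, zero_mul] at hwlen
      exact absurd (List.length_eq_zero_iff.1 hwlen) hw
    · exact h
  have hPQ : d * (p + q) ≤ 2 * M - 2 := by
    rw [mul_add, ← hp, ← hq]; omega
  rcases Nat.lt_or_ge d k with hdk | hdk
  swap
  · have : k * (p + q) ≤ d * (p + q) := Nat.mul_le_mul_right _ hdk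
    rw [hwlen]; omega
  have hk2 : 2 ≤ k := by omega
  -- `d ≥ 2`
  have hd2 : 2 ≤ d := by
    by_contra hc
    have hd1 : d = 1 := by omega
    let D : Dat α :=
      { x := x, y := y, u := u, v := v, w := w, p := p, q := q, d := d, k := k
        F := fun _ => 0, sg := 0, sh := 0, hy := hy, hu := hu, hp := hppos, hq := hqpos
        hd := hdpos, hk := hkpos, cop := hcop, hxu := hxu', hvy := hvy', hA := hA, hB := hB
        sol := hsol, min := hmin
        Fx := by rw [psi_zero]; ring
        Fy := by rw [psi_zero]; ring
        Fu := by rw [psi_zero]; ring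
        Fv := by rw [psi_zero]; ring }
    have : D.k = 1 := D.k_one hd1
    have h2 : D.k = k := rfl
    omega
  have hkq : 0 < k * q := Nat.mul_pos hkpos hqpos
  have hkp : 0 < k * p := Nat.mul_pos hkpos hppos
  have hmt : true ∈ w := List.count_pos_iff.1 (by omega)
  have hmf : false ∈ w := List.count_pos_iff.1 (by omega)
  have hsub : ∀ (s t : List α) (c : Bool), c ∈ w → ∀ e ∈ blk s t c, e ∈ mor s t w := by
    intro s t c hc e he
    exact List.mem_flatMap.2 ⟨c, hc, he⟩
  set W := mor x y w with hW
  have hWne : W ≠ [] := by
    intro h
    obtain ⟨e, l, hel⟩ := List.exists_cons_of_ne_nil hx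
    have := hsub x y true hmt e (by rw [Dat.blk_true, hel]; simp)
    rw [← hW, h] at this
    simp at this
  obtain ⟨c, l, hcl⟩ := List.exists_cons_of_ne_nil hWne
  by_cases hun : ∀ e ∈ W, e = c
  · -- unary word
    exfalso
    have rx : x = List.replicate x.length c := List.eq_replicate_iff.2
      ⟨rfl, fun e he => hun e (hsub x y true hmt e he)⟩
    have ry : y = List.replicate y.length c := List.eq_replicate_iff.2
      ⟨rfl, fun e he => hun e (hsub x y false hmf e he)⟩
    have ru : u = List.replicate u.length c := List.eq_replicate_iff.2
      ⟨rfl, fun e he => hun e (by rw [hsol]; exact hsub u v true hmt e he)⟩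
    have rv : v = List.replicate v.length c := List.eq_replicate_iff.2
      ⟨rfl, fun e he => hun e (by rw [hsol]; exact hsub u v false hmf e he)⟩
    have hall : ∀ (s t : List α), (∀ e ∈ s, e = c) → (∀ e ∈ t, e = c) → ∀ w' : List Bool,
        mor s t w' = List.replicate (w'.count true * s.length + w'.count false * t.length) c := by
      intro s t hs ht w'
      rw [List.eq_replicate_iff, length_mor]
      refine ⟨rfl, fun e he => ?_⟩
      obtain ⟨b, _, hb⟩ := List.mem_flatMap.1 he
      cases b
      · exact ht e hb
      · exact hs e hb
    have h1 := hmin (List.replicate q true ++ List.replicate p false) (by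
      intro h
      have := congrArg List.length h
      rw [List.length_append, List.length_replicate, List.length_replicate, List.length_nil] at this
      omega) (by
      rw [hall x y (fun e he => hun e (hsub x y true hmt e he))
        (fun e he => hun e (hsub x y false hmf e he)),
        hall u v (fun e he => hun e (by rw [hsol]; exact hsub u v true hmt e he))
        (fun e he => hun e (by rw [hsol]; exact hsub u v false hmf e he))]
      congr 1
      simp only [List.count_append, List.count_replicate]
      simp
      rw [hxu', hvy']; ring)
    rw [List.length_append, List.length_replicate, List.length_replicate, hwlen] at h1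
    nlinarith
  · -- heights counting the letter `c`
    push Not at hun
    obtain ⟨e0, he0, hec⟩ := hun
    set C : ℤ := (W.count c : ℤ) with hC
    set L : ℤ := (W.length : ℤ) with hL
    have hC1 : 0 < C := by
      have : 0 < W.count c := List.count_pos_iff.2 (by rw [hcl]; simp)
      omega
    have hC2 : C < L := by
      have h1 := List.count_le_length (a := c) (l := W)
      have h2 : W.count c ≠ W.length := by
        intro h
        rw [List.count_eq_length] at h
        exact hec (h e0 he0).symm
      omega
    set F : α → ℤ := fun e => if e = c then L - C else - C with hF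
    have hFne : ∀ e, F e ≠ 0 := by
      intro e
      simp only [hF]
      split_ifs <;> omega
    have hpsi : ∀ l : List α, psi F l = L * l.count c - C * l.length := by
      intro l
      induction l with
      | nil => simp [psi]
      | cons e l ih =>
        have h1 : psi F (e :: l) = F e + psi F l := by simp [psi]
        rw [h1, ih, List.count_cons, List.length_cons]
        simp only [hF, beq_iff_eq]
        split_ifs <;> push_cast <;> ring
    have hW0 : psi F W = 0 := by rw [hpsi]; ring
    have hcopZ : IsCoprime (p : ℤ) (q : ℤ) := Nat.isCoprime_iff_coprime.2 hcop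
    have hkZ : (k : ℤ) ≠ 0 := by omega
    have hpZ : (p : ℤ) ≠ 0 := by omega
    have solve : ∀ s t : List α, psi F (mor s t w) = 0 →
        ∃ a : ℤ, psi F s = p * a ∧ psi F t = - (q * a) := by
      intro s t h
      rw [psi_mor, hA, hB] at h
      push_cast at h
      have h1 : (q : ℤ) * psi F s = p * (- psi F t) := by
        apply mul_left_cancel₀ hkZ
        linarith
      obtain ⟨a, ha⟩ : (p : ℤ) ∣ psi F s := hcopZ.dvd_of_dvd_mul_left (h1 ▸ dvd_mul_right _ _)
      refine ⟨a, ha, ?_⟩
      have : - psi F t = q * a := by
        apply mul_left_cancel₀ hpZ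
        rw [← h1, ha]; ring
      linarith
    obtain ⟨sg, hsg1, hsg2⟩ := solve x y hW0
    obtain ⟨sh, hsh1, hsh2⟩ := solve u v (by rw [← hsol]; exact hW0)
    by_cases hflat : sg = 0 ∧ sh = 0
    · -- recode
      rw [hflat.1, mul_zero] at hsg1
      rw [hflat.1, mul_zero, neg_zero] at hsg2
      rw [hflat.2, mul_zero] at hsh1
      rw [hflat.2, mul_zero, neg_zero] at hsh2
      have lx := split_length F hFne x
      have ly := split_length F hFne y
      have lu := split_length F hFne u
      have lv := split_length F hFne v
      have hx1 := List.length_pos_of_ne_nil hx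
      obtain ⟨w', g1, g2, g3⟩ := IH (List α) (split F x) (split F y) (split F u) (split F v)
        (by omega) (split_ne F hsg1 hx) (split_ne F hsg2 hy) (split_ne F hsh1 hu)
        (split_ne F hsh2 hv)
        ⟨w, hw, by rw [← split_mor F hsg1 hsg2, ← split_mor F hsh1 hsh2, ← hW, hsol]⟩
        M (by omega) (by omega) (by omega) (by omega)
      have g4 := congrArg List.flatten g2
      rw [mor_flatten, mor_flatten, split_flatten F hsg1, split_flatten F hsg2,
        split_flatten F hsh1, split_flatten F hsh2] at g4
      exact (hmin w' g1 g4).trans g3
    · have hne : sg ≠ 0 ∨ sh ≠ 0 := by tauto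
      let D : Dat α :=
        { x := x, y := y, u := u, v := v, w := w, p := p, q := q, d := d, k := k
          F := F, sg := sg, sh := sh, hy := hy, hu := hu, hp := hppos, hq := hqpos
          hd := hdpos, hk := hkpos, cop := hcop, hxu := hxu', hvy := hvy', hA := hA, hB := hB
          sol := hsol, min := hmin, Fx := hsg1, Fy := hsg2, Fu := hsh1, Fv := hsh2 }
      have key := D.bound hk2 hd2 hne
      have key' : w.length + 2 ≤ x.length + v.length ∨ w.length + 2 ≤ 2 * v.length ∨
        w.length + 2 ≤ 2 * x.length ∨ k ≤ 2 := key
      omega

theorem claim_all : ∀ n, Claim n := by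
  intro n
  induction n with
  | zero =>
    intro α x y u v hlen hx
    have := List.length_pos_of_ne_nil hx
    omega
  | succ n IH =>
    intro α x y u v hlen hx hy hu hv hex M hxM hyM huM hvM
    obtain ⟨w, hw, hsol⟩ := hex
    have hlenE := congrArg List.length hsol
    rw [length_mor, length_mor] at hlenE
    have hsing : ∀ c : Bool, blk x y c = blk u v c →
        ∃ w : List Bool, w ≠ [] ∧ mor x y w = mor u v w ∧ w.length ≤ max 1 (2 * M - 2) := by
      intro c hc
      refine ⟨[c], by simp, ?_, by simp⟩
      rw [mor_cons, mor_cons, hc, mor_nil, mor_nil]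
    -- first letter
    obtain ⟨c, w', rfl⟩ := List.exists_cons_of_ne_nil hw
    have hfirst : (blk x y c).length = (blk u v c).length → blk x y c = blk u v c := by
      intro h
      rw [mor_cons, mor_cons] at hsol
      exact (List.append_inj hsol h).1
    have hpos : 0 < (c :: w').count true + (c :: w').count false := by
      rw [List.count_true_add_count_false]; simp
    have hc1 : c = true → 0 < (c :: w').count true := by
      intro h; subst h; rw [List.count_cons_self]; omega
    have hc2 : c = false → 0 < (c :: w').count false := by
      intro h; subst h; rw [List.count_cons_self]; omega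
    rcases lt_trichotomy x.length u.length with h1 | h1 | h1
    · rcases lt_trichotomy y.length v.length with h2 | h2 | h2
      · exfalso
        have a1 : (c :: w').count true * x.length ≤ (c :: w').count true * u.length :=
          Nat.mul_le_mul_left _ h1.le
        have a2 : (c :: w').count false * y.length ≤ (c :: w').count false * v.length :=
          Nat.mul_le_mul_left _ h2.le
        rcases Nat.eq_zero_or_pos ((c :: w').count true) with h3 | h3
        · have : (c :: w').count false * y.length < (c :: w').count false * v.length :=
            Nat.mul_lt_mul_of_pos_left h2 (by omega)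
          omega
        · have : (c :: w').count true * x.length < (c :: w').count true * u.length :=
            Nat.mul_lt_mul_of_pos_left h1 h3
          omega
      · -- |y| = |v|
        have h3 : (c :: w').count true = 0 := by
          by_contra hne
          have : (c :: w').count true * x.length < (c :: w').count true * u.length :=
            Nat.mul_lt_mul_of_pos_left h1 (by omega)
          rw [h2] at hlenE
          omega
        have h4 : c = false := by
          cases c
          · rfl
          · exact absurd (hc1 rfl) (by omega)
        subst h4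
        exact hsing false (hfirst h2)
      · obtain ⟨w2, b1, b2, b3⟩ := main_case n IH u v x y (by omega) hu hv hx hy h1 h2
          ⟨c :: w', hw, hsol.symm⟩ M huM hyM
        exact ⟨w2, b1, b2.symm, b3⟩
    · rcases (show c = true ∨ c = false by cases c <;> simp) with h2 | h2
      · subst h2
        exact hsing true (hfirst h1)
      · have h3 : (c :: w').count false * y.length = (c :: w').count false * v.length := by
          rw [h1] at hlenE; omega
        have h4 : y.length = v.length := Nat.eq_of_mul_eq_mul_left (hc2 h2) h3
        subst h2
        exact hsing false (hfirst h4)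
    · rcases lt_trichotomy y.length v.length with h2 | h2 | h2
      · exact main_case n IH x y u v (by omega) hx hy hu hv h1 h2 ⟨c :: w', hw, hsol⟩ M hxM hvM
      · have h3 : (c :: w').count true = 0 := by
          by_contra hne
          have : (c :: w').count true * u.length < (c :: w').count true * x.length :=
            Nat.mul_lt_mul_of_pos_left h1 (by omega)
          rw [h2] at hlenE
          omega
        have h4 : c = false := by
          cases c
          · rfl
          · exact absurd (hc1 rfl) (by omega)
        subst h4
        exact hsing false (hfirst h2)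
      · exfalso
        have a1 : (c :: w').count true * u.length ≤ (c :: w').count true * x.length :=
          Nat.mul_le_mul_left _ h1.le
        have a2 : (c :: w').count false * v.length ≤ (c :: w').count false * y.length :=
          Nat.mul_le_mul_left _ h2.le
        rcases Nat.eq_zero_or_pos ((c :: w').count true) with h3 | h3
        · have : (c :: w').count false * v.length < (c :: w').count false * y.length :=
            Nat.mul_lt_mul_of_pos_left h2 (by omega)
          omega
        · have : (c :: w').count true * u.length < (c :: w').count true * x.length :=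
            Nat.mul_lt_mul_of_pos_left h1 h3
          omega

/-- two morphisms: a shortest solution has length at most `max 1 (2M-2)` -/
theorem bound {α : Type} (x y u v : List α) (hx : x ≠ []) (hy : y ≠ []) (hu : u ≠ [])
    (hv : v ≠ []) (hex : ∃ w : List Bool, w ≠ [] ∧ mor x y w = mor u v w)
    (M : ℕ) (h1 : x.length ≤ M) (h2 : y.length ≤ M) (h3 : u.length ≤ M) (h4 : v.length ≤ M) :
    ∃ w : List Bool, w ≠ [] ∧ mor x y w = mor u v w ∧ w.length ≤ max 1 (2 * M - 2) :=
  claim_all _ α x y u v le_rfl hx hy hu hv hex M h1 h2 h3 h4

end PCPHard
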