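import Pool.Agent.PCPHard.CaseA
import Pool.Agent.PCPHard.CaseB2

namespace PCPHard

theorem arith (k p q d Y : ℤ) (hp : 2 ≤ p) (hq : p + 1 ≤ q) (hd : 2 ≤ d)
    (hY : d * (p + q) ≤ Y) (h : d * (k * p * q) ≤ 2 * Y + d * ((p - 1) * p)) :
    k * (p + q) ≤ Y := by
  have hL : 0 < p + q := by omega
  have hY0 : 0 ≤ Y := le_trans (mul_nonneg (by omega) hL.le) hY
  have hpp : 0 ≤ (p - 1) * p := mul_nonneg (by omega) (by omega)
  have hpq : 0 < p * q := mul_pos (by omega) (by omega)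
  have A : d * (p + q) * ((p - 1) * p) ≤ Y * ((p - 1) * p) := mul_le_mul_of_nonneg_right hY hpp
  have B : 2 * (p + q) + (p - 1) * p ≤ 2 * (p * q) := by nlinarith
  have B2 : 2 * (p * q) ≤ d * (p * q) := mul_le_mul_of_nonneg_right hd hpq.le
  have C : Y * (2 * (p + q) + (p - 1) * p) ≤ Y * (d * (p * q)) :=
    mul_le_mul_of_nonneg_left (B.trans B2) hY0
  have D : (p + q) * (d * (k * p * q)) ≤ (p + q) * (2 * Y + d * ((p - 1) * p)) :=
    mul_le_mul_of_nonneg_left h hL.le
  have E : (d * (p * q)) * (k * (p + q)) ≤ (d * (p * q)) * Y := by nlinarith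
  exact le_of_mul_le_mul_left E (mul_pos (by omega) hpq)

namespace TP

variable (T : TP)

theorem caseB_one (hk : 2 ≤ T.k) (hd2 : 2 ≤ T.d) (hg : 0 < T.sg) (hh : 0 < T.sh) (hp : T.p = 1)
    {i0 j0 : ℤ} (hi0 : ∀ l, T.t l ≤ T.t i0) (hj0 : ∀ l, T.t j0 ≤ T.t l)
    (hpos : 0 < T.t i0) (hneg : T.t j0 < 0) (hY1 : T.d * T.t i0 ≤ T.x + T.v - 2)
    (hY2 : T.d * (- T.t j0) ≤ T.x + T.v - 2)
    (hcount : T.k * T.p * T.q ≤ T.t i0 - T.t j0) :
    T.n ≤ T.x + T.v - 2 ∨ T.n ≤ 2 * T.v - 2 ∨ T.k ≤ 2 := by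
  have hq := T.hq
  have hn : T.n = T.k * (T.p + T.q) := rfl
  rw [hp] at hn hcount
  rcases (show T.q = 1 ∨ 2 ≤ T.q by omega) with hq1 | hq2
  · exfalso
    have h1 := (T.w_zero hp hpos hneg).1
    have h2 := (T.swap.w_zero hq1 (i := j0) (j := i0) (show 0 < - T.t j0 by omega)
      (show - T.t i0 < 0 by omega)).1
    replace h2 : (!T.w 0) = true := h2
    rw [h1] at h2
    exact absurd h2 (by simp)
  · rw [mul_one] at hcount
    rcases (show T.d = 2 ∨ 3 ≤ T.d by omega) with h2 | h3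
    · rcases (show T.k ≤ 2 ∨ 3 ≤ T.k by omega) with hk2 | hk3
      · exact Or.inr (Or.inr hk2)
      · have hbig : 6 ≤ T.k * T.q := by nlinarith
        obtain ⟨e1, e2⟩ := T.exceptional hg hh hp h2 hbig hi0 hj0 hpos hneg
        have key := T.rev.exceptional hg hh hp h2 hbig (i0 := - j0) (j0 := - i0)
          (fun l => show - T.t (- l) ≤ - T.t (- - j0) by
            rw [neg_neg]; exact neg_le_neg (hj0 _))
          (fun l => show - T.t (- - i0) ≤ - T.t (- l) by
            rw [neg_neg]; exact neg_le_neg (hi0 _))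
          (show 0 < - T.t (- - j0) by rw [neg_neg]; omega)
          (show - T.t (- - i0) < 0 by rw [neg_neg]; omega)
        have e3 : T.d * - T.t (- - j0) ≤ T.v := key.1
        rw [neg_neg] at e3
        right; left
        have hvy := T.hvy
        have hy := T.hy
        rw [h2] at e1 e3 hvy
        have : 2 * T.k ≤ T.k * T.q := by nlinarith
        rw [hn, mul_add, mul_one]
        omega
    · left
      have h5 : 3 * (T.k * T.q) ≤ T.d * (T.k * T.q) :=
        mul_le_mul_of_nonneg_right h3 (mul_nonneg (by omega) (by omega))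
      have h6 : T.d * (T.k * T.q) ≤ T.d * (T.t i0 - T.t j0) :=
        mul_le_mul_of_nonneg_left hcount (by omega)
      have h7 : 2 * T.k ≤ T.k * T.q := by nlinarith
      rw [hn, mul_add, mul_one]
      rw [mul_sub] at h6
      rw [mul_neg] at hY2
      omega

theorem caseB_pos (hk : 2 ≤ T.k) (hd2 : 2 ≤ T.d) (hg : 0 < T.sg) (hh : 0 < T.sh)
    {i0 : ℤ} (hi0 : ∀ l, T.t l ≤ T.t i0) (hpos : 0 < T.t i0) :
    T.n ≤ T.x + T.v - 2 ∨ T.n ≤ 2 * T.v - 2 ∨ T.n ≤ 2 * T.x - 2 ∨ T.k ≤ 2 := by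
  obtain ⟨j0, hj0⟩ := T.exBot
  have hp := T.hp
  have hq := T.hq
  have hY := T.Y_ge
  have hY1 := T.top_le hg hh hi0 hpos
  have hn : T.n = T.k * (T.p + T.q) := rfl
  rcases (T.bot_nonpos hj0).lt_or_eq with hneg | hzero
  · -- two-sided
    have hY2 : T.d * (- T.t j0) ≤ T.x + T.v - 2 := by
      have key := T.rev.top_le (i0 := - j0) hg hh
        (fun l => show - T.t (- l) ≤ - T.t (- - j0) by
          rw [neg_neg]; exact neg_le_neg (hj0 _))
        (show 0 < - T.t (- - j0) by rw [neg_neg]; omega)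
      replace key : T.d * - T.t (- - j0) ≤ T.x + T.v - 2 := key
      rw [neg_neg] at key; exact key
    set m := (min T.p T.q - 1).toNat with hm
    have hmc : (m : ℤ) = min T.p T.q - 1 := Int.toNat_of_nonneg (by omega)
    have hcount := T.count hg hh hi0 hj0 hpos m m
      (fun i h1 h2 h3 h4 => by
        have h5 := T.peakK hg hh h1 h2 h3 h4
        rw [hmc]; omega)
      (fun i h1 h2 h3 h4 => by
        have h5 := T.valleyK hg hh h1 h2 h3 h4
        rw [hmc]; omega)
    rw [hmc] at hcount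
    rcases (show T.p = 1 ∨ T.q = 1 ∨ (2 ≤ T.p ∧ 2 ≤ T.q) by omega) with h1 | h1 | ⟨h1, h2⟩
    · rw [show min T.p T.q = 1 by omega] at hcount
      have hc : T.k * T.p * T.q ≤ T.t i0 - T.t j0 := by linarith
      rcases T.caseB_one hk hd2 hg hh h1 hi0 hj0 hpos hneg hY1 hY2 hc with h | h | h
      · exact Or.inl h
      · exact Or.inr (Or.inl h)
      · exact Or.inr (Or.inr (Or.inr h))
    · rw [show min T.p T.q = 1 by omega] at hcount
      have hc : T.k * T.p * T.q ≤ T.t i0 - T.t j0 := by linarith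
      have key := T.swap.neg.caseB_one hk hd2 (show 0 < - - T.sh by omega)
        (show 0 < - - T.sg by omega) h1 (i0 := j0) (j0 := i0)
        (fun l => neg_le_neg (hj0 l)) (fun l => neg_le_neg (hi0 l))
        (show 0 < - T.t j0 by omega) (show - T.t i0 < 0 by omega)
        (show T.d * (- T.t j0) ≤ T.v + T.x - 2 by linarith)
        (show T.d * (- - T.t i0) ≤ T.v + T.x - 2 by rw [neg_neg]; linarith)
        (show T.k * T.q * T.p ≤ - T.t j0 - - T.t i0 by
          rw [mul_assoc, mul_comm T.q T.p, ← mul_assoc]; linarith)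
      replace key : T.k * (T.q + T.p) ≤ T.v + T.x - 2 ∨ T.k * (T.q + T.p) ≤ 2 * T.x - 2 ∨
        T.k ≤ 2 := key
      rw [add_comm T.q T.p] at key
      rcases key with h | h | h
      · left; rw [hn]; omega
      · right; right; left; exact h
      · right; right; right; exact h
    · left
      have hsum : T.d * (T.k * T.p * T.q) ≤ 2 * (T.x + T.v - 2)
          + T.d * ((min T.p T.q - 1) * min T.p T.q) := by
        have h3 : T.k * T.p * T.q ≤ T.t i0 + (- T.t j0) + (min T.p T.q - 1) * min T.p T.q := by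
          nlinarith
        have h4 := mul_le_mul_of_nonneg_left h3 T.hd.le
        rw [mul_add, mul_add] at h4
        linarith
      rcases lt_trichotomy T.p T.q with h | h | h
      · rw [show min T.p T.q = T.p by omega] at hsum
        exact arith T.k T.p T.q T.d _ h1 (by omega) hd2 hY hsum
      · have := T.hpq h; omega
      · rw [show min T.p T.q = T.q by omega] at hsum
        have := arith T.k T.q T.p T.d (T.x + T.v - 2) h2 (by omega) hd2
          (by rw [add_comm T.q T.p]; exact hY)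
          (by rw [show T.k * T.q * T.p = T.k * T.p * T.q by ring]; exact hsum)
        rw [add_comm T.q T.p] at this
        exact this
  · left
    have hcount := T.count hg hh hi0 hj0 hpos 0 0
      (fun i h1 h2 h3 h4 => by
        exfalso
        have h5 := (T.peakK hg hh h1 h2 h3 h4).2.2
        have h6 := hj0 (i + 1)
        have h7 := hj0 (i - 1)
        omega)
      (fun i h1 h2 h3 h4 => by omega)
    rw [hzero] at hcount
    have h1 : T.k * T.p * T.q ≤ T.t i0 := by push_cast at hcount; linarith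
    have h2 : T.d * (T.k * T.p * T.q) ≤ T.d * T.t i0 := mul_le_mul_of_nonneg_left h1 T.hd.le
    have h3 : T.p + T.q ≤ 2 * (T.p * T.q) := by nlinarith
    have h4 : 0 ≤ T.k * T.p * T.q := mul_nonneg (mul_nonneg T.hk.le hp.le) hq.le
    have h5 : 2 * (T.k * T.p * T.q) ≤ T.d * (T.k * T.p * T.q) :=
      mul_le_mul_of_nonneg_right hd2 h4
    have h6 : T.k * (T.p + T.q) ≤ T.k * (2 * (T.p * T.q)) :=
      mul_le_mul_of_nonneg_left h3 T.hk.le
    rw [hn]
    nlinarith

theorem caseB (hk : 2 ≤ T.k) (hd2 : 2 ≤ T.d) (hg : 0 < T.sg) (hh : 0 < T.sh) :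
    T.n ≤ T.x + T.v - 2 ∨ T.n ≤ 2 * T.v - 2 ∨ T.n ≤ 2 * T.x - 2 ∨ T.k ≤ 2 := by
  obtain ⟨i0, hi0⟩ := T.exTop
  rcases (T.top_nonneg hi0).lt_or_eq with h | h
  · exact T.caseB_pos hk hd2 hg hh hi0 h
  · obtain ⟨j0, hj0⟩ := T.exBot
    have hsp := T.span_ge hk hi0 hj0
    have hp := T.hp
    have hq := T.hq
    exact T.rev.caseB_pos hk hd2 hg hh (i0 := - j0)
      (fun l => show - T.t (- l) ≤ - T.t (- - j0) by
        rw [neg_neg]; exact neg_le_neg (hj0 _))
      (show 0 < - T.t (- - j0) by rw [neg_neg]; omega)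

theorem main_pos (hk : 2 ≤ T.k) (hd2 : 2 ≤ T.d) (hg : 0 < T.sg) :
    T.n ≤ T.x + T.v - 2 ∨ T.n ≤ 2 * T.v - 2 ∨ T.n ≤ 2 * T.x - 2 ∨ T.k ≤ 2 := by
  rcases lt_trichotomy T.sh 0 with h | h | h
  · exact Or.inl (T.caseA hk hg h)
  · rcases T.caseC hk hg h with h | h
    · exact Or.inl h
    · exact Or.inr (Or.inr (Or.inr h))
  · exact T.caseB hk hd2 hg h

theorem main (hk : 2 ≤ T.k) (hd2 : 2 ≤ T.d) (hne : T.sg ≠ 0 ∨ T.sh ≠ 0) :
    T.n ≤ T.x + T.v - 2 ∨ T.n ≤ 2 * T.v - 2 ∨ T.n ≤ 2 * T.x - 2 ∨ T.k ≤ 2 := by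
  have hn : T.n = T.k * (T.p + T.q) := rfl
  rcases lt_trichotomy T.sg 0 with h | h | h
  · exact T.neg.main_pos hk hd2 (show 0 < - T.sg by omega)
  · rcases lt_trichotomy T.sh 0 with h' | h' | h'
    · have key := T.swap.main_pos hk hd2 (show 0 < - T.sh by omega)
      replace key : T.k * (T.q + T.p) ≤ T.v + T.x - 2 ∨ T.k * (T.q + T.p) ≤ 2 * T.x - 2 ∨
        T.k * (T.q + T.p) ≤ 2 * T.v - 2 ∨ T.k ≤ 2 := key
      rw [add_comm T.q T.p] at key
      rw [hn]; omega
    · exact absurd h' (by rcases hne with h1 | h1 <;> [exact absurd h h1; exact h1])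
    · have key := T.neg.swap.main_pos hk hd2 (show 0 < - - T.sh by omega)
      replace key : T.k * (T.q + T.p) ≤ T.v + T.x - 2 ∨ T.k * (T.q + T.p) ≤ 2 * T.x - 2 ∨
        T.k * (T.q + T.p) ≤ 2 * T.v - 2 ∨ T.k ≤ 2 := key
      rw [add_comm T.q T.p] at key
      rw [hn]; omega
  · exact T.main_pos hk hd2 h

end TP

end PCPHard
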