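import Pool.Agent.PCPHard.ToTP

/-!
Recoding by first-return words, the case `d = 1`, the unary case.
-/

namespace PCPHard

variable {α : Type}

/-- first-return decomposition -/
def splitAux (F : α → ℤ) : List α → ℤ → List α → List (List α)
  | _, _, [] => []
  | cur, h, c :: l =>
    if h + F c = 0 then (cur ++ [c]) :: splitAux F [] 0 l
    else splitAux F (cur ++ [c]) (h + F c) l

def split (F : α → ℤ) (l : List α) : List (List α) := splitAux F [] 0 l

theorem splitAux_flatten (F : α → ℤ) (l : List α) : ∀ (cur : List α) (h : ℤ),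
    (h = 0 → cur = []) → h + psi F l = 0 → (splitAux F cur h l).flatten = cur ++ l := by
  induction l with
  | nil =>
    intro cur h h1 h2
    have h3 : h = 0 := by simpa [psi] using h2
    rw [h1 h3]; simp [splitAux]
  | cons c l ih =>
    intro cur h h1 h2
    have h3 : psi F (c :: l) = F c + psi F l := by simp [psi]
    rw [h3] at h2
    rw [splitAux]
    split_ifs with h4
    · rw [List.flatten_cons, ih [] 0 (fun _ => rfl) (by omega)]; simp
    · rw [ih (cur ++ [c]) (h + F c) (fun h5 => absurd h5 h4) (by omega)]; simp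

theorem splitAux_append (F : α → ℤ) (l l' : List α) : ∀ (cur : List α) (h : ℤ),
    (h = 0 → cur = []) → h + psi F l = 0 →
    splitAux F cur h (l ++ l') = splitAux F cur h l ++ splitAux F [] 0 l' := by
  induction l with
  | nil =>
    intro cur h h1 h2
    have h3 : h = 0 := by simpa [psi] using h2
    rw [h1 h3, h3]; simp [splitAux]
  | cons c l ih =>
    intro cur h h1 h2
    have h3 : psi F (c :: l) = F c + psi F l := by simp [psi]
    rw [h3] at h2
    rw [List.cons_append, splitAux, splitAux]
    split_ifs with h4
    · rw [ih [] 0 (fun _ => rfl) (by omega)]; rfl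
    · rw [ih (cur ++ [c]) (h + F c) (fun h5 => absurd h5 h4) (by omega)]

theorem splitAux_length (F : α → ℤ) (hF : ∀ c, F c ≠ 0) (l : List α) :
    ∀ (cur : List α) (h : ℤ), (cur = [] → h = 0) →
    2 * (splitAux F cur h l).length ≤ cur.length + l.length := by
  induction l with
  | nil => intro cur h _; simp [splitAux]
  | cons c l ih =>
    intro cur h h1
    rw [splitAux]
    split_ifs with h4
    · have h5 := ih [] 0 (fun _ => rfl)
      have h6 : cur ≠ [] := by
        intro h7
        rw [h1 h7, zero_add] at h4
        exact hF c h4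
      have h7 := List.length_pos_of_ne_nil h6
      rw [List.length_cons, List.length_cons]
      rw [List.length_nil] at h5
      omega
    · have h5 := ih (cur ++ [c]) (h + F c) (fun h6 => by simp at h6)
      rw [List.length_append, List.length_singleton] at h5
      rw [List.length_cons]
      omega

theorem split_flatten (F : α → ℤ) {l : List α} (h : psi F l = 0) : (split F l).flatten = l := by
  have := splitAux_flatten F l [] 0 (fun _ => rfl) (by omega)
  simpa [split] using this

theorem split_append (F : α → ℤ) {l : List α} (l' : List α) (h : psi F l = 0) :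
    split F (l ++ l') = split F l ++ split F l' :=
  splitAux_append F l l' [] 0 (fun _ => rfl) (by omega)

theorem split_length (F : α → ℤ) (hF : ∀ c, F c ≠ 0) (l : List α) :
    2 * (split F l).length ≤ l.length := by
  have := splitAux_length F hF l [] 0 (fun _ => rfl)
  simpa [split] using this

theorem split_ne (F : α → ℤ) {l : List α} (h : psi F l = 0) (hl : l ≠ []) : split F l ≠ [] := by
  intro h1
  have := split_flatten F h
  rw [h1] at this
  exact hl (by simpa using this.symm)

theorem split_mor (F : α → ℤ) {x y : List α} (hx : psi F x = 0) (hy : psi F y = 0)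
    (w : List Bool) : split F (mor x y w) = mor (split F x) (split F y) w := by
  induction w with
  | nil => simp [mor, split, splitAux]
  | cons c w ih =>
    rw [mor_cons, mor_cons, split_append F _ (by cases c <;> simp [blk, hx, hy]), ih]
    congr 1
    cases c <;> simp [blk]

theorem mor_flatten {x y : List (List α)} (w : List Bool) :
    (mor x y w).flatten = mor x.flatten y.flatten w := by
  induction w with
  | nil => simp [mor]
  | cons c w ih =>
    rw [mor_cons, mor_cons, List.flatten_append, ih]
    congr 1
    cases c <;> simp [blk]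

theorem psi_zero (l : List α) : psi (fun _ : α => (0 : ℤ)) l = 0 := by
  simp [psi]

/-- words of equal length whose letter counts are proportional to the length -/
theorem same_of_counts [DecidableEq α] {s s' : List α} {ℓ : ℕ} (hs : s.length = ℓ)
    (hs' : s'.length = ℓ) (hpos : 0 < ℓ)
    (h : ∀ c, ∃ a : ℤ, (s.count c : ℤ) = ℓ * a ∧ (s'.count c : ℤ) = ℓ * a) : s = s' := by
  have hne : s ≠ [] := by
    intro h1; rw [h1] at hs; simp at hs; omega
  obtain ⟨c, l, rfl⟩ := List.exists_cons_of_ne_nil hne
  obtain ⟨a, h1, h2⟩ := h c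
  have h3 : 0 < (c :: l).count c := by rw [List.count_cons_self]; omega
  have h4 : 0 < a := by
    by_contra hc
    have : (ℓ : ℤ) * a ≤ 0 := mul_nonpos_of_nonneg_of_nonpos (by omega) (not_lt.mp hc)
    omega
  have h5 : (ℓ : ℤ) * 1 ≤ ℓ * a := mul_le_mul_of_nonneg_left (by omega) (by omega)
  have h6 : (c :: l).count c = (c :: l).length := by
    have := List.count_le_length (a := c) (l := c :: l)
    omega
  have h7 : s'.count c = s'.length := by
    have := List.count_le_length (a := c) (l := s')
    omega
  rw [List.count_eq_length] at h6 h7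
  rw [List.eq_replicate_iff.2 ⟨rfl, fun b hb => (h6 b hb).symm⟩,
    List.eq_replicate_iff.2 ⟨rfl, fun b hb => (h7 b hb).symm⟩, hs, hs']

/-- overflow word -/
theorem overflow (x y u v : List α) (w : List Bool) (hsol : mor x y w = mor u v w) {r ℓ : ℕ}
    (e1 : (mor x y (w.take r)).length = (mor u v (w.take r)).length + ℓ) :
    ∃ s : List α, s.length = ℓ ∧ mor x y (w.take r) = mor u v (w.take r) ++ s ∧
      ∀ e, e < ℓ → (mor u v w)[(mor u v (w.take r)).length + e]? = s[e]? := by
  refine ⟨((mor u v w).drop (mor u v (w.take r)).length).take ℓ, ?_, ?_, ?_⟩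
  · have h1 : (mor x y (w.take r)).length ≤ (mor x y w).length := by
      rw [mor_take x y w r]; exact List.length_take_le' _ _
    rw [hsol] at h1
    rw [List.length_take, List.length_drop]
    omega
  · conv_lhs => rw [mor_take x y w r, hsol, e1, List.take_add, ← mor_take u v w r]
  · intro e he
    rw [List.getElem?_take, if_pos he, List.getElem?_drop]

namespace Dat

variable (D : Dat α)

theorem count_diff [DecidableEq α] (c : α) : ∃ a : ℤ, ∀ r,
    ((mor D.x D.y (D.w.take r)).count c : ℤ) - ((mor D.u D.v (D.w.take r)).count c : ℤ)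
      = D.t0 r * a := by
  have h := congrArg (fun l => (l.count c : ℤ)) D.sol
  simp only [count_mor, D.hA, D.hB] at h
  push_cast at h
  have hk : (D.k : ℤ) ≠ 0 := by have := D.hk; omega
  have h1 : (D.q : ℤ) * ((D.x.count c : ℤ) - D.u.count c)
      = D.p * ((D.v.count c : ℤ) - D.y.count c) := by
    apply mul_left_cancel₀ hk
    linarith
  have hcop : IsCoprime (D.p : ℤ) (D.q : ℤ) := Nat.isCoprime_iff_coprime.2 D.cop
  have h2 : (D.p : ℤ) ∣ (D.x.count c : ℤ) - D.u.count c :=
    hcop.dvd_of_dvd_mul_left (h1 ▸ dvd_mul_right _ _)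
  obtain ⟨a, ha⟩ := h2
  have hp : (D.p : ℤ) ≠ 0 := by have := D.hp; omega
  have hb : (D.v.count c : ℤ) - D.y.count c = D.q * a := by
    apply mul_left_cancel₀ hp
    rw [← h1, ha]; ring
  refine ⟨a, fun r => ?_⟩
  rw [count_mor, count_mor]
  push_cast
  have e1 : (D.x.count c : ℤ) = D.u.count c + D.p * a := by linarith
  have e2 : (D.v.count c : ℤ) = D.y.count c + D.q * a := by linarith
  rw [e1, e2, t0]; ring

theorem strong [DecidableEq α] (hd : D.d = 1) {r r' : ℕ} (hrr : r < r') (hr' : r' < D.w.length)
    (ht : D.t0 r = D.t0 r') (hne : D.t0 r ≠ 0) : False := by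
  have g1 := D.GH0 r
  have g2 := D.GH0 r'
  rw [hd] at g1 g2
  unfold G0 H0 at g1 g2
  rw [← ht] at g2
  push_cast at g1 g2
  rw [one_mul] at g1 g2
  rcases lt_or_gt_of_ne hne with h | h
  · have hL : (((- D.t0 r).toNat : ℕ) : ℤ) = - D.t0 r := Int.toNat_of_nonneg (by omega)
    have e1 : (mor D.u D.v (D.w.take r)).length
        = (mor D.x D.y (D.w.take r)).length + (- D.t0 r).toNat := by omega
    have e2 : (mor D.u D.v (D.w.take r')).length
        = (mor D.x D.y (D.w.take r')).length + (- D.t0 r).toNat := by omega
    obtain ⟨s, s1, s2, s3⟩ := overflow D.u D.v D.x D.y D.w D.sol.symm e1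
    obtain ⟨s', s1', s2', s3'⟩ := overflow D.u D.v D.x D.y D.w D.sol.symm e2
    have hss : s = s' := by
      refine same_of_counts s1 s1' (by omega) (fun c => ?_)
      obtain ⟨a, ha⟩ := D.count_diff c
      have a1 := ha r
      have a2 := ha r'
      rw [s2, List.count_append] at a1
      rw [s2', List.count_append, ← ht] at a2
      push_cast at a1 a2
      refine ⟨a, ?_, ?_⟩
      · rw [hL]; linarith
      · rw [hL]; linarith
    refine uniq_core D.u D.v D.x D.y D.w D.sol.symm (fun w' h1 h2 => D.min w' h1 h2.symm)
      hrr hr' e1 e2 (fun e he => ?_)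
    rw [s3 e he, s3' e he, hss]
  · have hL : (((D.t0 r).toNat : ℕ) : ℤ) = D.t0 r := Int.toNat_of_nonneg (by omega)
    have e1 : (mor D.x D.y (D.w.take r)).length
        = (mor D.u D.v (D.w.take r)).length + (D.t0 r).toNat := by omega
    have e2 : (mor D.x D.y (D.w.take r')).length
        = (mor D.u D.v (D.w.take r')).length + (D.t0 r).toNat := by omega
    obtain ⟨s, s1, s2, s3⟩ := overflow D.x D.y D.u D.v D.w D.sol e1
    obtain ⟨s', s1', s2', s3'⟩ := overflow D.x D.y D.u D.v D.w D.sol e2
    have hss : s = s' := by
      refine same_of_counts s1 s1' (by omega) (fun c => ?_)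
      obtain ⟨a, ha⟩ := D.count_diff c
      have a1 := ha r
      have a2 := ha r'
      rw [s2, List.count_append] at a1
      rw [s2', List.count_append, ← ht] at a2
      push_cast at a1 a2
      refine ⟨a, ?_, ?_⟩
      · rw [hL]; linarith
      · rw [hL]; linarith
    refine uniq_core D.x D.y D.u D.v D.w D.sol D.min
      hrr hr' e1 e2 (fun e he => ?_)
    rw [s3 e he, s3' e he, hss]

theorem k_one (hd : D.d = 1) : D.k = 1 := by
  classical
  have h := D.toTP.strong_one ?_
  · have h' : (D.k : ℤ) = 1 := h
    exact_mod_cast h'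
  · intro i j hij hne
    change D.tz i = D.tz j at hij
    change D.tz i ≠ 0 at hne
    change (D.k : ℤ) * ((D.p : ℤ) + D.q) ∣ i - j
    rw [← D.nz]
    obtain ⟨m, r, hr, rfl⟩ := decomp D.len_pos i
    obtain ⟨m', r', hr', rfl⟩ := decomp D.len_pos j
    rw [D.tz_spec m hr.le] at hij hne
    rw [D.tz_spec m' hr'.le] at hij
    rcases lt_trichotomy r r' with h | h | h
    · exact (D.strong hd h hr' hij hne).elim
    · subst h; exact ⟨m - m', by ring⟩
    · exact (D.strong hd h hr hij.symm (hij ▸ hne)).elim

end Dat

end PCPHard
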