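import Pool.Agent.PCPHard.Build

namespace PCPHard

namespace Dat

variable {α : Type} (D : Dat α)

theorem nz : ((D.w.length : ℕ) : ℤ) = D.k * ((D.p : ℤ) + D.q) := by
  rw [D.len]; push_cast; ring

theorem blk_true (x y : List α) : blk x y true = x := rfl

theorem blk_false (x y : List α) : blk x y false = y := rfl

theorem Gz_step (i : ℤ) : D.Gz (i + 1) = D.Gz i + ((blk D.x D.y (D.wz i)).length : ℤ) := by
  obtain ⟨m, r, hr, rfl⟩ := decomp D.len_pos i
  rw [show m * (D.w.length : ℤ) + (r : ℤ) + 1 = m * D.w.length + ((r + 1 : ℕ) : ℤ) by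
    push_cast; ring, D.Gz_spec m hr, D.Gz_spec m hr.le, D.wz_spec m hr, D.G0_succ hr]
  ring

theorem Hz_step (i : ℤ) : D.Hz (i + 1) = D.Hz i + ((blk D.u D.v (D.wz i)).length : ℤ) := by
  obtain ⟨m, r, hr, rfl⟩ := decomp D.len_pos i
  rw [show m * (D.w.length : ℤ) + (r : ℤ) + 1 = m * D.w.length + ((r + 1 : ℕ) : ℤ) by
    push_cast; ring, D.Hz_spec m hr, D.Hz_spec m hr.le, D.wz_spec m hr, D.H0_succ hr]
  ring

theorem tz_step (i : ℤ) : D.tz (i + 1) = D.tz i + (if D.wz i = true then (D.p : ℤ) else - D.q) := by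
  obtain ⟨m, r, hr, rfl⟩ := decomp D.len_pos i
  rw [show m * (D.w.length : ℤ) + (r : ℤ) + 1 = m * D.w.length + ((r + 1 : ℕ) : ℤ) by
    push_cast; ring, D.tz_spec m hr, D.tz_spec m hr.le, D.wz_spec m hr, D.t0_succ hr]

theorem htz_G (i : ℤ) {o : ℤ} (h0 : 0 ≤ o) (h1 : o ≤ D.Gz (i + 1) - D.Gz i) :
    D.htz (D.Gz i + o) = D.sg * D.tz i + psi D.F ((blk D.x D.y (D.wz i)).take o.toNat) := by
  rw [D.Gz_step] at h1
  obtain ⟨m, r, hr, rfl⟩ := decomp D.len_pos i
  have ho : ((o.toNat : ℕ) : ℤ) = o := Int.toNat_of_nonneg h0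
  rw [D.wz_spec m hr] at h1 ⊢
  have := D.htz_g m hr (e := o.toNat) (by omega)
  rw [ho] at this
  exact this

theorem htz_H (i : ℤ) {o : ℤ} (h0 : 0 ≤ o) (h1 : o ≤ D.Hz (i + 1) - D.Hz i) :
    D.htz (D.Hz i + o) = D.sh * D.tz i + psi D.F ((blk D.u D.v (D.wz i)).take o.toNat) := by
  rw [D.Hz_step] at h1
  obtain ⟨m, r, hr, rfl⟩ := decomp D.len_pos i
  have ho : ((o.toNat : ℕ) : ℤ) = o := Int.toNat_of_nonneg h0
  rw [D.wz_spec m hr] at h1 ⊢
  have := D.htz_h m hr (e := o.toNat) (by omega)
  rw [ho] at this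
  exact this

/-- the two-parse structure of a shortest solution -/
def toTP : TP where
  x := D.x.length
  y := D.y.length
  u := D.u.length
  v := D.v.length
  p := D.p
  q := D.q
  d := D.d
  k := D.k
  N := D.N
  sg := D.sg
  sh := D.sh
  w := D.wz
  G := D.Gz
  H := D.Hz
  t := D.tz
  ht := D.htz
  hy := by exact_mod_cast List.length_pos_of_ne_nil D.hy
  hu := by exact_mod_cast List.length_pos_of_ne_nil D.hu
  hp := by exact_mod_cast D.hp
  hq := by exact_mod_cast D.hq
  hpq := by
    intro h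
    have h' : D.p = D.q := by exact_mod_cast h
    have := D.cop
    rw [← h', Nat.coprime_self] at this
    exact_mod_cast this
  hd := by exact_mod_cast D.hd
  hk := by exact_mod_cast D.hk
  hxu := by exact_mod_cast D.hxu
  hvy := by exact_mod_cast D.hvy
  wper := by
    intro i
    rw [← D.nz]
    obtain ⟨m, r, hr, rfl⟩ := decomp D.len_pos i
    rw [show m * (D.w.length : ℤ) + (r : ℤ) + D.w.length = (m + 1) * D.w.length + (r : ℤ) by ring,
      D.wz_spec m hr, D.wz_spec (m + 1) hr]
  Gper := by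
    intro i
    rw [← D.nz]
    obtain ⟨m, r, hr, rfl⟩ := decomp D.len_pos i
    rw [show m * (D.w.length : ℤ) + (r : ℤ) + D.w.length = (m + 1) * D.w.length + (r : ℤ) by ring,
      D.Gz_spec m hr.le, D.Gz_spec (m + 1) hr.le]
    ring
  Hper := by
    intro i
    rw [← D.nz]
    obtain ⟨m, r, hr, rfl⟩ := decomp D.len_pos i
    rw [show m * (D.w.length : ℤ) + (r : ℤ) + D.w.length = (m + 1) * D.w.length + (r : ℤ) by ring,
      D.Hz_spec m hr.le, D.Hz_spec (m + 1) hr.le]
    ring
  G0 := by
    have := D.Gz_spec 0 (r := 0) (by omega)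
    simpa [D.G0_zero] using this
  H0 := by
    have := D.Hz_spec 0 (r := 0) (by omega)
    simpa [D.H0_zero] using this
  Ga := fun i h => by rw [D.Gz_step, h, blk_true]
  Gb := fun i h => by rw [D.Gz_step, h, blk_false]
  Ha := fun i h => by rw [D.Hz_step, h, blk_true]
  Hb := fun i h => by rw [D.Hz_step, h, blk_false]
  ta := fun i h => by rw [D.tz_step, h, if_pos rfl]
  tb := fun i h => by
    rw [D.tz_step, h, if_neg (by simp)]; ring
  GH := by
    intro i
    obtain ⟨m, r, hr, rfl⟩ := decomp D.len_pos i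
    rw [D.Gz_spec m hr.le, D.Hz_spec m hr.le, D.tz_spec m hr.le, ← D.GH0]
    ring
  t0 := by
    intro i
    rw [← D.nz]
    obtain ⟨m, r, hr, rfl⟩ := decomp D.len_pos i
    rw [D.tz_spec m hr.le]
    constructor
    · intro h
      rcases Nat.eq_zero_or_pos r with h0 | h0
      · rw [h0]; simp
      · exact absurd h (D.t0_ne h0 hr)
    · intro h
      have h1 : (D.w.length : ℤ) ∣ r := by
        have := dvd_sub h (dvd_mul_left (D.w.length : ℤ) m)
        rwa [add_sub_cancel_left] at this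
      have h2 : D.w.length ∣ r := by exact_mod_cast h1
      have h3 : r = 0 := Nat.eq_zero_of_dvd_of_lt h2 hr
      rw [h3, D.t0_zero]
  U1 := by
    intro i j h1 h2 h3 h4 h5 h6 h7
    rw [← D.nz]
    refine D.uni_pos h5 h6 (fun e he0 he => ?_)
    rw [h1, h2, h3, h4, blk_true, blk_false]
    rcases lt_or_ge e (D.v.length : ℤ) with h | h
    · exact Or.inl ⟨rfl, h⟩
    · exact Or.inr ⟨rfl, by omega⟩
  U2 := by
    intro i j h1 h2 h3 h4 h5 h6 h7
    rw [← D.nz]
    refine D.uni_neg h5 h6 (fun e he0 he => ?_)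
    rw [h1, h2, h3, h4, blk_true, blk_false]
    rcases lt_or_ge e (D.x.length : ℤ) with h | h
    · exact Or.inl ⟨rfl, h⟩
    · exact Or.inr ⟨rfl, by omega⟩
  U3 := by
    intro i j h1 h2 h3 h4 h5
    rw [← D.nz]
    refine D.uni_neg h3 h4 (fun e he0 he => ?_)
    rw [h1, h2, blk_true]
    exact Or.inl ⟨rfl, by omega⟩
  U4 := by
    intro i j h1 h2 h3 h4 h5
    rw [← D.nz]
    refine D.uni_pos h3 h4 (fun e he0 he => ?_)
    rw [h1, h2, blk_true]
    exact Or.inr ⟨rfl, by omega⟩
  V3 := by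
    intro i j h1 h2 h3 h4 h5
    rw [← D.nz]
    refine D.uni_pos h3 h4 (fun e he0 he => ?_)
    rw [h1, h2, blk_false]
    exact Or.inl ⟨rfl, by omega⟩
  V4 := by
    intro i j h1 h2 h3 h4 h5
    rw [← D.nz]
    refine D.uni_neg h3 h4 (fun e he0 he => ?_)
    rw [h1, h2, blk_false]
    exact Or.inr ⟨rfl, by omega⟩
  htper := by
    intro P
    obtain ⟨m, r, hr, rfl⟩ := decomp D.N_pos P
    rw [show m * (D.N : ℤ) + (r : ℤ) + D.N = (m + 1) * D.N + (r : ℤ) by ring,
      D.htz_spec m hr.le, D.htz_spec (m + 1) hr.le]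
  htG := by
    intro i
    have h := D.htz_G i (o := 0) le_rfl (by rw [D.Gz_step]; omega)
    rw [add_zero] at h
    rw [h]; simp [psi]
  htH := by
    intro i
    have h := D.htz_H i (o := 0) le_rfl (by rw [D.Hz_step]; omega)
    rw [add_zero] at h
    rw [h]; simp [psi]
  cG := by
    intro i j hij o h0 h1
    have h1' : o ≤ D.Gz (j + 1) - D.Gz j := by
      rw [D.Gz_step] at h1 ⊢; rw [← hij]; omega
    rw [D.htz_G i h0 h1, D.htz_G j h0 h1', hij]; ring
  cH := by
    intro i j hij o h0 h1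
    have h1' : o ≤ D.Hz (j + 1) - D.Hz j := by
      rw [D.Hz_step] at h1 ⊢; rw [← hij]; omega
    rw [D.htz_H i h0 h1, D.htz_H j h0 h1', hij]; ring

theorem bound (hk : 2 ≤ D.k) (hd : 2 ≤ D.d) (hne : D.sg ≠ 0 ∨ D.sh ≠ 0) :
    D.w.length + 2 ≤ D.x.length + D.v.length ∨ D.w.length + 2 ≤ 2 * D.v.length ∨
      D.w.length + 2 ≤ 2 * D.x.length ∨ D.k ≤ 2 := by
  have key := D.toTP.main (show (2 : ℤ) ≤ D.k by exact_mod_cast hk)
    (show (2 : ℤ) ≤ D.d by exact_mod_cast hd) hne
  replace key : (D.k : ℤ) * ((D.p : ℤ) + D.q) ≤ (D.x.length : ℤ) + D.v.length - 2 ∨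
    (D.k : ℤ) * ((D.p : ℤ) + D.q) ≤ 2 * (D.v.length : ℤ) - 2 ∨
    (D.k : ℤ) * ((D.p : ℤ) + D.q) ≤ 2 * (D.x.length : ℤ) - 2 ∨ (D.k : ℤ) ≤ 2 := key
  rw [← D.nz] at key
  omega

end Dat

/-- strong uniqueness forces `k = 1` -/
theorem TP.strong_one (T : TP) (h : ∀ i j, T.t i = T.t j → T.t i ≠ 0 → T.n ∣ i - j) : T.k = 1 := by
  set L := T.p + T.q with hL
  have hLpos : 0 < L := add_pos T.hp T.hq
  have hn : T.n = T.k * L := rfl
  have hdvd : ∀ i, L ∣ T.t (i + L) - T.t i := by
    intro i
    have h1 := T.t_cong i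
    have h2 := T.t_cong (i + L)
    have h3 := dvd_sub h1 h2
    have h4 : L ∣ L * T.p := dvd_mul_right _ _
    have h5 := dvd_add h3 h4
    rwa [show i * T.p - T.t i - ((i + L) * T.p - T.t (i + L)) + L * T.p
      = T.t (i + L) - T.t i by ring] at h5
  have hstep : ∀ i, |(T.t (i + 1 + L) - T.t (i + 1)) - (T.t (i + L) - T.t i)| ≤ L := by
    intro i
    have a1 := T.ta i; have a2 := T.tb i
    have b1 := T.ta (i + L); have b2 := T.tb (i + L)
    rw [show i + L + 1 = i + 1 + L by ring] at b1 b2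
    have hp := T.hp
    have hq := T.hq
    rw [abs_le]
    cases hw : T.w i <;> cases hw' : T.w (i + L)
    · have := a2 hw; have := b2 hw'; omega
    · have := a2 hw; have := b1 hw'; omega
    · have := a1 hw; have := b2 hw'; omega
    · have := a1 hw; have := b1 hw'; omega
  have hz : ∃ i, T.t (i + L) = T.t i := by
    by_contra hcon
    push Not at hcon
    have hbig : ∀ i, L ≤ |T.t (i + L) - T.t i| := by
      intro i
      by_contra hc
      have := Int.eq_zero_of_abs_lt_dvd (hdvd i) (by omega)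
      exact hcon i (by omega)
    have hsign : ∀ i, (0 < T.t (i + L) - T.t i) → (0 < T.t (i + 1 + L) - T.t (i + 1)) := by
      intro i hi
      have h1 := hbig i
      have h2 := hbig (i + 1)
      have h3 := hstep i
      rw [abs_le] at h3
      rw [abs_of_pos hi] at h1
      rcases lt_trichotomy 0 (T.t (i + 1 + L) - T.t (i + 1)) with h | h | h
      · exact h
      · rw [← h, abs_zero] at h2; omega
      · rw [abs_of_neg h] at h2; omega
    have hsign' : ∀ i, (T.t (i + L) - T.t i < 0) → (T.t (i + 1 + L) - T.t (i + 1) < 0) := by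
      intro i hi
      have h1 := hbig i
      have h2 := hbig (i + 1)
      have h3 := hstep i
      rw [abs_le] at h3
      rw [abs_of_neg hi] at h1
      rcases lt_trichotomy 0 (T.t (i + 1 + L) - T.t (i + 1)) with h | h | h
      · rw [abs_of_pos h] at h2; omega
      · rw [← h, abs_zero] at h2; omega
      · exact h
    have hper : ∀ m : ℕ, T.t (0 + m * T.n) = T.t 0 := fun m => T.t_per' 0 m
    have hk := T.hk
    have hkc : ((T.k.toNat : ℕ) : ℤ) = T.k := Int.toNat_of_nonneg hk.le
    rcases lt_trichotomy 0 (T.t (0 + L) - T.t 0) with h0 | h0 | h0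
    · have hall : ∀ m : ℕ, 0 < T.t ((m : ℤ) + L) - T.t m := by
        intro m
        induction m with
        | zero => simpa using h0
        | succ m ih => push_cast; exact hsign m ih
      have hgrow : ∀ m : ℕ, T.t 0 + m ≤ T.t ((m : ℤ) * L) := by
        intro m
        induction m with
        | zero => simp
        | succ m ih =>
          have := hall (m * L.toNat)
          push_cast at this
          rw [Int.toNat_of_nonneg hLpos.le] at this
          push_cast
          rw [show ((m : ℤ) + 1) * L = m * L + L by ring]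
          omega
      have h1 := hgrow T.k.toNat
      have h2 := T.t_per 0
      rw [hkc, ← hn] at h1
      rw [zero_add] at h2
      omega
    · exact hcon 0 (by omega)
    · have hall : ∀ m : ℕ, T.t ((m : ℤ) + L) - T.t m < 0 := by
        intro m
        induction m with
        | zero => simpa using h0
        | succ m ih => push_cast; exact hsign' m ih
      have hgrow : ∀ m : ℕ, T.t ((m : ℤ) * L) ≤ T.t 0 - m := by
        intro m
        induction m with
        | zero => simp
        | succ m ih =>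
          have := hall (m * L.toNat)
          push_cast at this
          rw [Int.toNat_of_nonneg hLpos.le] at this
          push_cast
          rw [show ((m : ℤ) + 1) * L = m * L + L by ring]
          omega
      have h1 := hgrow T.k.toNat
      have h2 := T.t_per 0
      rw [hkc, ← hn] at h1
      rw [zero_add] at h2
      omega
  obtain ⟨i, hi⟩ := hz
  have hnL : T.n ∣ L := by
    rcases eq_or_ne (T.t i) 0 with h0 | h0
    · have h1 := (T.t0 i).1 h0
      have h2 := (T.t0 (i + L)).1 (by rw [hi, h0])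
      have := dvd_sub h2 h1
      rwa [add_sub_cancel_left] at this
    · have := h (i + L) i hi (by rw [hi]; exact h0)
      rwa [add_sub_cancel_left] at this
  have h1 := Int.le_of_dvd hLpos hnL
  rw [hn] at h1
  have hk := T.hk
  by_contra hne
  have : 2 ≤ T.k := by omega
  nlinarith

end PCPHard
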