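import Pool.Agent.PCPHard.Basic

/-!
The two-parse structure `TP`: block boundaries `G` and `H` of the two parses of the bi-infinite
periodic word, levels `t`, heights `ht`.
-/

namespace PCPHard

structure TP where
  x : ℤ
  y : ℤ
  u : ℤ
  v : ℤ
  p : ℤ
  q : ℤ
  d : ℤ
  k : ℤ
  N : ℤ
  sg : ℤ
  sh : ℤ
  w : ℤ → Bool
  G : ℤ → ℤ
  H : ℤ → ℤ
  t : ℤ → ℤ
  ht : ℤ → ℤ
  hy : 0 < y
  hu : 0 < u
  hp : 0 < p
  hq : 0 < q
  hpq : p = q → p = 1
  hd : 0 < d
  hk : 0 < k
  hxu : x = u + d * p
  hvy : v = y + d * q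
  wper : ∀ i, w (i + k * (p + q)) = w i
  Gper : ∀ i, G (i + k * (p + q)) = G i + N
  Hper : ∀ i, H (i + k * (p + q)) = H i + N
  G0 : G 0 = 0
  H0 : H 0 = 0
  Ga : ∀ i, w i = true → G (i + 1) = G i + x
  Gb : ∀ i, w i = false → G (i + 1) = G i + y
  Ha : ∀ i, w i = true → H (i + 1) = H i + u
  Hb : ∀ i, w i = false → H (i + 1) = H i + v
  ta : ∀ i, w i = true → t (i + 1) = t i + p
  tb : ∀ i, w i = false → t (i + 1) = t i - q
  GH : ∀ i, G i - H i = d * t i
  t0 : ∀ i, t i = 0 ↔ k * (p + q) ∣ i
  U1 : ∀ i j, w (i - 1) = true → w i = false → w (j - 1) = true → w j = false → t i = t j →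
    0 < t i → d * t i ≤ x + v → k * (p + q) ∣ i - j
  U2 : ∀ i j, w (i - 1) = false → w i = true → w (j - 1) = false → w j = true → t i = t j →
    t i < 0 → d * (- t i) ≤ x + v → k * (p + q) ∣ i - j
  U3 : ∀ i j, w i = true → w j = true → t i = t j → t i < 0 → d * (- t i) ≤ x →
    k * (p + q) ∣ i - j
  U4 : ∀ i j, w (i - 1) = true → w (j - 1) = true → t i = t j → 0 < t i → d * t i ≤ x →
    k * (p + q) ∣ i - j
  V3 : ∀ i j, w i = false → w j = false → t i = t j → 0 < t i → d * t i ≤ v →
    k * (p + q) ∣ i - j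
  V4 : ∀ i j, w (i - 1) = false → w (j - 1) = false → t i = t j → t i < 0 → d * (- t i) ≤ v →
    k * (p + q) ∣ i - j
  htper : ∀ P, ht (P + N) = ht P
  htG : ∀ i, ht (G i) = sg * t i
  htH : ∀ i, ht (H i) = sh * t i
  cG : ∀ i j, w i = w j → ∀ o, 0 ≤ o → o ≤ G (i + 1) - G i →
    ht (G j + o) = ht (G i + o) + sg * (t j - t i)
  cH : ∀ i j, w i = w j → ∀ o, 0 ≤ o → o ≤ H (i + 1) - H i →
    ht (H j + o) = ht (H i + o) + sh * (t j - t i)

namespace TP

variable (T : TP)

/-- period -/
abbrev n : ℤ := T.k * (T.p + T.q)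

theorem n_pos : 0 < T.n := mul_pos T.hk (add_pos T.hp T.hq)

theorem hx : 0 < T.x := by
  have := T.hu; have := mul_pos T.hd T.hp; have := T.hxu; omega

theorem hv : 0 < T.v := by
  have := T.hy; have := mul_pos T.hd T.hq; have := T.hvy; omega

def neg : TP where
  x := T.x
  y := T.y
  u := T.u
  v := T.v
  p := T.p
  q := T.q
  d := T.d
  k := T.k
  N := T.N
  sg := - T.sg
  sh := - T.sh
  w := T.w
  G := T.G
  H := T.H
  t := T.t
  ht := fun P => - T.ht P
  hy := T.hy
  hu := T.hu
  hp := T.hp
  hq := T.hq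
  hpq := T.hpq
  hd := T.hd
  hk := T.hk
  hxu := T.hxu
  hvy := T.hvy
  wper := T.wper
  Gper := T.Gper
  Hper := T.Hper
  G0 := T.G0
  H0 := T.H0
  Ga := T.Ga
  Gb := T.Gb
  Ha := T.Ha
  Hb := T.Hb
  ta := T.ta
  tb := T.tb
  GH := T.GH
  t0 := T.t0
  U1 := T.U1
  U2 := T.U2
  U3 := T.U3
  U4 := T.U4
  V3 := T.V3
  V4 := T.V4
  htper := fun P => by simp only [T.htper]
  htG := fun i => by simp only [T.htG]; ring
  htH := fun i => by simp only [T.htH]; ring
  cG := by
    intro i j h o h0 h1
    simp only [T.cG i j h o h0 h1]; ring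
  cH := by
    intro i j h o h0 h1
    simp only [T.cH i j h o h0 h1]; ring

/-- exchange the roles of the letters and of the two morphisms -/
def swap : TP where
  x := T.v
  y := T.u
  u := T.y
  v := T.x
  p := T.q
  q := T.p
  d := T.d
  k := T.k
  N := T.N
  sg := - T.sh
  sh := - T.sg
  w := fun i => !T.w i
  G := T.H
  H := T.G
  t := fun i => - T.t i
  ht := T.ht
  hy := T.hu
  hu := T.hy
  hp := T.hq
  hq := T.hp
  hpq := fun h => by have := T.hpq h.symm; omega
  hd := T.hd
  hk := T.hk
  hxu := T.hvy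
  hvy := T.hxu
  wper := fun i => by rw [add_comm T.q T.p, T.wper]
  Gper := fun i => by rw [add_comm T.q T.p, T.Hper]
  Hper := fun i => by rw [add_comm T.q T.p, T.Gper]
  G0 := T.H0
  H0 := T.G0
  Ga := fun i h => T.Hb i (by simpa using h)
  Gb := fun i h => T.Ha i (by simpa using h)
  Ha := fun i h => T.Gb i (by simpa using h)
  Hb := fun i h => T.Ga i (by simpa using h)
  ta := fun i h => by
    have := T.tb i (by simpa using h)
    simp only [this]; ring
  tb := fun i h => by
    have := T.ta i (by simpa using h)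
    simp only [this]; ring
  GH := fun i => by
    have := T.GH i
    linarith
  t0 := fun i => by
    rw [add_comm T.q T.p, ← T.t0]; omega
  U1 := fun i j h1 h2 h3 h4 h5 h6 h7 => by
    rw [add_comm T.q T.p]
    exact T.U2 i j (by simpa using h1) (by simpa using h2) (by simpa using h3)
      (by simpa using h4) (by omega) (by omega) (by linarith)
  U2 := fun i j h1 h2 h3 h4 h5 h6 h7 => by
    rw [add_comm T.q T.p]
    refine T.U1 i j (by simpa using h1) (by simpa using h2) (by simpa using h3)
      (by simpa using h4) (by omega) (by omega) ?_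
    rw [neg_neg] at h7; linarith
  U3 := fun i j h1 h2 h3 h4 h5 => by
    rw [add_comm T.q T.p]
    refine T.V3 i j (by simpa using h1) (by simpa using h2) (by omega) (by omega) ?_
    rwa [neg_neg] at h5
  U4 := fun i j h1 h2 h3 h4 h5 => by
    rw [add_comm T.q T.p]
    exact T.V4 i j (by simpa using h1) (by simpa using h2) (by omega) (by omega) h5
  V3 := fun i j h1 h2 h3 h4 h5 => by
    rw [add_comm T.q T.p]
    exact T.U3 i j (by simpa using h1) (by simpa using h2) (by omega) (by omega) h5
  V4 := fun i j h1 h2 h3 h4 h5 => by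
    rw [add_comm T.q T.p]
    refine T.U4 i j (by simpa using h1) (by simpa using h2) (by omega) (by omega) ?_
    rwa [neg_neg] at h5
  htper := T.htper
  htG := fun i => by simp only [T.htH]; ring
  htH := fun i => by simp only [T.htG]; ring
  cG := by
    intro i j h o h0 h1
    have := T.cH i j (by simpa using h) o h0 h1
    rw [this]; ring
  cH := by
    intro i j h o h0 h1
    have := T.cG i j (by simpa using h) o h0 h1
    rw [this]; ring

/-- reversal -/
def rev : TP where
  x := T.x
  y := T.y
  u := T.u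
  v := T.v
  p := T.p
  q := T.q
  d := T.d
  k := T.k
  N := T.N
  sg := T.sg
  sh := T.sh
  w := fun i => T.w (- i - 1)
  G := fun i => - T.G (- i)
  H := fun i => - T.H (- i)
  t := fun i => - T.t (- i)
  ht := fun P => - T.ht (- P)
  hy := T.hy
  hu := T.hu
  hp := T.hp
  hq := T.hq
  hpq := T.hpq
  hd := T.hd
  hk := T.hk
  hxu := T.hxu
  hvy := T.hvy
  wper := fun i => by
    have := T.wper (- (i + T.k * (T.p + T.q)) - 1)
    rw [show - (i + T.k * (T.p + T.q)) - 1 + T.k * (T.p + T.q) = - i - 1 by ring] at this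
    exact this.symm
  Gper := fun i => by
    have := T.Gper (- (i + T.k * (T.p + T.q)))
    rw [show - (i + T.k * (T.p + T.q)) + T.k * (T.p + T.q) = - i by ring] at this
    omega
  Hper := fun i => by
    have := T.Hper (- (i + T.k * (T.p + T.q)))
    rw [show - (i + T.k * (T.p + T.q)) + T.k * (T.p + T.q) = - i by ring] at this
    omega
  G0 := by simp [T.G0]
  H0 := by simp [T.H0]
  Ga := fun i h => by
    have := T.Ga (- i - 1) h
    rw [sub_add_cancel] at this
    rw [show - (i + 1) = - i - 1 by ring]; omega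
  Gb := fun i h => by
    have := T.Gb (- i - 1) h
    rw [sub_add_cancel] at this
    rw [show - (i + 1) = - i - 1 by ring]; omega
  Ha := fun i h => by
    have := T.Ha (- i - 1) h
    rw [sub_add_cancel] at this
    rw [show - (i + 1) = - i - 1 by ring]; omega
  Hb := fun i h => by
    have := T.Hb (- i - 1) h
    rw [sub_add_cancel] at this
    rw [show - (i + 1) = - i - 1 by ring]; omega
  ta := fun i h => by
    have := T.ta (- i - 1) h
    rw [sub_add_cancel] at this
    rw [show - (i + 1) = - i - 1 by ring]; omega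
  tb := fun i h => by
    have := T.tb (- i - 1) h
    rw [sub_add_cancel] at this
    rw [show - (i + 1) = - i - 1 by ring]; omega
  GH := fun i => by
    have := T.GH (- i)
    linarith
  t0 := fun i => by
    rw [← dvd_neg, ← T.t0]; omega
  U1 := fun i j h1 h2 h3 h4 h5 h6 h7 => by
    have := T.U2 (- i) (- j) h2 (by rw [show - (i - 1) - 1 = - i by ring] at h1; exact h1) h4
      (by rw [show - (j - 1) - 1 = - j by ring] at h3; exact h3) (by omega) (by omega)
      (by linarith)
    rw [show i - j = - (- i - - j) by ring]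
    exact (dvd_neg).2 this
  U2 := fun i j h1 h2 h3 h4 h5 h6 h7 => by
    have := T.U1 (- i) (- j) h2 (by rw [show - (i - 1) - 1 = - i by ring] at h1; exact h1) h4
      (by rw [show - (j - 1) - 1 = - j by ring] at h3; exact h3) (by omega) (by omega)
      (by rw [neg_neg] at h7; linarith)
    rw [show i - j = - (- i - - j) by ring]
    exact (dvd_neg).2 this
  U3 := fun i j h1 h2 h3 h4 h5 => by
    have := T.U4 (- i) (- j) h1 h2 (by omega) (by omega)
      (by rw [neg_neg] at h5; linarith)
    rw [show i - j = - (- i - - j) by ring]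
    exact (dvd_neg).2 this
  U4 := fun i j h1 h2 h3 h4 h5 => by
    have := T.U3 (- i) (- j) (by rw [show - (i - 1) - 1 = - i by ring] at h1; exact h1)
      (by rw [show - (j - 1) - 1 = - j by ring] at h2; exact h2) (by omega) (by omega)
      (by linarith)
    rw [show i - j = - (- i - - j) by ring]
    exact (dvd_neg).2 this
  V3 := fun i j h1 h2 h3 h4 h5 => by
    have := T.V4 (- i) (- j) h1 h2 (by omega) (by omega)
      (by linarith)
    rw [show i - j = - (- i - - j) by ring]
    exact (dvd_neg).2 this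
  V4 := fun i j h1 h2 h3 h4 h5 => by
    have := T.V3 (- i) (- j) (by rw [show - (i - 1) - 1 = - i by ring] at h1; exact h1)
      (by rw [show - (j - 1) - 1 = - j by ring] at h2; exact h2) (by omega) (by omega)
      (by rw [neg_neg] at h5; linarith)
    rw [show i - j = - (- i - - j) by ring]
    exact (dvd_neg).2 this
  htper := fun P => by
    have := T.htper (- (P + T.N))
    rw [show - (P + T.N) + T.N = - P by ring] at this
    omega
  htG := fun i => by
    simp only [neg_neg, T.htG]; ring
  htH := fun i => by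
    simp only [neg_neg, T.htH]; ring
  cG := by
    intro i j h o h0 h1
    have h2 : - (i + 1) = - i - 1 := by ring
    have h3 : - (j + 1) = - j - 1 := by ring
    rw [h2] at h1
    set L := T.G (- i) - T.G (- i - 1) with hL
    have hLi : T.G (- i) = T.G (- i - 1) + L := by omega
    have hLj : T.G (- j) = T.G (- j - 1) + L := by
      have a := T.Ga (- i - 1); have b := T.Gb (- i - 1)
      have a' := T.Ga (- j - 1); have b' := T.Gb (- j - 1)
      rw [sub_add_cancel] at a b a' b'
      cases hw : T.w (- i - 1) with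
      | true =>
        have := a hw; have := a' (by rw [← hw]; exact h.symm); omega
      | false =>
        have := b hw; have := b' (by rw [← hw]; exact h.symm); omega
    have hc := T.cG (- i - 1) (- j - 1) h (L - o) (by omega)
      (by rw [sub_add_cancel]; omega)
    have tt : T.t (- j - 1) - T.t (- i - 1) = T.t (- j) - T.t (- i) := by
      have a := T.ta (- i - 1); have b := T.tb (- i - 1)
      have a' := T.ta (- j - 1); have b' := T.tb (- j - 1)
      rw [sub_add_cancel] at a b a' b'
      cases hw : T.w (- i - 1) with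
      | true =>
        have := a hw; have := a' (by rw [← hw]; exact h.symm); omega
      | false =>
        have := b hw; have := b' (by rw [← hw]; exact h.symm); omega
    rw [tt] at hc
    rw [show - (- T.G (- j) + o) = T.G (- j - 1) + (L - o) by omega,
      show - (- T.G (- i) + o) = T.G (- i - 1) + (L - o) by omega, hc]
    ring
  cH := by
    intro i j h o h0 h1
    have h2 : - (i + 1) = - i - 1 := by ring
    have h3 : - (j + 1) = - j - 1 := by ring
    rw [h2] at h1
    set L := T.H (- i) - T.H (- i - 1) with hL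
    have hLi : T.H (- i) = T.H (- i - 1) + L := by omega
    have hLj : T.H (- j) = T.H (- j - 1) + L := by
      have a := T.Ha (- i - 1); have b := T.Hb (- i - 1)
      have a' := T.Ha (- j - 1); have b' := T.Hb (- j - 1)
      rw [sub_add_cancel] at a b a' b'
      cases hw : T.w (- i - 1) with
      | true =>
        have := a hw; have := a' (by rw [← hw]; exact h.symm); omega
      | false =>
        have := b hw; have := b' (by rw [← hw]; exact h.symm); omega
    have hc := T.cH (- i - 1) (- j - 1) h (L - o) (by omega)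
      (by rw [sub_add_cancel]; omega)
    have tt : T.t (- j - 1) - T.t (- i - 1) = T.t (- j) - T.t (- i) := by
      have a := T.ta (- i - 1); have b := T.tb (- i - 1)
      have a' := T.ta (- j - 1); have b' := T.tb (- j - 1)
      rw [sub_add_cancel] at a b a' b'
      cases hw : T.w (- i - 1) with
      | true =>
        have := a hw; have := a' (by rw [← hw]; exact h.symm); omega
      | false =>
        have := b hw; have := b' (by rw [← hw]; exact h.symm); omega
    rw [tt] at hc
    rw [show - (- T.H (- j) + o) = T.H (- j - 1) + (L - o) by omega,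
      show - (- T.H (- i) + o) = T.H (- i - 1) + (L - o) by omega, hc]
    ring

/-! ### basic facts -/

theorem G_lt (i : ℤ) : T.G i < T.G (i + 1) := by
  cases h : T.w i with
  | true => rw [T.Ga i h]; have := T.hx; omega
  | false => rw [T.Gb i h]; have := T.hy; omega

theorem H_lt (i : ℤ) : T.H i < T.H (i + 1) := by
  cases h : T.w i with
  | true => rw [T.Ha i h]; have := T.hu; omega
  | false => rw [T.Hb i h]; have := T.hv; omega

theorem mono_aux {K : ℤ → ℤ} (hK : ∀ i, K i < K (i + 1)) {i j : ℤ} (h : i ≤ j) :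
    K i + (j - i) ≤ K j := by
  obtain ⟨m, rfl⟩ := Int.le.dest h
  induction m with
  | zero => simp
  | succ m ih =>
    have h1 := ih (by omega)
    have h2 := hK (i + m)
    push_cast
    rw [← add_assoc]
    omega

theorem G_mono {i j : ℤ} (h : i ≤ j) : T.G i + (j - i) ≤ T.G j := mono_aux T.G_lt h

theorem H_mono {i j : ℤ} (h : i ≤ j) : T.H i + (j - i) ≤ T.H j := mono_aux T.H_lt h

theorem G_lt_iff {i j : ℤ} : T.G i < T.G j ↔ i < j := by
  constructor
  · intro h
    by_contra hc
    have := T.G_mono (i := j) (j := i) (by omega)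
    omega
  · intro h
    have := T.G_mono (i := i) (j := j) (by omega)
    omega

theorem H_lt_iff {i j : ℤ} : T.H i < T.H j ↔ i < j := by
  constructor
  · intro h
    by_contra hc
    have := T.H_mono (i := j) (j := i) (by omega)
    omega
  · intro h
    have := T.H_mono (i := i) (j := j) (by omega)
    omega

theorem t_lt_of {i : ℤ} (h : T.G i < T.H i) : T.t i < 0 := by
  have := T.GH i
  have hd := T.hd
  by_contra hc
  have := mul_nonneg hd.le (not_lt.mp hc)
  omega

theorem t_gt_of {i : ℤ} (h : T.H i < T.G i) : 0 < T.t i := by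
  have := T.GH i
  have hd := T.hd
  by_contra hc
  have := mul_nonpos_of_nonneg_of_nonpos hd.le (not_lt.mp hc)
  omega

theorem t_per (i : ℤ) : T.t (i + T.n) = T.t i := by
  have h1 := T.GH (i + T.n)
  have h2 := T.GH i
  have h3 := T.Gper i
  have h4 := T.Hper i
  rw [show T.k * (T.p + T.q) = T.n from rfl] at h3 h4
  rw [h3, h4] at h1
  have hd := T.hd
  have : T.d * T.t (i + T.n) = T.d * T.t i := by linarith
  exact mul_left_cancel₀ hd.ne' this

theorem t_zero : T.t 0 = 0 := (T.t0 0).2 (dvd_zero _)

theorem N_eq : T.G T.n = T.N := by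
  have := T.Gper 0
  rw [zero_add, T.G0, zero_add] at this
  exact this

theorem N_eqH : T.H T.n = T.N := by
  have := T.Hper 0
  rw [zero_add, T.H0, zero_add] at this
  exact this

theorem N_pos : 0 < T.N := by
  rw [← T.N_eq]
  have := T.G_mono (i := 0) (j := T.n) T.n_pos.le
  rw [T.G0] at this
  have := T.n_pos
  omega

theorem per_mul {f : ℤ → ℤ} {a : ℤ} (h : ∀ i, f (i + a) = f i) (i m : ℤ) :
    f (i + m * a) = f i := by
  have hnat : ∀ (m : ℕ) (i : ℤ), f (i + m * a) = f i := by
    intro m
    induction m with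
    | zero => intro i; simp
    | succ m ih =>
      intro i
      push_cast
      rw [show i + (m + 1) * a = (i + m * a) + a by ring, h, ih]
  rcases Int.eq_nat_or_neg m with ⟨m', rfl | rfl⟩
  · exact hnat m' i
  · have := hnat m' (i + (-(m' : ℤ)) * a)
    rw [show i + (-(m' : ℤ)) * a + m' * a = i by ring] at this
    exact this.symm

theorem ex_max {f : ℤ → ℤ} {a : ℤ} (ha : 0 < a) (h : ∀ i, f (i + a) = f i) :
    ∃ i, ∀ j, f j ≤ f i := by
  obtain ⟨i, _, hi⟩ := Finset.exists_max_image (Finset.Ico 0 a) f ⟨0, by simp [ha]⟩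
  refine ⟨i, fun j => ?_⟩
  have h1 := hi (j % a) (by
    rw [Finset.mem_Ico]; exact ⟨Int.emod_nonneg _ ha.ne', Int.emod_lt_of_pos _ ha⟩)
  have h2 := per_mul h (j % a) (j / a)
  rw [show j % a + j / a * a = j by rw [mul_comm]; exact Int.emod_add_mul_ediv j a] at h2
  omega

theorem exTop : ∃ i, ∀ j, T.t j ≤ T.t i := ex_max T.n_pos T.t_per

theorem exBot : ∃ i, ∀ j, T.t i ≤ T.t j := by
  obtain ⟨i, hi⟩ := ex_max (f := fun i => - T.t i) T.n_pos (fun i => by simp only [T.t_per])
  exact ⟨i, fun j => neg_le_neg_iff.mp (hi j)⟩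

theorem exMax : ∃ i, ∀ j, T.ht j ≤ T.ht i := ex_max T.N_pos T.htper

theorem exMin : ∃ i, ∀ j, T.ht i ≤ T.ht j := by
  obtain ⟨i, hi⟩ := ex_max (f := fun i => - T.ht i) T.N_pos (fun i => by simp only [T.htper])
  exact ⟨i, fun j => neg_le_neg_iff.mp (hi j)⟩

theorem loc_aux {K : ℤ → ℤ} (hK : ∀ i, K i < K (i + 1)) (P : ℤ) :
    ∃ l, K l ≤ P ∧ P < K (l + 1) := by
  have hb : ∃ b : ℤ, ∀ z, K z ≤ P → z ≤ b := by
    refine ⟨max 0 (P - K 0), fun z hz => ?_⟩
    rcases le_or_gt z 0 with h | h
    · exact le_trans h (le_max_left _ _)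
    · have := mono_aux hK (i := 0) (j := z) h.le
      exact le_trans (by omega) (le_max_right _ _)
  have hi : ∃ z : ℤ, K z ≤ P := by
    refine ⟨min 0 (P - K 0), ?_⟩
    have := mono_aux hK (i := min 0 (P - K 0)) (j := 0) (min_le_left _ _)
    have := min_le_right 0 (P - K 0)
    omega
  obtain ⟨l, h1, h2⟩ := Int.exists_greatest_of_bdd hb hi
  refine ⟨l, h1, ?_⟩
  by_contra hc
  have := h2 (l + 1) (not_lt.mp hc)
  omega

theorem locG (P : ℤ) : ∃ l, T.G l ≤ P ∧ P < T.G (l + 1) := loc_aux T.G_lt P

theorem locH (P : ℤ) : ∃ l, T.H l ≤ P ∧ P < T.H (l + 1) := loc_aux T.H_lt P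

/-- the parse `G` when `0 < sg` -/
def SG (h : 0 < T.sg) : SP where
  w := T.w
  K := T.G
  t := T.t
  ht := T.ht
  p := T.p
  q := T.q
  s := T.sg
  hp := T.hp
  hq := T.hq
  hs := h
  hK := T.G_lt
  hlen := by
    intro i j hij
    cases hw : T.w i with
    | true => rw [T.Ga i hw, T.Ga j (by rw [← hij, hw])]; ring
    | false => rw [T.Gb i hw, T.Gb j (by rw [← hij, hw])]; ring
  ta := T.ta
  tb := T.tb
  htK := T.htG
  cons := T.cG
  exTop := T.exTop
  exBot := T.exBot
  exMax := T.exMax
  exMin := T.exMin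
  loc := T.locG

/-- the parse `H` when `0 < sh` -/
def SH (h : 0 < T.sh) : SP where
  w := T.w
  K := T.H
  t := T.t
  ht := T.ht
  p := T.p
  q := T.q
  s := T.sh
  hp := T.hp
  hq := T.hq
  hs := h
  hK := T.H_lt
  hlen := by
    intro i j hij
    cases hw : T.w i with
    | true => rw [T.Ha i hw, T.Ha j (by rw [← hij, hw])]; ring
    | false => rw [T.Hb i hw, T.Hb j (by rw [← hij, hw])]; ring
  ta := T.ta
  tb := T.tb
  htK := T.htH
  cons := T.cH
  exTop := T.exTop
  exBot := T.exBot
  exMax := T.exMax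
  exMin := T.exMin
  loc := T.locH

/-- every level is congruent to `i * p` modulo `p + q` -/
theorem t_cong (i : ℤ) : (T.p + T.q) ∣ i * T.p - T.t i := by
  have step : ∀ i, (T.p + T.q) ∣ i * T.p - T.t i ↔ (T.p + T.q) ∣ (i + 1) * T.p - T.t (i + 1) := by
    intro i
    cases h : T.w i with
    | true =>
      rw [T.ta i h, show (i + 1) * T.p - (T.t i + T.p) = i * T.p - T.t i by ring]
    | false =>
      rw [T.tb i h, show (i + 1) * T.p - (T.t i - T.q) = (i * T.p - T.t i) + (T.p + T.q) by ring]
      exact (dvd_add_self_right).symm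
  induction i using Int.induction_on with
  | zero => simp [T.t_zero]
  | succ i ih => exact (step i).1 ih
  | pred i ih =>
    have := (step (-(i : ℤ) - 1)).2
    rw [sub_add_cancel] at this
    exact this ih

/-- a small span of levels forces `k = 1` -/
theorem span_one (h : ∀ i j, T.t i - T.t j < T.p + T.q) : T.k = 1 := by
  have hL : 0 < T.p + T.q := add_pos T.hp T.hq
  have h1 := T.t_cong (T.p + T.q)
  have h2 : (T.p + T.q) ∣ T.t (T.p + T.q) := by
    have h3 : (T.p + T.q) ∣ (T.p + T.q) * T.p := dvd_mul_right _ _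
    have := dvd_sub h3 h1
    rwa [show (T.p + T.q) * T.p - ((T.p + T.q) * T.p - T.t (T.p + T.q)) = T.t (T.p + T.q) by ring]
      at this
  have h3 := h (T.p + T.q) 0
  have h4 := h 0 (T.p + T.q)
  rw [T.t_zero] at h3 h4
  have h5 : T.t (T.p + T.q) = 0 := by
    apply Int.eq_zero_of_abs_lt_dvd h2
    rw [abs_lt]; omega
  rw [T.t0] at h5
  have h6 := Int.le_of_dvd hL h5
  have hk := T.hk
  by_contra hne
  have : 2 ≤ T.k := by omega
  nlinarith

/-- no bottom vertex is adjacent to a top vertex when `k ≥ 2` -/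
theorem span_ge (hk : 2 ≤ T.k) {i j : ℤ} (hi : ∀ l, T.t l ≤ T.t i) (hj : ∀ l, T.t j ≤ T.t l) :
    T.p + T.q ≤ T.t i - T.t j := by
  by_contra hc
  have := T.span_one (fun a b => by have := hi a; have := hj b; omega)
  omega

theorem Y_ge : T.d * (T.p + T.q) ≤ T.x + T.v - 2 := by
  have := T.hxu; have := T.hvy; have := T.hu; have := T.hy
  nlinarith

theorem top_nonneg {i : ℤ} (hi : ∀ l, T.t l ≤ T.t i) : 0 ≤ T.t i := by
  have := hi 0; rw [T.t_zero] at this; exact this

theorem bot_nonpos {j : ℤ} (hj : ∀ l, T.t j ≤ T.t l) : T.t j ≤ 0 := by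
  have := hj 0; rw [T.t_zero] at this; exact this

theorem top_prev {i : ℤ} (hi : ∀ j, T.t j ≤ T.t i) : T.w (i - 1) = true := by
  by_contra h
  have h' : T.w (i - 1) = false := by simpa using h
  have h1 := T.tb (i - 1) h'
  rw [sub_add_cancel] at h1
  have h2 := hi (i - 1)
  have := T.hq
  omega

theorem top_next {i : ℤ} (hi : ∀ j, T.t j ≤ T.t i) : T.w i = false := by
  by_contra h
  have h' : T.w i = true := by simpa using h
  have h1 := T.ta i h'
  have h2 := hi (i + 1)
  have := T.hp
  omega

theorem bot_prev {i : ℤ} (hi : ∀ j, T.t i ≤ T.t j) : T.w (i - 1) = false := by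
  by_contra h
  have h' : T.w (i - 1) = true := by simpa using h
  have h1 := T.ta (i - 1) h'
  rw [sub_add_cancel] at h1
  have h2 := hi (i - 1)
  have := T.hp
  omega

theorem bot_next {i : ℤ} (hi : ∀ j, T.t i ≤ T.t j) : T.w i = true := by
  by_contra h
  have h' : T.w i = false := by simpa using h
  have h1 := T.tb i h'
  have h2 := hi (i + 1)
  have := T.hq
  omega

end TP

end PCPHard
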