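import Pool.Agent.PCPHard.Main

/-!
Words layer: two morphisms `mor x y`, `mor u v` from words over `Bool` and their shortest common
value.
-/

namespace PCPHard

variable {α : Type}

/-- block of a letter -/
def blk (x y : List α) (c : Bool) : List α := if c = true then x else y

/-- image of a word over `Bool` -/
def mor (x y : List α) (w : List Bool) : List α := w.flatMap (blk x y)

/-- weight of a word -/
def psi (F : α → ℤ) (l : List α) : ℤ := (l.map F).sum

theorem mor_nil (x y : List α) : mor x y [] = [] := rfl

theorem mor_append (x y : List α) (w w' : List Bool) :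
    mor x y (w ++ w') = mor x y w ++ mor x y w' := by
  simp [mor]

theorem mor_cons (x y : List α) (c : Bool) (w : List Bool) :
    mor x y (c :: w) = blk x y c ++ mor x y w := by
  simp [mor]

theorem psi_append (F : α → ℤ) (l l' : List α) : psi F (l ++ l') = psi F l + psi F l' := by
  simp [psi]

theorem psi_mor (F : α → ℤ) (x y : List α) (w : List Bool) :
    psi F (mor x y w) = (w.count true : ℤ) * psi F x + (w.count false : ℤ) * psi F y := by
  induction w with
  | nil => simp [mor, psi]
  | cons c w ih =>
    rw [mor_cons, psi_append, ih]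
    cases c
    · simp [blk]; ring
    · simp [blk]; ring

theorem length_mor (x y : List α) (w : List Bool) :
    (mor x y w).length = w.count true * x.length + w.count false * y.length := by
  induction w with
  | nil => simp [mor]
  | cons c w ih =>
    rw [mor_cons, List.length_append, ih]
    cases c
    · simp [blk]; ring
    · simp [blk]; ring

theorem count_mor [DecidableEq α] (c : α) (x y : List α) (w : List Bool) :
    (mor x y w).count c = w.count true * x.count c + w.count false * y.count c := by
  induction w with
  | nil => simp [mor]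
  | cons e w ih =>
    rw [mor_cons, List.count_append, ih]
    cases e
    · simp [blk]; ring
    · simp [blk]; ring

theorem mor_take_succ (x y : List α) (w : List Bool) {r : ℕ} (hr : r < w.length) :
    mor x y (w.take (r + 1)) = mor x y (w.take r) ++ blk x y w[r] := by
  rw [List.take_succ_eq_append_getElem hr, mor_append, mor_cons, mor_nil, List.append_nil]

theorem mor_split (x y : List α) (w : List Bool) {r : ℕ} (hr : r < w.length) :
    mor x y w = mor x y (w.take r) ++ (blk x y w[r] ++ mor x y (w.drop (r + 1))) := by
  conv_lhs => rw [← List.take_append_drop r w, mor_append, List.drop_eq_getElem_cons hr, mor_cons]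

theorem mor_take (x y : List α) (w : List Bool) (r : ℕ) :
    mor x y (w.take r) = (mor x y w).take (mor x y (w.take r)).length := by
  conv_rhs => rw [← List.take_append_drop r w, mor_append, List.take_append_drop]
  rw [List.take_left]

theorem mor_drop (x y : List α) (w : List Bool) (r : ℕ) :
    mor x y (w.drop r) = (mor x y w).drop (mor x y (w.take r)).length := by
  have h : mor x y w = mor x y (w.take r) ++ mor x y (w.drop r) := by
    rw [← mor_append, List.take_append_drop]
  rw [h, List.drop_left]

/-- letters inside a block -/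
theorem get_block (x y : List α) (w : List Bool) {r : ℕ} (hr : r < w.length) {e : ℕ}
    (he : e < (blk x y w[r]).length) :
    (mor x y w)[(mor x y (w.take r)).length + e]? = (blk x y w[r])[e]? := by
  rw [mor_split x y w hr, List.getElem?_append_right (by omega), Nat.add_sub_cancel_left,
    List.getElem?_append_left he]

/-- cutting out a factor between two vertices with the same overflow -/
theorem uniq_core (x y u v : List α) (w : List Bool) (hsol : mor x y w = mor u v w)
    (hmin : ∀ w', w' ≠ [] → mor x y w' = mor u v w' → w.length ≤ w'.length)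
    {r r' : ℕ} (hrr : r < r') (hr' : r' < w.length) {ℓ : ℕ}
    (e1 : (mor x y (w.take r)).length = (mor u v (w.take r)).length + ℓ)
    (e2 : (mor x y (w.take r')).length = (mor u v (w.take r')).length + ℓ)
    (hov : ∀ e, e < ℓ → (mor u v w)[(mor u v (w.take r)).length + e]?
      = (mor u v w)[(mor u v (w.take r')).length + e]?) : False := by
  have h1 : mor x y (w.take r ++ w.drop r') = mor u v (w.take r ++ w.drop r') := by
    rw [mor_append, mor_append, mor_take x y, mor_take u v, mor_drop x y, mor_drop u v, hsol,
      e1, e2, List.take_add, List.append_assoc]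
    congr 1
    have h2 : ((mor u v w).drop (mor u v (w.take r)).length).take ℓ
        = ((mor u v w).drop (mor u v (w.take r')).length).take ℓ := by
      apply List.ext_getElem?
      intro e
      rw [List.getElem?_take, List.getElem?_take]
      split_ifs with h
      · rw [List.getElem?_drop, List.getElem?_drop]; exact hov e h
      · rfl
    rw [h2, ← List.drop_drop, List.take_append_drop]
  have h3 : w.take r ++ w.drop r' ≠ [] := by
    intro h
    have := congrArg List.length h
    rw [List.length_append, List.length_take, List.length_drop, List.length_nil] at this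
    omega
  have h4 := hmin _ h3 h1
  rw [List.length_append, List.length_take, List.length_drop] at h4
  omega

theorem uniq_lt (x y u v : List α) (w : List Bool) (hsol : mor x y w = mor u v w)
    (hmin : ∀ w', w' ≠ [] → mor x y w' = mor u v w' → w.length ≤ w'.length)
    {r r' : ℕ} (hr1 : r + 1 < w.length) (hr1' : r' + 1 < w.length) (hrr : r < r') {ℓ : ℕ}
    (e1 : (mor x y (w.take (r + 1))).length = (mor u v (w.take (r + 1))).length + ℓ)
    (e2 : (mor x y (w.take (r' + 1))).length = (mor u v (w.take (r' + 1))).length + ℓ)
    (hc : ∀ e, e < ℓ → (w[r + 1] = w[r' + 1] ∧ e < (blk u v w[r + 1]).length) ∨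
      (w[r] = w[r'] ∧ ℓ ≤ e + (blk x y w[r]).length)) : False := by
  refine uniq_core x y u v w hsol hmin (r := r + 1) (r' := r' + 1) (by omega) hr1' e1 e2 ?_
  intro e he
  rcases hc e he with ⟨h1, h2⟩ | ⟨h1, h2⟩
  · rw [get_block u v w hr1 h2, get_block u v w hr1' (by rw [← h1]; exact h2), h1]
  · have f1 := mor_take_succ x y w (r := r) (by omega)
    have f2 := mor_take_succ x y w (r := r') (by omega)
    rw [f1, List.length_append] at e1
    rw [f2, List.length_append] at e2
    rw [← h1] at e2
    have g1 : (mor u v (w.take (r + 1))).length + e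
        = (mor x y (w.take r)).length + (e + (blk x y w[r]).length - ℓ) := by omega
    have g2 : (mor u v (w.take (r' + 1))).length + e
        = (mor x y (w.take r')).length + (e + (blk x y w[r]).length - ℓ) := by omega
    rw [g1, g2, ← hsol, get_block x y w (by omega) (by omega),
      get_block x y w (by omega) (by rw [← h1]; omega), h1]

theorem uniq_ne (x y u v : List α) (w : List Bool) (hsol : mor x y w = mor u v w)
    (hmin : ∀ w', w' ≠ [] → mor x y w' = mor u v w' → w.length ≤ w'.length)
    {r r' : ℕ} (hr1 : r + 1 < w.length) (hr1' : r' + 1 < w.length) {ℓ : ℕ}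
    (e1 : (mor x y (w.take (r + 1))).length = (mor u v (w.take (r + 1))).length + ℓ)
    (e2 : (mor x y (w.take (r' + 1))).length = (mor u v (w.take (r' + 1))).length + ℓ)
    (hc : ∀ e, e < ℓ → (w[r + 1] = w[r' + 1] ∧ e < (blk u v w[r + 1]).length) ∨
      (w[r] = w[r'] ∧ ℓ ≤ e + (blk x y w[r]).length)) : r = r' := by
  rcases lt_trichotomy r r' with h | h | h
  · exact (uniq_lt x y u v w hsol hmin hr1 hr1' h e1 e2 hc).elim
  · exact h
  · refine (uniq_lt x y u v w hsol hmin hr1' hr1 h e2 e1 ?_).elim
    intro e he
    rcases hc e he with ⟨h1, h2⟩ | ⟨h1, h2⟩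
    · left; rw [← h1]; exact ⟨rfl, h2⟩
    · right; rw [← h1]; exact ⟨rfl, h2⟩

/-- periodic extension -/
def ext (n : ℕ) (N : ℤ) (K0 : ℕ → ℤ) (i : ℤ) : ℤ := (i / n) * N + K0 (i % n).toNat

theorem divmod {n : ℕ} {m : ℤ} {r : ℕ} (hr : r < n) : (m * n + r) / n = m ∧
    ((m * n + r) % n).toNat = r := by
  have h1 : (m * n + r) / n = m := by
    rw [add_comm, Int.add_mul_ediv_right _ _ (by omega), Int.ediv_eq_zero_of_lt (by omega)
      (by omega), zero_add]
  have h2 : (m * n + r) % n = r := by
    rw [add_comm, Int.add_mul_emod_self_right]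
    exact Int.emod_eq_of_lt (by omega) (by omega)
  exact ⟨h1, by rw [h2]; exact Int.toNat_natCast r⟩

theorem ext_spec {n : ℕ} {N : ℤ} {K0 : ℕ → ℤ} (hn : 0 < n) (h0 : K0 0 = 0) (hN : K0 n = N)
    (m : ℤ) {r : ℕ} (hr : r ≤ n) : ext n N K0 (m * n + r) = m * N + K0 r := by
  rcases hr.lt_or_eq with h | h
  · obtain ⟨h1, h2⟩ := divmod (m := m) h
    rw [ext, h1, h2]
  · subst h
    have : m * (r : ℤ) + r = (m + 1) * r + (0 : ℕ) := by push_cast; ring
    rw [this]
    obtain ⟨h1, h2⟩ := divmod (m := m + 1) hn
    rw [ext, h1, h2, h0, hN]; ring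

theorem decomp {n : ℕ} (hn : 0 < n) (i : ℤ) : ∃ (m : ℤ) (r : ℕ), r < n ∧ i = m * n + r := by
  refine ⟨i / n, (i % n).toNat, ?_, ?_⟩
  · have := Int.emod_lt_of_pos i (show (0 : ℤ) < n by omega)
    have := Int.emod_nonneg i (show (n : ℤ) ≠ 0 by omega)
    omega
  · rw [Int.toNat_of_nonneg (Int.emod_nonneg i (by omega)), mul_comm]
    exact (Int.mul_ediv_add_emod i n).symm

end PCPHard
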